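import Pool.Agent.Helper254.MS.Defs

set_option autoImplicit false

open Finset Classical

namespace Pool.Agent.Helper254.MS

variable {V : Type} [Fintype V]

theorem exists_tri (H : SimpleGraph V) (hC : Crit H) : ∃ T : Finset (V × V × V), Tri H T := by
  let Q : V × V × V → Prop := fun t =>
    UC H t.1 t.2.1 t.2.2 ∧ ∃ x, H.Adj t.1 x ∧ H.Adj t.2.1 x
  let P : Sym2 V → Prop := fun e => ∃ t : V × V × V, s(t.1, t.2.1) = e ∧ Q t
  let g : Sym2 V → Option (V × V × V) := fun e =>
    if h : P e then some (Classical.choose h) else none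
  have hg : ∀ e t, g e = some t → s(t.1, t.2.1) = e ∧ Q t := by
    intro e t h
    by_cases hP : P e
    · have h1 : g e = some (Classical.choose hP) := dif_pos hP
      rw [h1] at h
      have h2 : Classical.choose hP = t := Option.some.inj h
      rw [← h2]
      exact Classical.choose_spec hP
    · have h1 : g e = none := dif_neg hP
      rw [h1] at h
      exact absurd h (by simp)
  have hg' : ∀ e, P e → ∃ t, g e = some t := fun e h => ⟨Classical.choose h, dif_pos h⟩
  refine ⟨(univ : Finset (V × V × V)).filter (fun t => g s(t.1, t.2.1) = some t), ?_, ?_, ?_, ?_, ?_⟩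
  · intro u v b h
    rw [mem_filter] at h
    exact (hg _ _ h.2).2.1
  · intro u v b b' h h'
    rw [mem_filter] at h h'
    have h1 := h.2
    have h2 := h'.2
    simp only at h1 h2
    rw [h1] at h2
    have h3 := Option.some.inj h2
    simp only [Prod.mk.injEq, true_and] at h3
    exact h3
  · intro u v b b' h h'
    rw [mem_filter] at h h'
    have h1 := h.2
    have h2 := h'.2
    simp only at h1 h2
    rw [Sym2.eq_swap, h1] at h2
    have h3 := Option.some.inj h2
    simp only [Prod.mk.injEq] at h3
    have h4 := (hg _ _ h1).2.1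
    exact H.ne_of_adj h4.2.2.1 h3.1
  · intro u v b h
    rw [mem_filter] at h
    exact (hg _ _ h.2).2.2
  · intro u v huv hx
    have hP : P s(u, v) := by
      rcases hC u v huv hx with ⟨b, hb⟩ | ⟨b, hb⟩
      · exact ⟨(u, v, b), rfl, hb, hx⟩
      · refine ⟨(v, u, b), Sym2.eq_swap, hb, ?_⟩
        obtain ⟨x, h1, h2⟩ := hx
        exact ⟨x, h2, h1⟩
    obtain ⟨t, ht⟩ := hg' _ hP
    have h1 := (hg _ _ ht).1
    obtain ⟨t1, t2, t3⟩ := t
    simp only at h1
    rcases Sym2.eq_iff.mp h1 with ⟨h2, h3⟩ | ⟨h2, h3⟩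
    · left
      refine ⟨t3, ?_⟩
      rw [mem_filter]
      refine ⟨mem_univ _, ?_⟩
      simp only
      rw [ht, h2, h3]
    · right
      refine ⟨t3, ?_⟩
      rw [mem_filter]
      refine ⟨mem_univ _, ?_⟩
      simp only
      rw [Sym2.eq_swap, ht, h2, h3]


end Pool.Agent.Helper254.MS
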