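import Pool.Agent.Helper254.MS.Defs

set_option autoImplicit false

open Finset Classical

namespace Pool.Agent.Helper254.MS

variable {V : Type} [Fintype V]

theorem mc_flip (H : SimpleGraph V) (A A' : Finset V) (v : V)
    (hA' : ∀ x, x ∈ A' ↔ (if x = v then x ∉ A else x ∈ A)) :
    (In2 H A' : ℤ) = In2 H A + 2 * (crs H A v : ℤ) - 2 * (inn H A v : ℤ) := by
  have hin : ∀ (B : Finset V) (x : V), (inn H B x : ℤ) =
      ∑ y, (if same B x y ∧ H.Adj x y then (1 : ℤ) else 0) := by
    intro B x
    unfold inn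
    rw [Finset.card_filter]
    push_cast
    rfl
  have hcr : ∀ (B : Finset V) (x : V), (crs H B x : ℤ) =
      ∑ y, (if ¬ same B x y ∧ H.Adj x y then (1 : ℤ) else 0) := by
    intro B x
    unfold crs
    rw [Finset.card_filter]
    push_cast
    rfl
  have hIn : ∀ B : Finset V, (In2 H B : ℤ) =
      ∑ x, ∑ y, (if same B x y ∧ H.Adj x y then (1 : ℤ) else 0) := by
    intro B
    unfold In2
    push_cast
    exact Finset.sum_congr rfl (fun x _ => hin B x)
  have hpt : ∀ x y, (if same A' x y ∧ H.Adj x y then (1 : ℤ) else 0) =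
      (if same A x y ∧ H.Adj x y then (1 : ℤ) else 0) +
      (if x = v then ((if ¬ same A x y ∧ H.Adj x y then (1 : ℤ) else 0) -
        (if same A x y ∧ H.Adj x y then (1 : ℤ) else 0)) else 0) +
      (if y = v then ((if ¬ same A x y ∧ H.Adj x y then (1 : ℤ) else 0) -
        (if same A x y ∧ H.Adj x y then (1 : ℤ) else 0)) else 0) := by
    intro x y
    by_cases hadj : H.Adj x y
    · have hxy : x ≠ y := hadj.ne
      unfold same
      rw [hA' x, hA' y]
      by_cases hx : x = v
      · have hy : y ≠ v := fun h => hxy (hx.trans h.symm)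
        by_cases h1 : x ∈ A <;> by_cases h2 : y ∈ A <;> simp_all
      · by_cases hy : y = v
        · by_cases h1 : x ∈ A <;> by_cases h2 : y ∈ A <;> simp_all
        · simp [hx, hy]
    · simp [hadj]
  rw [hIn A', hIn A]
  simp_rw [hpt]
  simp only [Finset.sum_add_distrib]
  have e1 : ∑ x, ∑ y, (if x = v then ((if ¬ same A x y ∧ H.Adj x y then (1 : ℤ) else 0) -
        (if same A x y ∧ H.Adj x y then (1 : ℤ) else 0)) else 0) =
      (crs H A v : ℤ) - inn H A v := by
    rw [hcr, hin, ← Finset.sum_sub_distrib, Finset.sum_comm]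
    refine Finset.sum_congr rfl (fun y _ => ?_)
    rw [Finset.sum_ite_eq' Finset.univ v, if_pos (Finset.mem_univ _)]
  have e2 : ∑ x, ∑ y, (if y = v then ((if ¬ same A x y ∧ H.Adj x y then (1 : ℤ) else 0) -
        (if same A x y ∧ H.Adj x y then (1 : ℤ) else 0)) else 0) =
      (crs H A v : ℤ) - inn H A v := by
    rw [hcr, hin, ← Finset.sum_sub_distrib]
    refine Finset.sum_congr rfl (fun x _ => ?_)
    rw [Finset.sum_ite_eq' Finset.univ v, if_pos (Finset.mem_univ _)]
    have hs : same A x v ↔ same A v x := by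
      unfold same; tauto
    have ha : H.Adj x v ↔ H.Adj v x := H.adj_comm x v
    simp only [hs, ha]
  rw [e1, e2]
  ring

theorem max_cut (H : SimpleGraph V) (A0 : Finset V) :
    ∃ A : Finset V, In2 H A ≤ In2 H A0 ∧ ∀ v, inn H A v ≤ crs H A v := by
  obtain ⟨A, _, hA⟩ := Finset.exists_min_image (Finset.univ : Finset (Finset V)) (In2 H)
    ⟨A0, Finset.mem_univ _⟩
  refine ⟨A, hA A0 (Finset.mem_univ _), fun v => ?_⟩
  have h1 := mc_flip H A (Finset.univ.filter (fun x => if x = v then x ∉ A else x ∈ A)) v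
    (fun x => by rw [Finset.mem_filter]; simp only [Finset.mem_univ, true_and])
  have h2 := hA (Finset.univ.filter (fun x => if x = v then x ∉ A else x ∈ A)) (Finset.mem_univ _)
  have h3 : (In2 H A : ℤ) ≤
    In2 H (Finset.univ.filter (fun x => if x = v then x ∉ A else x ∈ A)) := by exact_mod_cast h2
  rw [h1] at h3
  have h4 : (inn H A v : ℤ) ≤ crs H A v := by linarith
  exact_mod_cast h4


end Pool.Agent.Helper254.MS
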