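import Pool.Agent.Helper254.MS.A7

set_option autoImplicit false

open Finset Classical

namespace Pool.Agent.Helper254.MS

variable {V : Type} [Fintype V]

theorem Gd_symm (H : SimpleGraph V) (θ ρ : ℝ) (x y : V) (h : Gd H θ ρ x y) : Gd H θ ρ y x := by
  obtain ⟨h1, h2, h3, h4⟩ := h
  refine ⟨h1.symm, ?_, h4, h3⟩
  have : cod H y x = cod H x y := by
    unfold cod
    congr 1
    ext z
    simp [and_comm]
  rw [this]; exact h2

theorem stage1_A2 (H : SimpleGraph V) (T : Finset (V × V × V)) (hT : Tri H T) (θ0 θ1 ρ K : ℝ)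
    (h1 : 1 + 2 * ρ * (Fintype.card V : ℝ) ≤ θ1 ^ 2 * (Fintype.card V : ℝ))
    (Good : V → Prop)
    (hGood : ∀ b, Good b → (((univ : Finset V).filter
        (fun w => (cod H w b : ℝ) ≤ θ1 ^ 2 * (Fintype.card V : ℝ) ∧ ¬ Sat H T w b)).card : ℝ) ≤ K) 
    (hK : 0 ≤ K) (T1 : Finset V)
    (hT1 : ∀ v, v ∈ T1 → ∃ u b, (u, v, b) ∈ T ∧ Gd H θ0 ρ u v ∧ Good b) :
    (((univ : Finset (V × V)).filter
        (fun p => p.1 ∈ T1 ∧ Gd H θ0 ρ p.1 p.2 ∧ ∃ b, (p.1, p.2, b) ∈ T)).card : ℝ)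
      ≤ (Fintype.card V : ℝ) * (1 + K) + ((RR T).card : ℝ) := by
  have hfib : ∀ v : V, (((univ : Finset V).filter
        (fun w => v ∈ T1 ∧ Gd H θ0 ρ v w ∧ ∃ b, (v, w, b) ∈ T)).card : ℝ) ≤
        (1 + K) + (((univ : Finset V).filter (fun w => (v, w) ∈ RR T)).card : ℝ) := by
    intro v
    by_cases hv : v ∈ T1
    · obtain ⟨u, b, hub, hG, hb⟩ := hT1 v hv
      have hsub : ((univ : Finset V).filter
        (fun w => v ∈ T1 ∧ Gd H θ0 ρ v w ∧ ∃ b, (v, w, b) ∈ T)) ⊆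
          ({b} : Finset V) ∪ ((univ : Finset V).filter
        (fun w => (cod H w b : ℝ) ≤ θ1 ^ 2 * (Fintype.card V : ℝ) ∧ ¬ Sat H T w b)) ∪
          ((univ : Finset V).filter (fun w => (v, w) ∈ RR T)) := by
        intro w hw
        simp only [mem_filter, mem_univ, true_and] at hw
        obtain ⟨_, hGw, b', hb'⟩ := hw
        simp only [mem_union, mem_singleton, mem_filter, mem_univ, true_and]
        by_cases hwb : w = b
        · left; left; exact hwb
        · rcases key H T hT θ0 θ1 ρ h1 u v b w hub hG hGw hwb with h | h | h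
          · left; right; exact h
          · exact absurd h (hT.anti v w b' b hb')
          · right; exact h
      have hc := card_le_card hsub
      have hc2 := card_union_le (({b} : Finset V) ∪ ((univ : Finset V).filter
        (fun w => (cod H w b : ℝ) ≤ θ1 ^ 2 * (Fintype.card V : ℝ) ∧ ¬ Sat H T w b)))
          ((univ : Finset V).filter (fun w => (v, w) ∈ RR T))
      have hc3 := card_union_le ({b} : Finset V) ((univ : Finset V).filter
        (fun w => (cod H w b : ℝ) ≤ θ1 ^ 2 * (Fintype.card V : ℝ) ∧ ¬ Sat H T w b))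
      rw [card_singleton] at hc3
      have h4 : (((univ : Finset V).filter
        (fun w => v ∈ T1 ∧ Gd H θ0 ρ v w ∧ ∃ b, (v, w, b) ∈ T)).card) ≤ 1 + ((univ : Finset V).filter
        (fun w => (cod H w b : ℝ) ≤ θ1 ^ 2 * (Fintype.card V : ℝ) ∧ ¬ Sat H T w b)).card + 
          ((univ : Finset V).filter (fun w => (v, w) ∈ RR T)).card := by omega
      have h5 : ((((univ : Finset V).filter
        (fun w => v ∈ T1 ∧ Gd H θ0 ρ v w ∧ ∃ b, (v, w, b) ∈ T)).card : ℕ) : ℝ) ≤ 1 + (((univ : Finset V).filter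
        (fun w => (cod H w b : ℝ) ≤ θ1 ^ 2 * (Fintype.card V : ℝ) ∧ ¬ Sat H T w b)).card : ℝ) + 
          (((univ : Finset V).filter (fun w => (v, w) ∈ RR T)).card : ℝ) := by exact_mod_cast h4
      have := hGood b hb
      linarith
    · have : ((univ : Finset V).filter
        (fun w => v ∈ T1 ∧ Gd H θ0 ρ v w ∧ ∃ b, (v, w, b) ∈ T)) = ∅ := by
        apply filter_eq_empty_iff.mpr
        intro w _ h
        exact hv h.1
      rw [this]
      simp only [card_empty, Nat.cast_zero]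
      positivity
  have hprod : ∀ (P : V → V → Prop), ((univ : Finset (V × V)).filter (fun p => P p.1 p.2)).card =
      ∑ v : V, ((univ : Finset V).filter (fun w => P v w)).card := by
    intro P
    rw [card_filter, ← univ_product_univ, sum_product]
    apply sum_congr rfl
    intro v _
    rw [card_filter]
  have e1 := hprod (fun v w => v ∈ T1 ∧ Gd H θ0 ρ v w ∧ ∃ b, (v, w, b) ∈ T)
  have e2 := hprod (fun v w => (v, w) ∈ RR T)
  have e3 : ((univ : Finset (V × V)).filter (fun p => (p.1, p.2) ∈ RR T)).card = (RR T).card := by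
    congr 1
    ext p; simp
  have e4 : (RR T).card = ∑ v : V, ((univ : Finset V).filter (fun w => (v, w) ∈ RR T)).card := by
    rw [← e3]
    convert e2
  have e1' : ((((univ : Finset (V × V)).filter
        (fun p => p.1 ∈ T1 ∧ Gd H θ0 ρ p.1 p.2 ∧ ∃ b, (p.1, p.2, b) ∈ T)).card : ℕ) : ℝ) =
      ∑ v : V, (((univ : Finset V).filter
        (fun w => v ∈ T1 ∧ Gd H θ0 ρ v w ∧ ∃ b, (v, w, b) ∈ T)).card : ℝ) := by
    have e1'' : ((univ : Finset (V × V)).filter
        (fun p => p.1 ∈ T1 ∧ Gd H θ0 ρ p.1 p.2 ∧ ∃ b, (p.1, p.2, b) ∈ T)).card =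
      ∑ v : V, ((univ : Finset V).filter
        (fun w => v ∈ T1 ∧ Gd H θ0 ρ v w ∧ ∃ b, (v, w, b) ∈ T)).card := by convert e1
    rw [e1'']; push_cast; rfl
  have e2' : ((RR T).card : ℝ) = ∑ v : V, (((univ : Finset V).filter (fun w => (v, w) ∈ RR T)).card : ℝ) := by
    rw [e4]; push_cast; rfl
  rw [e1', e2']
  calc _ ≤ ∑ v : V, ((1 + K) + (((univ : Finset V).filter (fun w => (v, w) ∈ RR T)).card : ℝ)) :=
        sum_le_sum (fun v _ => hfib v)
    _ = _ := by
        rw [sum_add_distrib, sum_const, card_univ, nsmul_eq_mul]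

theorem stage1_A1 (H : SimpleGraph V) (T : Finset (V × V × V)) (hT : Tri H T) (B : Finset V) :
    ((univ : Finset (V × V)).filter (fun p => ∃ b, (p.1, p.2, b) ∈ T ∧ b ∈ B)).card
      ≤ Fintype.card V * B.card := by
  have h1 : ∀ p : V × V, p ∈ (univ : Finset (V × V)).filter (fun p => ∃ b, (p.1, p.2, b) ∈ T ∧ b ∈ B) → 
      ∃ b, (p.1, p.2, b) ∈ T ∧ b ∈ B := by
    intro p hp; simpa using hp
  let f : V × V → V := fun p => if h : ∃ b, (p.1, p.2, b) ∈ T ∧ b ∈ B then h.choose else p.1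
  have hf : ∀ p : V × V, p ∈ (univ : Finset (V × V)).filter (fun p => ∃ b, (p.1, p.2, b) ∈ T ∧ b ∈ B) → 
      (p.1, p.2, f p) ∈ T ∧ f p ∈ B := by
    intro p hp
    have h := h1 p hp
    simp only [f, dif_pos h]
    exact h.choose_spec
  have : ((univ : Finset (V × V)).filter (fun p => ∃ b, (p.1, p.2, b) ∈ T ∧ b ∈ B)).card ≤
      ((univ : Finset V) ×ˢ B).card := by
    apply card_le_card_of_injOn (fun p => (p.1, f p))
    · intro p hp
      have := hf p hp
      simp only [coe_product, Set.mem_prod, mem_coe, mem_univ, true_and]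
      exact this.2
    · intro p hp q hq hpq
      have h1 := hf p hp
      have h2 := hf q hq
      simp only [Prod.mk.injEq] at hpq
      obtain ⟨e1, e2⟩ := hpq
      obtain ⟨_, _, _, _, hu⟩ := hT.uc _ _ _ h1.1
      obtain ⟨_, _, hq3, hq4, _⟩ := hT.uc _ _ _ h2.1
      have : q.2 = p.2 := by
        apply hu
        · rw [e1]; exact hq3
        · rw [e2]; exact hq4.symm
      exact Prod.ext e1 this.symm
  rwa [card_product, card_univ] at this

/-- deterministic form of stage 1 -/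
theorem stage1_det (H : SimpleGraph V) (T : Finset (V × V × V)) (hT : Tri H T) (θ0 θ1 ρ β δ : ℝ)
    (hθ0 : 0 < θ0) (hθ1 : 0 < θ1) (hρ : 0 < ρ) (hβ : 0 < β)
    (h0 : 1 ≤ θ0 ^ 2 * (Fintype.card V : ℝ))
    (h1 : 1 + 2 * ρ * (Fintype.card V : ℝ) ≤ θ1 ^ 2 * (Fintype.card V : ℝ))
    (hm : (Fintype.card V : ℝ) ^ 2 - 2 * (Fintype.card V : ℝ) ≤ 2 * (E2 H : ℝ))
    (hδ : 2 * (Fintype.card V : ℝ) + ((RR T).card : ℝ) ≤ δ * (Fintype.card V : ℝ) ^ 2)
    (hβ2 : δ + 3 * θ1 ≤ β ^ 2) :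
    ∃ T1 : Finset V, (((univ : Finset (V × V)).filter
        (fun p => H.Adj p.1 p.2 ∧ (∃ z, H.Adj p.1 z ∧ H.Adj p.2 z) ∧ same T1 p.1 p.2)).card : ℝ)
      ≤ (δ + 3 * θ0 + 2 * (δ + 4 * θ0) / ρ + 4 * β + 2 * δ) * (Fintype.card V : ℝ) ^ 2 := by
  have hn0 : (0 : ℝ) ≤ (Fintype.card V : ℝ) := Nat.cast_nonneg _
  have hn : (0 : ℝ) < (Fintype.card V : ℝ) := by
    by_contra h
    have : (Fintype.card V : ℝ) = 0 := le_antisymm (not_lt.mp h) hn0
    rw [this] at h0; norm_num at h0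
  set n : ℝ := (Fintype.card V : ℝ) with hndef
  have hθn : 1 ≤ θ1 ^ 2 * n := by
    have : 0 ≤ 2 * ρ * n := by positivity
    linarith
  have hU := unsat H T hT θ1 hθ1 hθn hm
  have hUb : (((univ : Finset (V × V)).filter
        (fun p => (cod H p.1 p.2 : ℝ) ≤ θ1 ^ 2 * n ∧ ¬ Sat H T p.1 p.2)).card : ℝ)
      ≤ β ^ 2 * n ^ 2 := by
    have : (δ + 3 * θ1) * n ^ 2 ≤ β ^ 2 * n ^ 2 := mul_le_mul_of_nonneg_right hβ2 (by positivity)
    linarith
  -- fibre counts
  let c : V → ℕ := fun b => ((univ : Finset V).filter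
        (fun w => (cod H w b : ℝ) ≤ θ1 ^ 2 * n ∧ ¬ Sat H T w b)).card
  have hsum : (((univ : Finset (V × V)).filter
        (fun p => (cod H p.1 p.2 : ℝ) ≤ θ1 ^ 2 * n ∧ ¬ Sat H T p.1 p.2)).card) = ∑ b : V, c b := by
    rw [card_filter, ← univ_product_univ, sum_product_right]
    apply sum_congr rfl
    intro b _
    simp only [c]
    rw [card_filter]
  let BadB : Finset V := (univ : Finset V).filter (fun b => β * n < (c b : ℝ))
  have hBad : (BadB.card : ℝ) * (β * n) ≤ β ^ 2 * n ^ 2 := by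
    calc (BadB.card : ℝ) * (β * n) = ∑ b ∈ BadB, (β * n) := by rw [sum_const, nsmul_eq_mul]
      _ ≤ ∑ b ∈ BadB, (c b : ℝ) := by
          apply sum_le_sum
          intro b hb
          exact (mem_filter.mp hb).2.le
      _ ≤ ∑ b : V, (c b : ℝ) := sum_le_sum_of_subset_of_nonneg (subset_univ _) (fun _ _ _ => Nat.cast_nonneg _)
      _ = _ := by rw [← Nat.cast_sum, ← hsum]
      _ ≤ _ := hUb
  have hBad2 : (BadB.card : ℝ) ≤ β * n := by
    have hpos : 0 < β * n := by positivity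
    have : (BadB.card : ℝ) * (β * n) ≤ (β * n) * (β * n) := by
      calc _ ≤ β ^ 2 * n ^ 2 := hBad
        _ = _ := by ring
    exact le_of_mul_le_mul_right this hpos
  let T1 : Finset V := (univ : Finset V).filter
    (fun v => ∃ u b, (u, v, b) ∈ T ∧ Gd H θ0 ρ u v ∧ b ∉ BadB)
  refine ⟨T1, ?_⟩
  have hA2 := stage1_A2 H T hT θ0 θ1 ρ (β * n) h1 (fun b => b ∉ BadB) (by
    intro b hb
    have : ¬ (β * n < (c b : ℝ)) := by
      intro h
      exact hb (mem_filter.mpr ⟨mem_univ _, h⟩)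
    exact not_lt.mp this) (by positivity) T1 (by
    intro v hv
    simpa [T1] using hv)
  have hA1 := stage1_A1 H T hT BadB
  have hA1' : ((((univ : Finset (V × V)).filter (fun p => ∃ b, (p.1, p.2, b) ∈ T ∧ b ∈ BadB)).card : ℕ) : ℝ)
      ≤ n * (β * n) := by
    calc _ ≤ ((Fintype.card V * BadB.card : ℕ) : ℝ) := by exact_mod_cast hA1
      _ = n * (BadB.card : ℝ) := by push_cast; rfl
      _ ≤ _ := mul_le_mul_of_nonneg_left hBad2 hn0
  have hNG := nongood H T hT θ0 ρ δ hθ0 hρ h0 hm hδ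
  set A1 := (univ : Finset (V × V)).filter (fun p => ∃ b, (p.1, p.2, b) ∈ T ∧ b ∈ BadB) with hA1def
  set A2 := (univ : Finset (V × V)).filter
        (fun p => p.1 ∈ T1 ∧ Gd H θ0 ρ p.1 p.2 ∧ ∃ b, (p.1, p.2, b) ∈ T) with hA2def
  set NG := (univ : Finset (V × V)).filter
        (fun p => H.Adj p.1 p.2 ∧ (∃ z, H.Adj p.1 z ∧ H.Adj p.2 z) ∧ ¬ Gd H θ0 ρ p.1 p.2) with hNGdef
  have hsub : (univ : Finset (V × V)).filter
        (fun p => H.Adj p.1 p.2 ∧ (∃ z, H.Adj p.1 z ∧ H.Adj p.2 z) ∧ same T1 p.1 p.2) ⊆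
      NG ∪ ((A1 ∪ A2) ∪ (A1 ∪ A2).image Prod.swap) := by
    have hmain : ∀ x y b : V, (x, y, b) ∈ T → Gd H θ0 ρ x y → same T1 x y → (x, y) ∈ A1 ∪ A2 := by
      intro x y b hxy hG hs
      by_cases hb : b ∈ BadB
      · exact mem_union_left _ (mem_filter.mpr ⟨mem_univ _, b, hxy, hb⟩)
      · have hy : y ∈ T1 := mem_filter.mpr ⟨mem_univ _, x, b, hxy, hG, hb⟩
        have hx : x ∈ T1 := hs.mpr hy
        exact mem_union_right _ (mem_filter.mpr ⟨mem_univ _, hx, hG, b, hxy⟩)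
    intro p hp
    simp only [mem_filter, mem_univ, true_and] at hp
    obtain ⟨hadj, hcn, hs⟩ := hp
    by_cases hG : Gd H θ0 ρ p.1 p.2
    · apply mem_union_right
      rcases hT.cover p.1 p.2 hadj hcn with ⟨b, hb⟩ | ⟨b, hb⟩
      · exact mem_union_left _ (hmain _ _ b hb hG hs)
      · apply mem_union_right
        rw [mem_image]
        refine ⟨(p.2, p.1), hmain _ _ b hb (Gd_symm H θ0 ρ _ _ hG) hs.symm, rfl⟩
    · apply mem_union_left
      exact mem_filter.mpr ⟨mem_univ _, hadj, hcn, hG⟩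
  have hc := card_le_card hsub
  have hc1 := card_union_le NG ((A1 ∪ A2) ∪ (A1 ∪ A2).image Prod.swap)
  have hc2 := card_union_le (A1 ∪ A2) ((A1 ∪ A2).image Prod.swap)
  have hc3 : ((A1 ∪ A2).image Prod.swap).card ≤ (A1 ∪ A2).card := card_image_le
  have hc4 := card_union_le A1 A2
  have hfin : ((univ : Finset (V × V)).filter
        (fun p => H.Adj p.1 p.2 ∧ (∃ z, H.Adj p.1 z ∧ H.Adj p.2 z) ∧ same T1 p.1 p.2)).card ≤
      NG.card + 2 * (A1.card + A2.card) := by omega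
  have hfin' : ((((univ : Finset (V × V)).filter
        (fun p => H.Adj p.1 p.2 ∧ (∃ z, H.Adj p.1 z ∧ H.Adj p.2 z) ∧ same T1 p.1 p.2)).card : ℕ) : ℝ) ≤
      (NG.card : ℝ) + 2 * ((A1.card : ℝ) + (A2.card : ℝ)) := by exact_mod_cast hfin
  calc _ ≤ (NG.card : ℝ) + 2 * ((A1.card : ℝ) + (A2.card : ℝ)) := hfin'
    _ ≤ (δ + 3 * θ0 + 2 * (δ + 4 * θ0) / ρ) * n ^ 2 + 
        2 * (n * (β * n) + (n * (1 + β * n) + ((RR T).card : ℝ))) := by
        have hA2'' : (A2.card : ℝ) ≤ n * (1 + β * n) + ((RR T).card : ℝ) := hA2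
        linarith
    _ ≤ _ := by
        have hδ' : 2 * n + ((RR T).card : ℝ) ≤ δ * n ^ 2 := hδ
        nlinarith


end Pool.Agent.Helper254.MS
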