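import Pool.Agent.Helper254.MS.A2
import Pool.Agent.Helper254.MS.A1
import Pool.Agent.Helper254.MS.A8

set_option autoImplicit false

open Finset Classical

namespace Pool.Agent.Helper254.MS

variable {V : Type} [Fintype V]

theorem stage1 (ε : ℝ) (hε : 0 < ε) : ∃ N : ℕ, ∀ (V : Type) [Fintype V] (H : SimpleGraph V),
    N ≤ Fintype.card V → Crit H →
    (Fintype.card V : ℝ) ^ 2 - 2 * (Fintype.card V : ℝ) ≤ 2 * (E2 H : ℝ) →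
    ∃ T1 : Finset V, (((univ : Finset (V × V)).filter
        (fun p => H.Adj p.1 p.2 ∧ (∃ z, H.Adj p.1 z ∧ H.Adj p.2 z) ∧ same T1 p.1 p.2)).card : ℝ)
      ≤ ε * (Fintype.card V : ℝ) ^ 2 := by
  obtain ⟨e, he0, he1, heε⟩ : ∃ e : ℝ, 0 < e ∧ e ≤ 1 ∧ e ≤ ε :=
    ⟨min ε 1, lt_min hε one_pos, min_le_right _ _, min_le_left _ _⟩
  obtain ⟨β, hβ⟩ : ∃ β : ℝ, β = e / 16 := ⟨_, rfl⟩
  have hβ0 : 0 < β := by rw [hβ]; positivity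
  have hβ1 : β ≤ 1 := by rw [hβ]; linarith
  have hβ2' : β ^ 2 ≤ 1 := by nlinarith
  obtain ⟨θ1, hθ1⟩ : ∃ θ1 : ℝ, θ1 = β ^ 2 / 8 := ⟨_, rfl⟩
  have hθ10 : 0 < θ1 := by rw [hθ1]; positivity
  have hθ11 : θ1 ≤ 1 := by rw [hθ1]; linarith
  obtain ⟨ρ, hρ⟩ : ∃ ρ : ℝ, ρ = θ1 ^ 2 / 4 := ⟨_, rfl⟩
  have hρ0 : 0 < ρ := by rw [hρ]; positivity
  have hρ1 : ρ ≤ 1 := by rw [hρ]; nlinarith
  obtain ⟨θ0, hθ0⟩ : ∃ θ0 : ℝ, θ0 = e * ρ / 64 := ⟨_, rfl⟩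
  have hθ00 : 0 < θ0 := by rw [hθ0]; positivity
  obtain ⟨δ, hδ⟩ : ∃ δ : ℝ, δ = e * ρ * β ^ 2 / 100 := ⟨_, rfl⟩
  have hδ0 : 0 < δ := by rw [hδ]; positivity
  have heρ : e * ρ ≤ e := by nlinarith
  have heρ1 : e * ρ ≤ 1 := by linarith
  obtain ⟨N1, hN1⟩ := rs_bound (δ / 2) (by linarith)
  refine ⟨max N1 (max ⌈1 / θ0 ^ 2⌉₊ (max ⌈2 / θ1 ^ 2⌉₊ ⌈4 / δ⌉₊)), ?_⟩
  intro V _ H hN hC hm
  obtain ⟨T, hT⟩ := exists_tri H hC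
  have hNa : N1 ≤ Fintype.card V := le_trans (le_max_left _ _) hN
  have hNb := le_trans (le_max_right _ _) hN
  have hNc : ⌈1 / θ0 ^ 2⌉₊ ≤ Fintype.card V := le_trans (le_max_left _ _) hNb
  have hNd := le_trans (le_max_right _ _) hNb
  have hNe : ⌈2 / θ1 ^ 2⌉₊ ≤ Fintype.card V := le_trans (le_max_left _ _) hNd
  have hNf : ⌈4 / δ⌉₊ ≤ Fintype.card V := le_trans (le_max_right _ _) hNd
  have c1 : 1 / θ0 ^ 2 ≤ (Fintype.card V : ℝ) := Nat.ceil_le.1 hNc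
  have c2 : 2 / θ1 ^ 2 ≤ (Fintype.card V : ℝ) := Nat.ceil_le.1 hNe
  have c3 : 4 / δ ≤ (Fintype.card V : ℝ) := Nat.ceil_le.1 hNf
  rw [div_le_iff₀ (by positivity)] at c1 c2 c3
  have hn0 : (0 : ℝ) ≤ (Fintype.card V : ℝ) := Nat.cast_nonneg _
  have hRR := hN1 V H T hNa hT
  obtain ⟨T1, hT1⟩ := stage1_det H T hT θ0 θ1 ρ β δ hθ00 hθ10 hρ0 hβ0
    (by linarith) (by rw [hρ]; nlinarith) hm (by nlinarith)
    (by
      have : δ ≤ β ^ 2 / 2 := by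
        rw [hδ]
        have : e * ρ * β ^ 2 ≤ 1 * β ^ 2 := mul_le_mul_of_nonneg_right heρ1 (by positivity)
        nlinarith
      rw [hθ1]; nlinarith)
  refine ⟨T1, hT1.trans ?_⟩
  refine mul_le_mul_of_nonneg_right ?_ (by positivity)
  have d1 : δ ≤ e / 100 := by
    rw [hδ]
    have : e * ρ * β ^ 2 ≤ e * ρ * 1 := mul_le_mul_of_nonneg_left hβ2' (by positivity)
    linarith
  have d2 : θ0 ≤ e / 64 := by rw [hθ0]; linarith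
  have d3 : 2 * (δ + 4 * θ0) / ρ = 2 * (e * β ^ 2 / 100 + e / 16) := by
    rw [hδ, hθ0]; field_simp; ring
  have d4 : e * β ^ 2 ≤ e := by nlinarith
  rw [d3, hβ]
  rw [hβ] at d4
  nlinarith


end Pool.Agent.Helper254.MS
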