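import Pool.Agent.Helper254.MS.Defs

set_option autoImplicit false

open Finset Classical

namespace Pool.Agent.Helper254.MS

variable {V : Type} [Fintype V]

theorem rs_bound (δ : ℝ) (hδ : 0 < δ) : ∃ N : ℕ, ∀ (V : Type) [Fintype V] (H : SimpleGraph V)
    (T : Finset (V × V × V)), N ≤ Fintype.card V → Tri H T →
    ((RR T).card : ℝ) ≤ δ * (Fintype.card V : ℝ) ^ 2 := by
  have hκ : 0 < SimpleGraph.triangleRemovalBound (δ / 9) :=
    SimpleGraph.triangleRemovalBound_pos (by positivity)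
  set κ : ℝ := SimpleGraph.triangleRemovalBound (δ / 9) with hκdef
  obtain ⟨N, hN⟩ := exists_nat_gt (1 / (27 * κ))
  refine ⟨N, fun V _ H T hNV hT => ?_⟩
  by_contra hlt
  push Not at hlt
  -- choice of a leaf
  have hch : ∀ r : V × V, ∃ t : V × V × V, r ∈ RR T → t ∈ T ∧ (t.2.1, t.2.2) = r := by
    intro r
    by_cases hr : r ∈ RR T
    · obtain ⟨t, ht, htr⟩ := Finset.mem_image.1 hr
      exact ⟨t, fun _ => ⟨ht, htr⟩⟩
    · exact ⟨(r.1, r.1, r.1), fun h => absurd h hr⟩
  choose f hf using hch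
  set t : Finset (V × V × V) := (RR T).image f with htdef
  have hcard : t.card = (RR T).card := by
    apply Finset.card_image_of_injOn
    intro r hr s hs hrs
    have h1 := (hf r hr).2
    have h2 := (hf s hs).2
    have hrs' : f r = f s := hrs
    rw [← h1, ← h2, hrs']
  have htT : ∀ x ∈ t, x ∈ T := by
    intro x hx
    obtain ⟨r, hr, rfl⟩ := Finset.mem_image.1 hx
    exact (hf r hr).1
  have htf : ∀ a b c, (a, b, c) ∈ t → f (b, c) = (a, b, c) := by
    intro a b c hx
    obtain ⟨r, hr, hre⟩ := Finset.mem_image.1 hx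
    have h1 := (hf r hr).2
    rw [hre] at h1
    have h2 : (b, c) = r := h1
    exact h2 ▸ hre
  have hED : SimpleGraph.TripartiteFromTriangles.ExplicitDisjoint t := by
    refine ⟨?_, ?_, ?_⟩
    · intro a b c a' h1 h2
      have e1 := htf _ _ _ h1
      have e2 := htf _ _ _ h2
      rw [e1] at e2
      exact congrArg Prod.fst e2
    · intro a b c b' h1 h2
      have u1 := hT.uc _ _ _ (htT _ h1)
      have u2 := hT.uc _ _ _ (htT _ h2)
      obtain ⟨-, -, h3, h4, h5⟩ := u1
      obtain ⟨-, -, h3', h4', h5'⟩ := u2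
      exact h5' b h3 h4.symm
    · intro a b c c' h1 h2
      exact hT.fn _ _ _ _ (htT _ h1) (htT _ h2)
  have hNA : SimpleGraph.TripartiteFromTriangles.NoAccidental t := by
    refine ⟨?_⟩
    intro a a' b b' c c' h1 h2 h3
    have u1 := hT.uc _ _ _ (htT _ h1)
    have u2 := hT.uc _ _ _ (htT _ h2)
    have u3 := hT.uc _ _ _ (htT _ h3)
    obtain ⟨-, -, -, h4, -⟩ := u1
    obtain ⟨-, -, -, -, h5⟩ := u2
    obtain ⟨-, -, h6, -, -⟩ := u3
    exact Or.inr (Or.inl (h5 b h6 h4.symm))
  have hn : (0 : ℝ) ≤ (Fintype.card V : ℝ) := Nat.cast_nonneg _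
  have hfar : (SimpleGraph.TripartiteFromTriangles.graph t).FarFromTriangleFree (δ / 9) := by
    apply SimpleGraph.TripartiteFromTriangles.farFromTriangleFree
    rw [hcard]
    push_cast
    have : δ / 9 * ((Fintype.card V : ℝ) + Fintype.card V + Fintype.card V) ^ 2 =
      δ * (Fintype.card V : ℝ) ^ 2 := by ring
    rw [this]
    exact hlt.le
  have h1 := hfar.le_card_cliqueFinset
  rw [SimpleGraph.TripartiteFromTriangles.card_triangles] at h1
  rw [hcard, ← hκdef] at h1
  have h2 : ((RR T).card : ℝ) ≤ (Fintype.card V : ℝ) ^ 2 := by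
    have : (RR T).card ≤ Fintype.card (V × V) := Finset.card_le_univ _
    rw [Fintype.card_prod] at this
    calc ((RR T).card : ℝ) ≤ ((Fintype.card V * Fintype.card V : ℕ) : ℝ) := by exact_mod_cast this
      _ = (Fintype.card V : ℝ) ^ 2 := by push_cast; ring
  have h3 : (Fintype.card (V ⊕ V ⊕ V) : ℝ) = 3 * Fintype.card V := by
    rw [Fintype.card_sum, Fintype.card_sum]
    push_cast
    ring
  rw [h3] at h1
  have hNV' : (N : ℝ) ≤ Fintype.card V := by exact_mod_cast hNV
  have hnpos : (0 : ℝ) < Fintype.card V := by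
    have : (0 : ℝ) < 1 / (27 * κ) := by positivity
    linarith
  have h4 : 1 / (27 * κ) < Fintype.card V := lt_of_lt_of_le hN hNV'
  rw [div_lt_iff₀ (by positivity)] at h4
  have h5 : κ * (3 * (Fintype.card V : ℝ)) ^ 3 =
      ((Fintype.card V : ℝ) * (27 * κ)) * (Fintype.card V : ℝ) ^ 2 := by ring
  rw [h5] at h1
  have h6 : (Fintype.card V : ℝ) ^ 2 < ((Fintype.card V : ℝ) * (27 * κ)) * (Fintype.card V : ℝ) ^ 2 := by
    have : (0 : ℝ) < (Fintype.card V : ℝ) ^ 2 := by positivity
    nlinarith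
  linarith


end Pool.Agent.Helper254.MS
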