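import Pool.Agent.Helper254.MS.Defs

set_option autoImplicit false

open Finset Classical

namespace Pool.Agent.Helper254.MS

variable {V : Type} [Fintype V]

theorem sat_card (H : SimpleGraph V) (T : Finset (V × V × V)) (hT : Tri H T) :
    E2 H ≤ ((univ : Finset (V × V)).filter (fun p => Sat H T p.1 p.2)).card + (RR T).card := by
  set A0 := ((univ : Finset (V × V)).filter (fun p => H.Adj p.1 p.2 ∧ cod H p.1 p.2 = 0)) with hA0
  set A1 := ((univ : Finset (V × V)).filter (fun p => H.Adj p.1 p.2 ∧ cod H p.1 p.2 ≠ 0)) with hA1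
  set P1 := T.image (fun t : V × V × V => (t.1, t.2.2)) with hP1
  set P2 := T.image (fun t : V × V × V => (t.2.2, t.1)) with hP2
  have hE : E2 H ≤ A0.card + A1.card := by
    unfold E2
    rw [← Finset.card_union_of_disjoint]
    · refine Finset.card_le_card fun p hp => ?_
      have h1 := (Finset.mem_filter.1 hp).2
      rw [Finset.mem_union, hA0, hA1, Finset.mem_filter, Finset.mem_filter]
      by_cases h : cod H p.1 p.2 = 0
      · exact Or.inl ⟨Finset.mem_univ _, h1, h⟩
      · exact Or.inr ⟨Finset.mem_univ _, h1, h⟩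
    · rw [Finset.disjoint_left]
      intro p hp hp'
      exact (Finset.mem_filter.1 hp').2.2 (Finset.mem_filter.1 hp).2.2
  have hA1c : A1.card ≤ T.card + T.card := by
    have hsub : A1 ⊆ T.image (fun t : V × V × V => (t.1, t.2.1)) ∪
        T.image (fun t : V × V × V => (t.2.1, t.1)) := by
      intro p hp
      obtain ⟨_, h1, h2⟩ := Finset.mem_filter.1 hp
      have h3 : ∃ x, H.Adj p.1 x ∧ H.Adj p.2 x := by
        unfold cod at h2
        rw [Finset.card_ne_zero] at h2
        obtain ⟨x, hx⟩ := h2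
        exact ⟨x, (Finset.mem_filter.1 hx).2⟩
      rw [Finset.mem_union, Finset.mem_image, Finset.mem_image]
      rcases hT.cover _ _ h1 h3 with ⟨b, hb⟩ | ⟨b, hb⟩
      · exact Or.inl ⟨_, hb, rfl⟩
      · exact Or.inr ⟨_, hb, rfl⟩
    exact (Finset.card_le_card hsub).trans ((Finset.card_union_le _ _).trans
      (add_le_add Finset.card_image_le Finset.card_image_le))
  have huniq : ∀ u v v' b, (u, v, b) ∈ T → (u, v', b) ∈ T → v' = v := by
    intro u v v' b h h'
    obtain ⟨_, _, _, _, h5⟩ := hT.uc _ _ _ h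
    obtain ⟨_, _, h3, h4, _⟩ := hT.uc _ _ _ h'
    exact h5 v' h3 h4.symm
  have hP1c : P1.card = T.card := by
    rw [hP1]
    refine Finset.card_image_of_injOn ?_
    rintro ⟨u, v, b⟩ h ⟨u', v', b'⟩ h' he
    obtain ⟨rfl, rfl⟩ := Prod.ext_iff.1 he
    have := huniq _ _ _ _ h h'
    simp only at this ⊢
    rw [this]
  have hP2c : P2.card = T.card := by
    rw [hP2]
    refine Finset.card_image_of_injOn ?_
    rintro ⟨u, v, b⟩ h ⟨u', v', b'⟩ h' he
    obtain ⟨rfl, rfl⟩ := Prod.ext_iff.1 he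
    have := huniq _ _ _ _ h h'
    simp only at this ⊢
    rw [this]
  have hI : (P1 ∩ P2).card ≤ (RR T).card := by
    have hex : ∀ p ∈ P1 ∩ P2, ∃ v, (p.1, v, p.2) ∈ T ∧ (p.2, v, p.1) ∈ T := by
      intro p hp
      obtain ⟨h1, h2⟩ := Finset.mem_inter.1 hp
      obtain ⟨⟨u, v, b⟩, ht, rfl⟩ := Finset.mem_image.1 h1
      obtain ⟨⟨u', v', b'⟩, ht', he⟩ := Finset.mem_image.1 h2
      obtain ⟨h3, h4⟩ := Prod.ext_iff.1 he
      simp only at h3 h4
      subst h3 h4
      refine ⟨v, ht, ?_⟩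
      obtain ⟨_, _, h5, h6, h7⟩ := hT.uc _ _ _ ht'
      obtain ⟨_, _, h8, h9, h10⟩ := hT.uc _ _ _ ht
      have : v' = v := h10 v' h6.symm h5
      rw [← this]
      exact ht'
    have hex' : ∀ p : V × V, ∃ v, p ∈ P1 ∩ P2 → (p.1, v, p.2) ∈ T ∧ (p.2, v, p.1) ∈ T := by
      intro p
      by_cases h : p ∈ P1 ∩ P2
      · obtain ⟨v, hv⟩ := hex p h
        exact ⟨v, fun _ => hv⟩
      · exact ⟨p.1, fun h' => absurd h' h⟩
    choose g hg using hex'
    refine Finset.card_le_card_of_injOn (fun p => (g p, p.2)) ?_ ?_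
    · intro p hp
      unfold RR
      exact Finset.mem_coe.2 (Finset.mem_image.2 ⟨_, (hg p hp).1, rfl⟩)
    · intro p hp p' hp' he
      obtain ⟨h1, h2⟩ := Prod.ext_iff.1 he
      simp only at h1 h2
      have h3 := (hg p hp).2
      have h4 := (hg p' hp').2
      rw [h1, h2] at h3
      exact Prod.ext (hT.fn _ _ _ _ h3 h4) h2
  have hU : (P1 ∪ P2).card + (P1 ∩ P2).card = T.card + T.card := by
    rw [Finset.card_union_add_card_inter, hP1c, hP2c]
  have hS : A0.card + (P1 ∪ P2).card ≤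
      ((univ : Finset (V × V)).filter (fun p => Sat H T p.1 p.2)).card := by
    rw [← Finset.card_union_of_disjoint]
    · refine Finset.card_le_card fun p hp => ?_
      rw [Finset.mem_filter]
      refine ⟨Finset.mem_univ _, ?_⟩
      rcases Finset.mem_union.1 hp with h | h
      · exact Or.inl (Finset.mem_filter.1 h).2
      · rcases Finset.mem_union.1 h with h | h
        · obtain ⟨⟨u, v, b⟩, ht, rfl⟩ := Finset.mem_image.1 h
          exact Or.inr (Or.inl ⟨v, ht⟩)
        · obtain ⟨⟨u, v, b⟩, ht, rfl⟩ := Finset.mem_image.1 h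
          exact Or.inr (Or.inr ⟨v, ht⟩)
    · rw [Finset.disjoint_left]
      intro p hp hp'
      have h1 := (Finset.mem_filter.1 hp).2.1
      rcases Finset.mem_union.1 hp' with h | h
      · obtain ⟨⟨u, v, b⟩, ht, rfl⟩ := Finset.mem_image.1 h
        exact (hT.uc _ _ _ ht).2.1 h1
      · obtain ⟨⟨u, v, b⟩, ht, rfl⟩ := Finset.mem_image.1 h
        exact (hT.uc _ _ _ ht).2.1 h1.symm
  omega

theorem sat_cod (H : SimpleGraph V) (T : Finset (V × V × V)) (hT : Tri H T) (x y : V)
    (h : Sat H T x y) : cod H x y ≤ 1 := by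
  rcases h with ⟨_, h⟩ | ⟨v, h⟩ | ⟨v, h⟩
  · rw [h]; exact Nat.zero_le _
  · unfold cod
    rw [← Finset.card_singleton v]
    refine Finset.card_le_card fun z hz => ?_
    obtain ⟨_, h1, h2⟩ := Finset.mem_filter.1 hz
    exact Finset.mem_singleton.2 ((hT.uc _ _ _ h).2.2.2.2 z h1 h2)
  · unfold cod
    rw [← Finset.card_singleton v]
    refine Finset.card_le_card fun z hz => ?_
    obtain ⟨_, h1, h2⟩ := Finset.mem_filter.1 hz
    exact Finset.mem_singleton.2 ((hT.uc _ _ _ h).2.2.2.2 z h2 h1)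


end Pool.Agent.Helper254.MS
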