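import Pool.Agent.Helper254.MS.Defs

set_option autoImplicit false

open Finset Classical

namespace Pool.Agent.Helper254.MS

variable {V : Type} [Fintype V]

theorem z_dg_eq (H : SimpleGraph V) (v : V) :
    (dg H v : ℝ) = ∑ w, if H.Adj v w then (1 : ℝ) else 0 := by
  unfold dg
  rw [Finset.card_filter]
  push_cast
  rfl

theorem z_cod_eq (H : SimpleGraph V) (x y : V) :
    (cod H x y : ℝ) = ∑ z, if H.Adj x z ∧ H.Adj y z then (1 : ℝ) else 0 := by
  unfold cod
  rw [Finset.card_filter]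
  push_cast
  rfl

theorem z_E2_eq (H : SimpleGraph V) : (E2 H : ℝ) = ∑ x, ∑ y, if H.Adj x y then (1 : ℝ) else 0 := by
  unfold E2
  rw [Finset.card_filter]
  push_cast
  rw [Fintype.sum_prod_type]

/-- `∑_y cod x y = ∑_{v ~ x} d(v)` -/
theorem z_s_eq (H : SimpleGraph V) (x : V) :
    ∑ y, (cod H x y : ℝ) = ∑ v, if H.Adj x v then (dg H v : ℝ) else 0 := by
  simp only [z_cod_eq]
  rw [Finset.sum_comm]
  refine Finset.sum_congr rfl fun z _ => ?_
  split_ifs with h
  · rw [z_dg_eq]
    refine Finset.sum_congr rfl fun y _ => ?_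
    by_cases h' : H.Adj y z
    · rw [if_pos ⟨h, h'⟩, if_pos h'.symm]
    · rw [if_neg (fun h'' => h' h''.2), if_neg (fun h'' => h' h''.symm)]
  · exact Finset.sum_eq_zero fun y _ => if_neg (fun h'' => h h''.1)

theorem z_dif_eq (H : SimpleGraph V) (x y : V) :
    (dif H x y : ℝ) = (dg H x : ℝ) - cod H x y := by
  have h : dif H x y + cod H x y = dg H x := by
    unfold dif cod dg
    have h1 := Finset.card_filter_add_card_filter_not
      (s := (univ : Finset V).filter (fun w => H.Adj x w)) (fun w => H.Adj y w)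
    rw [Finset.filter_filter, Finset.filter_filter] at h1
    omega
  have h2 : (dif H x y : ℝ) + cod H x y = dg H x := by exact_mod_cast h
  linarith

theorem z_dg_le (H : SimpleGraph V) (x : V) : (dg H x : ℝ) ≤ (Fintype.card V : ℝ) := by
  have : dg H x ≤ Fintype.card V := by
    unfold dg
    exact Finset.card_le_univ _
  exact_mod_cast this

theorem z_card_pos (x : V) : (0 : ℝ) < (Fintype.card V : ℝ) := by
  have : 0 < Fintype.card V := Fintype.card_pos_iff.2 ⟨x⟩
  exact_mod_cast this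

/-- size of `Z(x)` -/
noncomputable def zD (H : SimpleGraph V) (θ : ℝ) (x : V) : ℝ :=
  ∑ y, if θ ^ 2 * (Fintype.card V : ℝ) < (cod H x y : ℝ) then (1 : ℝ) else 0

/-- total difference over `Z(x)` -/
noncomputable def zW (H : SimpleGraph V) (θ : ℝ) (x : V) : ℝ :=
  ∑ y, if θ ^ 2 * (Fintype.card V : ℝ) < (cod H x y : ℝ) then (dif H x y : ℝ) else 0

theorem z_card_eq (H : SimpleGraph V) (θ : ℝ) :
    (((univ : Finset (V × V)).filter
        (fun p => θ ^ 2 * (Fintype.card V : ℝ) < (cod H p.1 p.2 : ℝ))).card : ℝ) =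
      ∑ x, zD H θ x := by
  rw [Finset.card_filter]
  push_cast
  rw [Fintype.sum_prod_type]
  rfl

theorem z_sum_eq (H : SimpleGraph V) (θ : ℝ) :
    ∑ p ∈ (univ : Finset (V × V)).filter
        (fun p => θ ^ 2 * (Fintype.card V : ℝ) < (cod H p.1 p.2 : ℝ)), (dif H p.1 p.2 : ℝ) =
      ∑ x, zW H θ x := by
  rw [Finset.sum_filter, Fintype.sum_prod_type]
  rfl

theorem zD_nonneg (H : SimpleGraph V) (θ : ℝ) (x : V) : 0 ≤ zD H θ x :=
  Finset.sum_nonneg fun y _ => by split_ifs <;> norm_num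

theorem zD_le (H : SimpleGraph V) (θ : ℝ) (x : V) : zD H θ x ≤ (Fintype.card V : ℝ) := by
  calc zD H θ x ≤ ∑ _y : V, (1 : ℝ) := Finset.sum_le_sum fun y _ => by split_ifs <;> norm_num
    _ = _ := by simp

theorem zW_nonneg (H : SimpleGraph V) (θ : ℝ) (x : V) : 0 ≤ zW H θ x :=
  Finset.sum_nonneg fun y _ => by split_ifs <;> positivity

theorem zW_le (H : SimpleGraph V) (θ : ℝ) (x : V) : zW H θ x ≤ zD H θ x * dg H x := by
  unfold zW zD
  rw [Finset.sum_mul]
  refine Finset.sum_le_sum fun y _ => ?_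
  split_ifs
  · rw [z_dif_eq, one_mul]
    have : (0 : ℝ) ≤ cod H x y := by positivity
    linarith
  · rw [zero_mul]

theorem zW_le2 (H : SimpleGraph V) (θ : ℝ) (x : V) :
    zW H θ x ≤ zD H θ x * dg H x - ∑ y, (cod H x y : ℝ) +
      θ ^ 2 * (Fintype.card V : ℝ) * (Fintype.card V : ℝ) := by
  have h1 : zD H θ x * dg H x - ∑ y, (cod H x y : ℝ) +
      θ ^ 2 * (Fintype.card V : ℝ) * (Fintype.card V : ℝ) =
      ∑ y : V, ((if θ ^ 2 * (Fintype.card V : ℝ) < (cod H x y : ℝ) then (1 : ℝ) else 0) *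
        dg H x - (cod H x y : ℝ) + θ ^ 2 * (Fintype.card V : ℝ)) := by
    rw [Finset.sum_add_distrib, Finset.sum_sub_distrib, ← Finset.sum_mul, Finset.sum_const,
      Finset.card_univ, nsmul_eq_mul]
    unfold zD
    ring
  rw [h1]
  unfold zW
  refine Finset.sum_le_sum fun y _ => ?_
  split_ifs with h
  · rw [z_dif_eq, one_mul]
    have : (0 : ℝ) ≤ θ ^ 2 * (Fintype.card V : ℝ) := by positivity
    linarith
  · rw [zero_mul]
    linarith

/-- the key inequality -/
theorem z_key (H : SimpleGraph V) (θ : ℝ) (hθ : 0 < θ) :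
    (E2 H : ℝ) - 2 * θ * (Fintype.card V : ℝ) ^ 2 ≤
      ∑ x, if θ * (Fintype.card V : ℝ) ≤ (dg H x : ℝ) then
        (∑ y, (cod H x y : ℝ)) / (dg H x : ℝ) else 0 := by
  set n : ℝ := (Fintype.card V : ℝ) with hn
  have hn0 : 0 ≤ n := by positivity
  set big : V → Prop := fun x => θ * n ≤ (dg H x : ℝ) with hbig
  have hpos : ∀ x, big x → (0 : ℝ) < dg H x := fun x hx =>
    lt_of_lt_of_le (mul_pos hθ (z_card_pos x)) hx
  set R : ℝ := ∑ x, ∑ v, if H.Adj x v ∧ big x ∧ big v then (dg H v : ℝ) / dg H x else 0 with hR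
  have hR' : R = ∑ x, ∑ v, if H.Adj x v ∧ big x ∧ big v then (dg H x : ℝ) / dg H v else 0 := by
    rw [hR, Finset.sum_comm]
    refine Finset.sum_congr rfl fun x _ => Finset.sum_congr rfl fun v _ => ?_
    by_cases h : H.Adj x v ∧ big x ∧ big v
    · rw [if_pos h, if_pos ⟨h.1.symm, h.2.2, h.2.1⟩]
    · rw [if_neg h, if_neg (fun h' => h ⟨h'.1.symm, h'.2.2, h'.2.1⟩)]
  set P : ℝ := ∑ x, ∑ v, if H.Adj x v ∧ big x ∧ big v then (1 : ℝ) else 0 with hP
  have hRP : P ≤ R := by
    have h1 : 2 * P ≤ R + R := by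
      nth_rewrite 2 [hR']
      rw [hR, hP, Finset.mul_sum, ← Finset.sum_add_distrib]
      refine Finset.sum_le_sum fun x _ => ?_
      rw [Finset.mul_sum, ← Finset.sum_add_distrib]
      refine Finset.sum_le_sum fun v _ => ?_
      by_cases h : H.Adj x v ∧ big x ∧ big v
      · rw [if_pos h, if_pos h, if_pos h]
        have hx := hpos x h.2.1
        have hv := hpos v h.2.2
        rw [div_add_div _ _ hx.ne' hv.ne', le_div_iff₀ (by positivity)]
        nlinarith [sq_nonneg ((dg H x : ℝ) - dg H v)]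
      · rw [if_neg h, if_neg h, if_neg h]
        norm_num
    linarith
  have hsmall : ∑ x, ∑ v, (if H.Adj x v ∧ ¬ big x then (1 : ℝ) else 0) ≤ θ * n ^ 2 := by
    calc ∑ x, ∑ v, (if H.Adj x v ∧ ¬ big x then (1 : ℝ) else 0) ≤ ∑ _x : V, θ * n := by
          refine Finset.sum_le_sum fun x _ => ?_
          by_cases hx : big x
          · rw [Finset.sum_eq_zero]
            · positivity
            · intro v _
              rw [if_neg (fun h => h.2 hx)]
          · have hx' : (dg H x : ℝ) < θ * n := not_le.1 hx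
            refine le_trans (le_of_eq ?_) hx'.le
            refine Eq.trans ?_ (z_dg_eq H x).symm
            refine Finset.sum_congr rfl fun v _ => ?_
            by_cases h : H.Adj x v
            · rw [if_pos ⟨h, hx⟩, if_pos h]
            · rw [if_neg (fun h' => h h'.1), if_neg h]
      _ = θ * n ^ 2 := by
          rw [Finset.sum_const, Finset.card_univ, nsmul_eq_mul]
          ring
  have hsmall' : ∑ x, ∑ v, (if H.Adj x v ∧ ¬ big v then (1 : ℝ) else 0) ≤ θ * n ^ 2 := by
    rw [Finset.sum_comm]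
    refine le_trans (le_of_eq ?_) hsmall
    refine Finset.sum_congr rfl fun x _ => Finset.sum_congr rfl fun v _ => ?_
    by_cases h : H.Adj x v ∧ ¬ big x
    · rw [if_pos h, if_pos ⟨h.1.symm, h.2⟩]
    · rw [if_neg h, if_neg (fun h' => h ⟨h'.1.symm, h'.2⟩)]
  have hPE : (E2 H : ℝ) - 2 * θ * n ^ 2 ≤ P := by
    have h1 : (E2 H : ℝ) ≤ P + ∑ x, ∑ v, (if H.Adj x v ∧ ¬ big x then (1 : ℝ) else 0) +
        ∑ x, ∑ v, (if H.Adj x v ∧ ¬ big v then (1 : ℝ) else 0) := by
      rw [z_E2_eq, hP, ← Finset.sum_add_distrib, ← Finset.sum_add_distrib]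
      refine Finset.sum_le_sum fun x _ => ?_
      rw [← Finset.sum_add_distrib, ← Finset.sum_add_distrib]
      refine Finset.sum_le_sum fun v _ => ?_
      by_cases h : H.Adj x v
      · by_cases hx : big x
        · by_cases hv : big v
          · simp [h, hx, hv]
          · simp [h, hx, hv]
        · by_cases hv : big v
          · simp [h, hx, hv]
          · simp [h, hx, hv]
      · simp [h]
    linarith
  have hRs : R ≤ ∑ x, if θ * n ≤ (dg H x : ℝ) then
        (∑ y, (cod H x y : ℝ)) / (dg H x : ℝ) else 0 := by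
    rw [hR]
    refine Finset.sum_le_sum fun x _ => ?_
    by_cases hx : θ * n ≤ (dg H x : ℝ)
    · rw [if_pos hx, z_s_eq, Finset.sum_div]
      refine Finset.sum_le_sum fun v _ => ?_
      by_cases h : H.Adj x v
      · rw [if_pos h]
        split_ifs
        · exact le_rfl
        · positivity
      · rw [if_neg h, if_neg (fun h' => h h'.1), zero_div]
    · rw [if_neg hx]
      refine le_of_eq (Finset.sum_eq_zero fun v _ => ?_)
      rw [if_neg (fun h' => hx h'.2.1)]
  linarith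

/-- lower bound for `D(x)` on big vertices -/
theorem z_big (H : SimpleGraph V) (θ : ℝ) (hθ : 0 < θ) (x : V)
    (hx : θ * (Fintype.card V : ℝ) ≤ (dg H x : ℝ)) :
    zW H θ x / dg H x ≤ zD H θ x - (∑ y, (cod H x y : ℝ)) / dg H x +
      θ * (Fintype.card V : ℝ) := by
  have hn := z_card_pos x
  have hd : (0 : ℝ) < dg H x := lt_of_lt_of_le (mul_pos hθ hn) hx
  rw [div_le_iff₀ hd]
  have h1 := zW_le2 H θ x
  have h2 : (zD H θ x - (∑ y, (cod H x y : ℝ)) / dg H x + θ * (Fintype.card V : ℝ)) * dg H x =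
      zD H θ x * dg H x - ∑ y, (cod H x y : ℝ) + θ * (Fintype.card V : ℝ) * dg H x := by
    field_simp
  rw [h2]
  have h3 : θ ^ 2 * (Fintype.card V : ℝ) * (Fintype.card V : ℝ) ≤
      θ * (Fintype.card V : ℝ) * dg H x := by
    calc θ ^ 2 * (Fintype.card V : ℝ) * (Fintype.card V : ℝ) =
        θ * (Fintype.card V : ℝ) * (θ * (Fintype.card V : ℝ)) := by ring
      _ ≤ _ := mul_le_mul_of_nonneg_left hx (by positivity)
  linarith

/-- many pairs have large codegree -/
theorem zcard (H : SimpleGraph V) (θ : ℝ) (hθ : 0 < θ) :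
    (E2 H : ℝ) - 3 * θ * (Fintype.card V : ℝ) ^ 2 ≤
      (((univ : Finset (V × V)).filter
        (fun p => θ ^ 2 * (Fintype.card V : ℝ) < (cod H p.1 p.2 : ℝ))).card : ℝ) := by
  rw [z_card_eq]
  have hkey := z_key H θ hθ
  have h1 : ∑ x, (if θ * (Fintype.card V : ℝ) ≤ (dg H x : ℝ) then
        (∑ y, (cod H x y : ℝ)) / (dg H x : ℝ) else 0) ≤
      ∑ x : V, (zD H θ x + θ * (Fintype.card V : ℝ)) := by
    refine Finset.sum_le_sum fun x _ => ?_
    split_ifs with hx
    · have h2 := z_big H θ hθ x hx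
      have h3 : 0 ≤ zW H θ x / dg H x := div_nonneg (zW_nonneg H θ x) (by positivity)
      linarith
    · have := zD_nonneg H θ x
      positivity
  rw [Finset.sum_add_distrib, Finset.sum_const, Finset.card_univ, nsmul_eq_mul] at h1
  nlinarith

/-- near-equality in `zcard` forces close neighbourhoods -/
theorem zsum (H : SimpleGraph V) (θ η : ℝ) (hθ : 0 < θ)
    (hZ : (((univ : Finset (V × V)).filter
        (fun p => θ ^ 2 * (Fintype.card V : ℝ) < (cod H p.1 p.2 : ℝ))).card : ℝ) ≤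
        (E2 H : ℝ) + η * (Fintype.card V : ℝ) ^ 2) :
    ∑ p ∈ (univ : Finset (V × V)).filter
        (fun p => θ ^ 2 * (Fintype.card V : ℝ) < (cod H p.1 p.2 : ℝ)), (dif H p.1 p.2 : ℝ) ≤
      (η + 4 * θ) * (Fintype.card V : ℝ) ^ 3 := by
  rw [z_sum_eq]
  rw [z_card_eq] at hZ
  have hkey := z_key H θ hθ
  set n : ℝ := (Fintype.card V : ℝ) with hn
  have hn0 : 0 ≤ n := by positivity
  have h1 : ∀ x : V, zW H θ x ≤ n * ((zD H θ x + θ * n) -
      (if θ * n ≤ (dg H x : ℝ) then (∑ y, (cod H x y : ℝ)) / (dg H x : ℝ) else 0)) +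
        θ * n ^ 2 := by
    intro x
    have hθn : 0 ≤ θ * n ^ 2 := by positivity
    have hD0 := zD_nonneg H θ x
    split_ifs with hx
    · have h2 := z_big H θ hθ x hx
      have hd : (0 : ℝ) < dg H x := lt_of_lt_of_le (mul_pos hθ (z_card_pos x)) hx
      have h3 : zW H θ x = dg H x * (zW H θ x / dg H x) := by field_simp
      have h4 : 0 ≤ zW H θ x / dg H x := div_nonneg (zW_nonneg H θ x) hd.le
      have h5 : dg H x * (zW H θ x / dg H x) ≤ n * (zW H θ x / dg H x) :=
        mul_le_mul_of_nonneg_right (z_dg_le H x) h4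
      have h6 : n * (zW H θ x / dg H x) ≤
          n * ((zD H θ x + θ * n) - (∑ y, (cod H x y : ℝ)) / (dg H x : ℝ)) :=
        mul_le_mul_of_nonneg_left (by linarith) hn0
      linarith
    · have h2 := zW_le H θ x
      have h3 : zD H θ x * dg H x ≤ n * (θ * n) :=
        mul_le_mul (zD_le H θ x) (not_le.1 hx).le (by positivity) hn0
      have h4 : 0 ≤ n * (zD H θ x + θ * n - 0) := by
        rw [sub_zero]
        positivity
      nlinarith
  have h2 := Finset.sum_le_sum fun (x : V) (_ : x ∈ univ) => h1 x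
  rw [Finset.sum_add_distrib, ← Finset.mul_sum, Finset.sum_sub_distrib, Finset.sum_add_distrib,
    Finset.sum_const, Finset.sum_const, Finset.card_univ, nsmul_eq_mul, nsmul_eq_mul, ← hn] at h2
  have h3 : n * ((∑ x, zD H θ x + n * (θ * n)) -
      ∑ x, (if θ * n ≤ (dg H x : ℝ) then (∑ y, (cod H x y : ℝ)) / (dg H x : ℝ) else 0)) ≤
      n * ((η + 3 * θ) * n ^ 2) := by
    refine mul_le_mul_of_nonneg_left ?_ hn0
    nlinarith
  nlinarith


end Pool.Agent.Helper254.MS
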