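import Pool.Agent.Helper254.MS.A3
import Pool.Agent.Helper254.MS.A4

set_option autoImplicit false

open Finset Classical

namespace Pool.Agent.Helper254.MS

variable {V : Type} [Fintype V]

theorem three_sum (H : SimpleGraph V) (T : Finset (V × V × V)) (hT : Tri H T) (θ : ℝ)
    (h1 : 1 ≤ θ ^ 2 * (Fintype.card V : ℝ)) :
    (((univ : Finset (V × V)).filter
        (fun p => θ ^ 2 * (Fintype.card V : ℝ) < (cod H p.1 p.2 : ℝ))).card : ℝ) +
    (((univ : Finset (V × V)).filter (fun p => Sat H T p.1 p.2)).card : ℝ) +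
    (((univ : Finset (V × V)).filter
        (fun p => (cod H p.1 p.2 : ℝ) ≤ θ ^ 2 * (Fintype.card V : ℝ) ∧ ¬ Sat H T p.1 p.2)).card : ℝ)
      ≤ (Fintype.card V : ℝ) ^ 2 := by
  set Z := (univ : Finset (V × V)).filter
        (fun p => θ ^ 2 * (Fintype.card V : ℝ) < (cod H p.1 p.2 : ℝ)) with hZ
  set S := (univ : Finset (V × V)).filter (fun p => Sat H T p.1 p.2) with hS
  set U := (univ : Finset (V × V)).filter
        (fun p => (cod H p.1 p.2 : ℝ) ≤ θ ^ 2 * (Fintype.card V : ℝ) ∧ ¬ Sat H T p.1 p.2) with hU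
  have hZS : Disjoint Z S := by
    rw [Finset.disjoint_left]
    intro p hp hp2
    simp only [hZ, hS, mem_filter, mem_univ, true_and] at hp hp2
    have := sat_cod H T hT _ _ hp2
    have h3 : (cod H p.1 p.2 : ℝ) ≤ 1 := by exact_mod_cast this
    linarith
  have hZSU : Disjoint (Z ∪ S) U := by
    rw [Finset.disjoint_left]
    intro p hp hp2
    simp only [hZ, hS, hU, mem_union, mem_filter, mem_univ, true_and] at hp hp2
    rcases hp with hp | hp
    · linarith [hp2.1]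
    · exact hp2.2 hp
  have h2 : Z.card + S.card + U.card ≤ Fintype.card (V × V) := by
    rw [← card_union_of_disjoint hZS, ← card_union_of_disjoint hZSU]
    exact card_le_univ _
  rw [Fintype.card_prod] at h2
  have h3 : ((Z.card + S.card + U.card : ℕ) : ℝ) ≤ ((Fintype.card V * Fintype.card V : ℕ) : ℝ) := by
    exact_mod_cast h2
  push_cast at h3
  rw [sq]; exact h3

/-- few unsaturated pairs of small codegree -/
theorem unsat (H : SimpleGraph V) (T : Finset (V × V × V)) (hT : Tri H T) (θ : ℝ) (hθ : 0 < θ)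
    (h1 : 1 ≤ θ ^ 2 * (Fintype.card V : ℝ))
    (hm : (Fintype.card V : ℝ) ^ 2 - 2 * (Fintype.card V : ℝ) ≤ 2 * (E2 H : ℝ)) :
    (((univ : Finset (V × V)).filter
        (fun p => (cod H p.1 p.2 : ℝ) ≤ θ ^ 2 * (Fintype.card V : ℝ) ∧ ¬ Sat H T p.1 p.2)).card : ℝ)
      ≤ 2 * (Fintype.card V : ℝ) + 3 * θ * (Fintype.card V : ℝ) ^ 2 + ((RR T).card : ℝ) := by
  have h2 := three_sum H T hT θ h1
  have h3 := zcard H θ hθ
  have h4 : (E2 H : ℝ) ≤ (((univ : Finset (V × V)).filter (fun p => Sat H T p.1 p.2)).card : ℝ) +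
      ((RR T).card : ℝ) := by exact_mod_cast sat_card H T hT
  linarith

theorem zle (H : SimpleGraph V) (T : Finset (V × V × V)) (hT : Tri H T) (θ : ℝ) (hθ : 0 < θ)
    (h1 : 1 ≤ θ ^ 2 * (Fintype.card V : ℝ))
    (hm : (Fintype.card V : ℝ) ^ 2 - 2 * (Fintype.card V : ℝ) ≤ 2 * (E2 H : ℝ)) :
    (((univ : Finset (V × V)).filter
        (fun p => θ ^ 2 * (Fintype.card V : ℝ) < (cod H p.1 p.2 : ℝ))).card : ℝ) ≤
        (E2 H : ℝ) + 2 * (Fintype.card V : ℝ) + ((RR T).card : ℝ) := by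
  have h2 := three_sum H T hT θ h1
  have h4 : (E2 H : ℝ) ≤ (((univ : Finset (V × V)).filter (fun p => Sat H T p.1 p.2)).card : ℝ) +
      ((RR T).card : ℝ) := by exact_mod_cast sat_card H T hT
  have h5 : (0:ℝ) ≤ (((univ : Finset (V × V)).filter
        (fun p => (cod H p.1 p.2 : ℝ) ≤ θ ^ 2 * (Fintype.card V : ℝ) ∧ ¬ Sat H T p.1 p.2)).card : ℝ) :=
    Nat.cast_nonneg _
  linarith


end Pool.Agent.Helper254.MS
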