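import Pool.Agent.Helper254.MS.A5

set_option autoImplicit false

open Finset Classical

namespace Pool.Agent.Helper254.MS

variable {V : Type} [Fintype V]

/-- good adjacent pair -/
def Gd (H : SimpleGraph V) (θ ρ : ℝ) (x y : V) : Prop :=
  H.Adj x y ∧ θ ^ 2 * (Fintype.card V : ℝ) < (cod H x y : ℝ) ∧
    (dif H x y : ℝ) ≤ ρ * (Fintype.card V : ℝ) ∧ (dif H y x : ℝ) ≤ ρ * (Fintype.card V : ℝ)

theorem cod_swap (H : SimpleGraph V) (x y : V) : cod H x y = cod H y x := by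
  unfold cod
  congr 1
  ext z
  simp only [Finset.mem_filter, Finset.mem_univ, true_and]
  exact And.comm

theorem nongood (H : SimpleGraph V) (T : Finset (V × V × V)) (hT : Tri H T) (θ ρ δ : ℝ)
    (hθ : 0 < θ) (hρ : 0 < ρ)
    (h1 : 1 ≤ θ ^ 2 * (Fintype.card V : ℝ))
    (hm : (Fintype.card V : ℝ) ^ 2 - 2 * (Fintype.card V : ℝ) ≤ 2 * (E2 H : ℝ))
    (hδ : 2 * (Fintype.card V : ℝ) + ((RR T).card : ℝ) ≤ δ * (Fintype.card V : ℝ) ^ 2) :
    (((univ : Finset (V × V)).filter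
        (fun p => H.Adj p.1 p.2 ∧ (∃ z, H.Adj p.1 z ∧ H.Adj p.2 z) ∧ ¬ Gd H θ ρ p.1 p.2)).card : ℝ)
      ≤ (δ + 3 * θ + 2 * (δ + 4 * θ) / ρ) * (Fintype.card V : ℝ) ^ 2 := by
  have hUn := unsat H T hT θ hθ h1 hm
  have hZ := zle H T hT θ hθ h1 hm
  have hS := zsum H θ δ hθ (by linarith)
  set n : ℝ := (Fintype.card V : ℝ) with hn
  have hn0 : 0 < n := by
    by_contra hc
    push Not at hc
    have : θ ^ 2 * n ≤ 0 := mul_nonpos_of_nonneg_of_nonpos (by positivity) hc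
    linarith
  set Z := (univ : Finset (V × V)).filter (fun p => θ ^ 2 * n < (cod H p.1 p.2 : ℝ)) with hZdef
  set U := (univ : Finset (V × V)).filter
    (fun p => (cod H p.1 p.2 : ℝ) ≤ θ ^ 2 * n ∧ ¬ Sat H T p.1 p.2) with hUdef
  set D1 := Z.filter (fun p => ρ * n < (dif H p.1 p.2 : ℝ)) with hD1
  set D2 := Z.filter (fun p => ρ * n < (dif H p.2 p.1 : ℝ)) with hD2
  have hsub : (univ : Finset (V × V)).filter
      (fun p => H.Adj p.1 p.2 ∧ (∃ z, H.Adj p.1 z ∧ H.Adj p.2 z) ∧ ¬ Gd H θ ρ p.1 p.2) ⊆ U ∪ D1 ∪ D2 := by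
    intro p hp
    obtain ⟨-, hadj, ⟨z, hz1, hz2⟩, hg⟩ := Finset.mem_filter.1 hp
    by_cases hc : (cod H p.1 p.2 : ℝ) ≤ θ ^ 2 * n
    · refine Finset.mem_union_left _ (Finset.mem_union_left _ (Finset.mem_filter.2 ⟨Finset.mem_univ _, hc, ?_⟩))
      rintro (⟨-, h0⟩ | ⟨v, hv⟩ | ⟨v, hv⟩)
      · have : z ∈ (univ : Finset V).filter (fun z => H.Adj p.1 z ∧ H.Adj p.2 z) :=
          Finset.mem_filter.2 ⟨Finset.mem_univ _, hz1, hz2⟩
        have h2 : (univ : Finset V).filter (fun z => H.Adj p.1 z ∧ H.Adj p.2 z) = ∅ :=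
          Finset.card_eq_zero.1 h0
        rw [h2] at this
        exact absurd this (Finset.notMem_empty z)
      · exact (hT.uc _ _ _ hv).2.1 hadj
      · exact (hT.uc _ _ _ hv).2.1 hadj.symm
    · push Not at hc
      have hpZ : p ∈ Z := Finset.mem_filter.2 ⟨Finset.mem_univ _, hc⟩
      by_cases hd : (dif H p.1 p.2 : ℝ) ≤ ρ * n
      · have hd2 : ρ * n < (dif H p.2 p.1 : ℝ) := by
          by_contra hcon
          push Not at hcon
          exact hg ⟨hadj, hc, hd, hcon⟩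
        exact Finset.mem_union_right _ (Finset.mem_filter.2 ⟨hpZ, hd2⟩)
      · push Not at hd
        exact Finset.mem_union_left _ (Finset.mem_union_right _ (Finset.mem_filter.2 ⟨hpZ, hd⟩))
  have hcard : (((univ : Finset (V × V)).filter
      (fun p => H.Adj p.1 p.2 ∧ (∃ z, H.Adj p.1 z ∧ H.Adj p.2 z) ∧ ¬ Gd H θ ρ p.1 p.2)).card : ℝ) ≤
      (U.card : ℝ) + D1.card + D2.card := by
    have h2 := Finset.card_le_card hsub
    have h3 := Finset.card_union_le (U ∪ D1) D2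
    have h4 := Finset.card_union_le U D1
    have h5 : ((univ : Finset (V × V)).filter
      (fun p => H.Adj p.1 p.2 ∧ (∃ z, H.Adj p.1 z ∧ H.Adj p.2 z) ∧ ¬ Gd H θ ρ p.1 p.2)).card ≤
        U.card + D1.card + D2.card := by omega
    exact_mod_cast h5
  have hD21 : (D2.card : ℝ) ≤ D1.card := by
    have : D2.card ≤ D1.card := by
      refine Finset.card_le_card_of_injOn Prod.swap ?_ (Prod.swap_injective.injOn)
      intro p hp
      obtain ⟨hpZ, hpd⟩ := Finset.mem_filter.1 hp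
      have hpZ' := (Finset.mem_filter.1 hpZ).2
      refine Finset.mem_filter.2 ⟨Finset.mem_filter.2 ⟨Finset.mem_univ _, ?_⟩, hpd⟩
      show θ ^ 2 * n < (cod H p.2 p.1 : ℝ)
      rw [cod_swap]
      exact hpZ'
    exact_mod_cast this
  have hM : (D1.card : ℝ) * (ρ * n) ≤ (δ + 4 * θ) * n ^ 3 := by
    calc (D1.card : ℝ) * (ρ * n) = ∑ p ∈ D1, ρ * n := by rw [Finset.sum_const, nsmul_eq_mul]
      _ ≤ ∑ p ∈ D1, (dif H p.1 p.2 : ℝ) := Finset.sum_le_sum fun p hp => (Finset.mem_filter.1 hp).2.le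
      _ ≤ ∑ p ∈ Z, (dif H p.1 p.2 : ℝ) :=
          Finset.sum_le_sum_of_subset_of_nonneg (Finset.filter_subset _ _) (fun p _ _ => by positivity)
      _ ≤ _ := hS
  have hM' : (D1.card : ℝ) ≤ (δ + 4 * θ) / ρ * n ^ 2 := by
    rw [div_mul_eq_mul_div, le_div_iff₀ hρ]
    have : ((D1.card : ℝ) * ρ) * n ≤ ((δ + 4 * θ) * n ^ 2) * n := by
      calc ((D1.card : ℝ) * ρ) * n = (D1.card : ℝ) * (ρ * n) := by ring
        _ ≤ _ := hM
        _ = _ := by ring
    exact le_of_mul_le_mul_right this hn0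
  have e : (δ + 3 * θ + 2 * (δ + 4 * θ) / ρ) * n ^ 2 =
      (δ + 3 * θ) * n ^ 2 + 2 * ((δ + 4 * θ) / ρ * n ^ 2) := by ring
  rw [e]
  linarith


end Pool.Agent.Helper254.MS
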