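import Pool.Agent.Helper254.MS.A6

set_option autoImplicit false

open Finset Classical

namespace Pool.Agent.Helper254.MS

variable {V : Type} [Fintype V]

theorem key (H : SimpleGraph V) (T : Finset (V × V × V)) (hT : Tri H T) (θ0 θ1 ρ : ℝ)
    (hρ : 1 + 2 * ρ * (Fintype.card V : ℝ) ≤ θ1 ^ 2 * (Fintype.card V : ℝ))
    (u v b w : V) (h : (u, v, b) ∈ T) (huv : Gd H θ0 ρ u v) (hvw : Gd H θ0 ρ v w) (hw : w ≠ b) :
    ((cod H w b : ℝ) ≤ θ1 ^ 2 * (Fintype.card V : ℝ) ∧ ¬ Sat H T w b) ∨ (w, v, b) ∈ T ∨ (v, w) ∈ RR T := by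
  obtain ⟨h1, h2, h3, h4, h5⟩ := hT.uc u v b h
  obtain ⟨-, -, -, h6⟩ := huv
  obtain ⟨h7, -, -, h8⟩ := hvw
  have hc : cod H w b ≤ dif H w v + dif H v u + 1 := by
    unfold cod dif
    have hsub : (univ : Finset V).filter (fun z => H.Adj w z ∧ H.Adj b z) ⊆
        ((univ : Finset V).filter (fun z => H.Adj w z ∧ ¬ H.Adj v z) ∪
          (univ : Finset V).filter (fun z => H.Adj v z ∧ ¬ H.Adj u z)) ∪ {v} := by
      intro z hz
      rw [mem_filter] at hz
      obtain ⟨-, hz1, hz2⟩ := hz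
      rw [mem_union, mem_union, mem_filter, mem_filter, mem_singleton]
      by_cases c1 : H.Adj v z
      · by_cases c2 : H.Adj u z
        · exact Or.inr (h5 z c2 hz2)
        · exact Or.inl (Or.inr ⟨mem_univ _, c1, c2⟩)
      · exact Or.inl (Or.inl ⟨mem_univ _, hz1, c1⟩)
    refine (card_le_card hsub).trans ?_
    refine (card_union_le _ _).trans ?_
    rw [card_singleton]
    exact Nat.add_le_add_right (card_union_le _ _) 1
  have hc' : (cod H w b : ℝ) ≤ θ1 ^ 2 * (Fintype.card V : ℝ) := by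
    have hc2 : (cod H w b : ℝ) ≤ (dif H w v : ℝ) + (dif H v u : ℝ) + 1 := by exact_mod_cast hc
    linarith
  by_cases hS : Sat H T w b
  · rcases hS with ⟨-, h0⟩ | ⟨v', hv'⟩ | ⟨v', hv'⟩
    · exfalso
      unfold cod at h0
      rw [card_eq_zero, filter_eq_empty_iff] at h0
      exact h0 (mem_univ v) ⟨h7.symm, h4.symm⟩
    · obtain ⟨-, -, -, -, h9⟩ := hT.uc _ _ _ hv'
      have h10 := h9 v h7.symm h4.symm
      rw [← h10] at hv'
      exact Or.inr (Or.inl hv')
    · obtain ⟨-, -, -, -, h9⟩ := hT.uc _ _ _ hv'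
      have h10 := h9 v h4.symm h7.symm
      rw [← h10] at hv'
      refine Or.inr (Or.inr ?_)
      unfold RR
      rw [mem_image]
      exact ⟨_, hv', rfl⟩
  · exact Or.inl ⟨hc', hS⟩


end Pool.Agent.Helper254.MS
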