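import Pool.Agent.Helper254.MS.Defs

set_option autoImplicit false

open Finset Classical

namespace Pool.Agent.Helper254.MS

variable {V : Type} [Fintype V]

theorem mantel_stab (H : SimpleGraph V) (T1 : Finset V) (ε : ℝ)
    (hm : (Fintype.card V : ℝ) ^ 2 - 2 * (Fintype.card V : ℝ) ≤ 2 * (E2 H : ℝ))
    (hD : (((univ : Finset (V × V)).filter
        (fun p => H.Adj p.1 p.2 ∧ (∃ z, H.Adj p.1 z ∧ H.Adj p.2 z) ∧ same T1 p.1 p.2)).card : ℝ)
      ≤ ε * (Fintype.card V : ℝ) ^ 2) :
    ∃ A : Finset V, (In2 H A : ℝ) ≤ (Fintype.card V : ℝ) + 2 * ε * (Fintype.card V : ℝ) ^ 2 := by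
  classical
  rcases isEmpty_or_nonempty V with hV | hV
  · refine ⟨∅, ?_⟩
    have h0 : Fintype.card V = 0 := Fintype.card_eq_zero
    have h1 : In2 H ∅ = 0 := by simp [In2]
    rw [h1, h0]
    simp
  let N : V → V → Prop := fun x y =>
    H.Adj x y ∧ ¬ ((∃ z, H.Adj x z ∧ H.Adj y z) ∧ same T1 x y)
  have hNs : ∀ x y, N x y → N y x := by
    rintro x y ⟨h1, h2⟩
    refine ⟨h1.symm, ?_⟩
    rintro ⟨⟨z, hz1, hz2⟩, h3⟩
    exact h2 ⟨⟨z, hz2, hz1⟩, h3.symm⟩
  have htri : ∀ x y z, N x y → N x z → N y z → False := by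
    rintro x y z ⟨hxy, h1⟩ ⟨hxz, h2⟩ ⟨hyz, h3⟩
    have k1 : ¬ same T1 x y := fun h => h1 ⟨⟨z, hxz, hyz⟩, h⟩
    have k2 : ¬ same T1 x z := fun h => h2 ⟨⟨y, hxy, hyz.symm⟩, h⟩
    have k3 : ¬ same T1 y z := fun h => h3 ⟨⟨x, hxy.symm, hxz.symm⟩, h⟩
    simp only [same] at k1 k2 k3
    tauto
  let f : V → V → ℝ := fun v w => if N v w then 1 else 0
  let r : V → V → ℝ := fun v w =>
    if H.Adj v w ∧ (∃ z, H.Adj v z ∧ H.Adj w z) ∧ same T1 v w then 1 else 0
  have hf0 : ∀ v w, 0 ≤ f v w := by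
    intro v w
    simp only [f]
    split_ifs <;> norm_num
  have hr0 : ∀ v w, 0 ≤ r v w := by
    intro v w
    simp only [r]
    split_ifs <;> norm_num
  have hfs : ∀ v w, f v w = f w v := by
    intro v w
    simp only [f]
    by_cases h : N v w
    · rw [if_pos h, if_pos (hNs _ _ h)]
    · rw [if_neg h, if_neg fun h' => h (hNs _ _ h')]
  have hfr : ∀ v w, (if H.Adj v w then (1 : ℝ) else 0) = f v w + r v w := by
    intro v w
    simp only [f, r, N]
    by_cases h1 : H.Adj v w
    · by_cases h2 : (∃ z, H.Adj v z ∧ H.Adj w z) ∧ same T1 v w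
      · rw [if_pos h1, if_neg (fun h => h.2 h2), if_pos ⟨h1, h2⟩]
        norm_num
      · rw [if_pos h1, if_pos ⟨h1, h2⟩, if_neg (fun h => h2 h.2)]
        norm_num
    · rw [if_neg h1, if_neg (fun h => h1 h.1), if_neg (fun h => h1 h.1)]
      norm_num
  have hR : ∑ v, ∑ w, r v w ≤ ε * (Fintype.card V : ℝ) ^ 2 := by
    refine le_trans (le_of_eq ?_) hD
    rw [card_filter]
    push_cast
    rw [Fintype.sum_prod_type]
  have hE : (E2 H : ℝ) = ∑ v, ∑ w, (f v w + r v w) := by
    rw [E2, card_filter]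
    push_cast
    rw [Fintype.sum_prod_type]
    exact sum_congr rfl fun v _ => sum_congr rfl fun w _ => hfr v w
  obtain ⟨x0, _, hx0⟩ := exists_max_image (univ : Finset V) (fun v => ∑ w, f v w) univ_nonempty
  let B : Finset V := univ.filter fun w => N x0 w
  let A : Finset V := Bᶜ
  refine ⟨A, ?_⟩
  let b : V → ℝ := fun v => if N x0 v then 1 else 0
  let a : V → ℝ := fun v => if N x0 v then 0 else 1
  have hab : ∀ v, a v + b v = 1 := by
    intro v
    simp only [a, b]
    split_ifs <;> norm_num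
  have ha0 : ∀ v, 0 ≤ a v := by
    intro v
    simp only [a]
    split_ifs <;> norm_num
  have hb0 : ∀ v, 0 ≤ b v := by
    intro v
    simp only [b]
    split_ifs <;> norm_num
  have hBB : ∀ v w, b v * b w * f v w = 0 := by
    intro v w
    simp only [b, f]
    by_cases h1 : N x0 v <;> by_cases h2 : N x0 w <;> by_cases h3 : N v w <;> simp [h1, h2, h3]
    exact htri _ _ _ h1 h2 h3
  have hmemA : ∀ v, v ∈ A ↔ ¬ N x0 v := by
    intro v
    simp [A, B]
  have hIn : (In2 H A : ℝ) = ∑ v, ∑ w, (a v * a w + b v * b w) * (f v w + r v w) := by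
    rw [In2]
    push_cast
    apply sum_congr rfl
    intro v _
    rw [inn, card_filter]
    push_cast
    apply sum_congr rfl
    intro w _
    rw [← hfr]
    simp only [same, hmemA, a, b]
    by_cases h1 : N x0 v <;> by_cases h2 : N x0 w <;> by_cases h3 : H.Adj v w <;>
      simp [h1, h2, h3]
  have hAB : ∑ v, ∑ w, b v * a w * f v w = ∑ v, ∑ w, a v * b w * f v w := by
    rw [sum_comm]
    apply sum_congr rfl
    intro v _
    apply sum_congr rfl
    intro w _
    rw [hfs w v]
    ring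
  have hEf : ∑ v, ∑ w, f v w = ∑ v, ∑ w, a v * a w * f v w + ∑ v, ∑ w, a v * b w * f v w +
      ∑ v, ∑ w, b v * a w * f v w := by
    rw [← sum_add_distrib, ← sum_add_distrib]
    apply sum_congr rfl
    intro v _
    rw [← sum_add_distrib, ← sum_add_distrib]
    apply sum_congr rfl
    intro w _
    have e := hBB v w
    have e1 : b v = 1 - a v := by linarith [hab v]
    have e2 : b w = 1 - a w := by linarith [hab w]
    rw [e1, e2] at e
    rw [e1, e2]
    linarith
  have hsum : ∑ v, ∑ w, a v * a w * f v w + ∑ v, ∑ w, a v * b w * f v w =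
      ∑ v, a v * ∑ w, f v w := by
    rw [← sum_add_distrib]
    apply sum_congr rfl
    intro v _
    rw [← sum_add_distrib, mul_sum]
    apply sum_congr rfl
    intro w _
    have e2 : b w = 1 - a w := by linarith [hab w]
    rw [e2]
    ring
  have hdeg : ∑ v, a v * ∑ w, f v w ≤ (∑ v, a v) * ∑ w, b w := by
    rw [sum_mul]
    apply sum_le_sum
    intro v _
    exact mul_le_mul_of_nonneg_left (hx0 v (mem_univ v)) (ha0 v)
  have hcard : ∑ v, a v + ∑ w, b w = (Fintype.card V : ℝ) := by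
    rw [← sum_add_distrib, sum_congr rfl fun v _ => hab v]
    simp
  have hAM : (∑ v, a v) * ∑ w, b w ≤ (Fintype.card V : ℝ) ^ 2 / 4 := by
    rw [← hcard]
    nlinarith [sq_nonneg (∑ v, a v - ∑ w, b w)]
  have hIn2 : (In2 H A : ℝ) ≤ ∑ v, ∑ w, a v * a w * f v w + ∑ v, ∑ w, r v w := by
    rw [hIn, ← sum_add_distrib]
    apply sum_le_sum
    intro v _
    rw [← sum_add_distrib]
    apply sum_le_sum
    intro w _
    have e := hBB v w
    have e3 : a v * a w + b v * b w ≤ 1 := by
      have e1 : b v = 1 - a v := by linarith [hab v]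
      have e2 : b w = 1 - a w := by linarith [hab w]
      have h1 := hb0 v
      have h2 := hb0 w
      have h3 := ha0 v
      have h4 := ha0 w
      rw [e1] at h1
      rw [e2] at h2
      rw [e1, e2]
      nlinarith [mul_nonneg h3 h2, mul_nonneg h1 h4]
    have e4 := mul_le_mul_of_nonneg_right e3 (hr0 v w)
    nlinarith
  have hE3 : (E2 H : ℝ) = ∑ v, ∑ w, f v w + ∑ v, ∑ w, r v w := by
    rw [hE, ← sum_add_distrib]
    apply sum_congr rfl
    intro v _
    rw [sum_add_distrib]
  linarith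


end Pool.Agent.Helper254.MS
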