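import Pool.Agent.Helper254.MS.Defs

set_option autoImplicit false

open Finset Classical

namespace Pool.Agent.Helper254.MS

variable {V : Type} [Fintype V]

structure Good (H : SimpleGraph V) (A : Finset V) : Prop where
  crit : Crit H
  big : (10 : ℝ) ^ 20 ≤ (Fintype.card V : ℝ)
  dense : (Fintype.card V : ℝ) ^ 2 - 2 * (Fintype.card V : ℝ) ≤ 2 * (E2 H : ℝ)
  near : (In2 H A : ℝ) ≤ (Fintype.card V : ℝ) ^ 2 / 10 ^ 14
  cut : ∀ v, inn H A v ≤ crs H A v

/-- typical vertex -/
def typ (H : SimpleGraph V) (A : Finset V) (v : V) : Prop :=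
  (mis H A v : ℝ) ≤ (Fintype.card V : ℝ) / 100

/-- poor vertex: misses almost all of the opposite side -/
def poor (H : SimpleGraph V) (A : Finset V) (v : V) : Prop :=
  (opp A v : ℝ) - (Fintype.card V : ℝ) / 100 - 1 ≤ (mis H A v : ℝ)

def Cs (H : SimpleGraph V) (A : Finset V) (p c : V) : Prop :=
  typ H A p ∧ p ≠ c ∧ ¬ H.Adj p c ∧ (¬ same A p c ∨ poor H A c)


def Concl (H : SimpleGraph V) : Prop :=
  E2 H ≤ 2 * ((Fintype.card V - 1) ^ 2 / 4 + 1) ∧
  (E2 H = 2 * ((Fintype.card V - 1) ^ 2 / 4 + 1) →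
    ∃ f : V → Fin 5, (∀ x y : V, H.Adj x y ↔ (f y = f x + 2 ∨ f x = f y + 2)) ∧
      ((univ : Finset V).filter (fun x => f x = 0)).card = 1 ∧
      ((univ : Finset V).filter (fun x => f x = 2)).card = 1 ∧
      (((univ : Finset V).filter (fun x => f x = 1)).card = (Fintype.card V - 3) / 2 ∨
        ((univ : Finset V).filter (fun x => f x = 1)).card = (Fintype.card V - 2) / 2) ∧
      1 ≤ ((univ : Finset V).filter (fun x => f x = 3)).card ∧
      1 ≤ ((univ : Finset V).filter (fun x => f x = 4)).card)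


end Pool.Agent.Helper254.MS
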