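import Pool.Agent.Helper254.MS.B0

set_option autoImplicit false

open Finset Classical

namespace Pool.Agent.Helper254.MS

variable {V : Type} [Fintype V]

theorem same_comm_aux (A : Finset V) (v w : V) : same A v w ↔ same A w v := by
  unfold same; exact Iff.comm

theorem opp_eq (H : SimpleGraph V) (A : Finset V) (v : V) : opp A v = mis H A v + crs H A v := by
  unfold opp mis crs
  rw [Finset.card_filter, Finset.card_filter, Finset.card_filter, ← Finset.sum_add_distrib]
  refine Finset.sum_congr rfl fun w _ => ?_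
  by_cases h1 : same A v w <;> by_cases h2 : H.Adj v w <;> simp [h1, h2]

theorem dg_eq_aux (H : SimpleGraph V) (A : Finset V) (v : V) :
    dg H v = inn H A v + crs H A v := by
  unfold dg inn crs
  rw [Finset.card_filter, Finset.card_filter, Finset.card_filter, ← Finset.sum_add_distrib]
  refine Finset.sum_congr rfl fun w _ => ?_
  by_cases h1 : same A v w <;> by_cases h2 : H.Adj v w <;> simp [h1, h2]

theorem E2_eq_aux (H : SimpleGraph V) : E2 H = ∑ v, dg H v := by
  unfold E2 dg
  rw [Finset.card_filter, Fintype.sum_prod_type]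
  refine Finset.sum_congr rfl fun v _ => ?_
  rw [Finset.card_filter]

theorem opp_card (A : Finset V) (v : V) :
    (v ∈ A → (opp A v : ℝ) = (Fintype.card V : ℝ) - (A.card : ℝ)) ∧
    (v ∉ A → (opp A v : ℝ) = (A.card : ℝ)) := by
  constructor
  · intro hv
    have h1 : (univ : Finset V).filter (fun w => ¬ same A v w) = Aᶜ := by
      ext w
      simp [same, hv]
    unfold opp
    rw [h1, Finset.card_compl, Nat.cast_sub (Finset.card_le_univ A)]
  · intro hv
    have h1 : (univ : Finset V).filter (fun w => ¬ same A v w) = A := by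
      ext w
      simp [same, hv]
    unfold opp
    rw [h1]

theorem opp_same (A : Finset V) (v w : V) (h : same A v w) : opp A v = opp A w := by
  unfold opp
  congr 1
  ext x
  simp only [mem_filter, mem_univ, true_and]
  unfold same at *
  rw [h]

theorem edge_count (H : SimpleGraph V) (A : Finset V) :
    (E2 H : ℝ) + (Miss2 H A : ℝ) =
      2 * (A.card : ℝ) * ((Fintype.card V : ℝ) - (A.card : ℝ)) + (In2 H A : ℝ) := by
  have h1 : E2 H + Miss2 H A = (∑ v, opp A v) + In2 H A := by
    rw [E2_eq_aux]
    unfold Miss2 In2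
    rw [← Finset.sum_add_distrib, ← Finset.sum_add_distrib]
    refine Finset.sum_congr rfl fun v _ => ?_
    rw [dg_eq_aux H A v, opp_eq H A v]
    ring
  have h2 : ((∑ v, opp A v : ℕ) : ℝ)
      = 2 * (A.card : ℝ) * ((Fintype.card V : ℝ) - (A.card : ℝ)) := by
    push_cast
    rw [← Finset.sum_add_sum_compl A]
    have e1 : ∑ v ∈ A, (opp A v : ℝ) = ∑ v ∈ A, ((Fintype.card V : ℝ) - (A.card : ℝ)) :=
      Finset.sum_congr rfl fun v hv => (opp_card A v).1 hv
    have e2 : ∑ v ∈ Aᶜ, (opp A v : ℝ) = ∑ v ∈ Aᶜ, (A.card : ℝ) :=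
      Finset.sum_congr rfl fun v hv => (opp_card A v).2 (Finset.mem_compl.1 hv)
    rw [e1, e2, Finset.sum_const, Finset.sum_const, Finset.card_compl, nsmul_eq_mul,
      nsmul_eq_mul, Nat.cast_sub (Finset.card_le_univ A)]
    ring
  have h3 : (E2 H : ℝ) + (Miss2 H A : ℝ) = ((∑ v, opp A v : ℕ) : ℝ) + (In2 H A : ℝ) := by
    exact_mod_cast h1
  rw [h3, h2]

theorem miss2_card (H : SimpleGraph V) (A : Finset V) :
    Miss2 H A = ((univ : Finset (V × V)).filter
      (fun p => ¬ same A p.1 p.2 ∧ ¬ H.Adj p.1 p.2)).card := by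
  unfold Miss2 mis
  rw [Finset.card_filter, Fintype.sum_prod_type]
  refine Finset.sum_congr rfl fun v _ => ?_
  rw [Finset.card_filter]

theorem in2_card (H : SimpleGraph V) (A : Finset V) :
    In2 H A = ((univ : Finset (V × V)).filter
      (fun p => same A p.1 p.2 ∧ H.Adj p.1 p.2)).card := by
  unfold In2 inn
  rw [Finset.card_filter, Fintype.sum_prod_type]
  refine Finset.sum_congr rfl fun v _ => ?_
  rw [Finset.card_filter]

theorem miss2_pair (H : SimpleGraph V) (A : Finset V) (p q : V) (h : p ≠ q) :
    2 * (mis H A p + mis H A q) ≤ Miss2 H A + 2 := by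
  set f : V → V → ℕ := fun v w => if ¬ same A v w ∧ ¬ H.Adj v w then 1 else 0 with hf
  have hsymm : ∀ v w, f v w = f w v := by
    intro v w
    rw [hf]
    simp only
    rw [same_comm_aux A v w, H.adj_comm v w]
  have hdiag : ∀ v, f v v = 0 := by
    intro v
    rw [hf]
    simp [same]
  have hle : ∀ v w, f v w ≤ 1 := by
    intro v w
    rw [hf]
    simp only
    split_ifs <;> simp
  have hmis : ∀ v, mis H A v = ∑ w, f v w := by
    intro v
    unfold mis
    rw [Finset.card_filter]
  have hmis' : ∀ v, mis H A v = ∑ w, f w v := by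
    intro v
    rw [hmis]
    exact Finset.sum_congr rfl fun w _ => hsymm v w
  have hpt : ∀ v ∈ (univ : Finset V), f v p + f v q + (if v = p then mis H A p else 0)
      + (if v = q then mis H A q else 0)
      ≤ mis H A v + (if v = p then 1 else 0) + (if v = q then 1 else 0) := by
    intro v _
    by_cases h1 : v = p
    · have h2 : v ≠ q := by rw [h1]; exact h
      rw [if_pos h1, if_neg h2, if_pos h1, if_neg h2, h1, hdiag]
      have := hle p q
      omega
    · by_cases h2 : v = q
      · rw [if_neg h1, if_pos h2, if_neg h1, if_pos h2, h2, hdiag]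
        have := hle q p
        omega
      · rw [if_neg h1, if_neg h2, if_neg h1, if_neg h2]
        have e1 : ∑ w ∈ ({p, q} : Finset V), f v w ≤ ∑ w, f v w :=
          Finset.sum_le_sum_of_subset (Finset.subset_univ _)
        rw [Finset.sum_pair h, ← hmis] at e1
        omega
  have hsum := Finset.sum_le_sum hpt
  simp only [Finset.sum_add_distrib, Finset.sum_ite_eq', Finset.mem_univ, if_true] at hsum
  rw [← hmis' p, ← hmis' q] at hsum
  have hM : Miss2 H A = ∑ v, mis H A v := rfl
  rw [hM]
  omega


end Pool.Agent.Helper254.MS
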