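import Pool.Agent.Helper254.MS.B9

set_option autoImplicit false

open Finset Classical

namespace Pool.Agent.Helper254.MS

variable {V : Type} [Fintype V]

theorem bounds_aux (n a E M I : ℝ) (hn : (10 : ℝ) ^ 20 ≤ n) (hd : n ^ 2 - 2 * n ≤ 2 * E)
    (he : E + M = 2 * a * (n - a) + I) (hI : I ≤ M / 10 ^ 4) (hM : 0 ≤ M) :
    M ≤ (1 + 2 / 10 ^ 4) * n ∧ I ≤ (11 / 10 ^ 5) * n ∧
      (1 / 2 - 1 / 10 ^ 5) * n ≤ a ∧ a ≤ (1 / 2 + 1 / 10 ^ 5) * n := by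
  have hn0 : 0 < n := lt_of_lt_of_le (by norm_num) hn
  have h1 : M - I ≤ n := by nlinarith [sq_nonneg (n - 2 * a)]
  have h2 : M ≤ (1 + 2 / 10 ^ 4) * n := by
    norm_num at hI ⊢
    linarith
  have h3 : I ≤ (11 / 10 ^ 5) * n := by
    norm_num at hI h2 ⊢
    linarith
  have h4 : (n - 2 * a) ^ 2 ≤ 2 * n := by
    have : I ≤ M := by
      norm_num at hI
      linarith
    nlinarith
  have h5 : 2 * n ≤ (2 / 10 ^ 5 * n) ^ 2 := by
    have : (10 : ℝ) ^ 20 * n ≤ n * n := mul_le_mul_of_nonneg_right hn hn0.le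
    norm_num at this ⊢
    nlinarith
  have h6 : |n - 2 * a| ≤ 2 / 10 ^ 5 * n := by
    apply abs_le_of_sq_le_sq (h4.trans h5)
    positivity
  rw [abs_le] at h6
  obtain ⟨h7, h8⟩ := h6
  refine ⟨h2, h3, ?_, ?_⟩
  · norm_num at h7 h8 ⊢
    linarith
  · norm_num at h7 h8 ⊢
    linarith

theorem bounds (H : SimpleGraph V) (A : Finset V) (G : Good H A) :
    (Miss2 H A : ℝ) ≤ (1 + 2 / 10 ^ 4) * (Fintype.card V : ℝ) ∧
    (In2 H A : ℝ) ≤ (11 / 10 ^ 5) * (Fintype.card V : ℝ) ∧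
    ∀ v, (1 / 2 - 1 / 10 ^ 5) * (Fintype.card V : ℝ) ≤ (opp A v : ℝ) ∧
      (opp A v : ℝ) ≤ (1 / 2 + 1 / 10 ^ 5) * (Fintype.card V : ℝ) := by
  have hE := edge_count H A
  obtain ⟨h1, h2, h3, h4⟩ := bounds_aux (Fintype.card V : ℝ) (A.card : ℝ) (E2 H) (Miss2 H A)
    (In2 H A) G.big G.dense hE (claim2 H A G) (Nat.cast_nonneg _)
  refine ⟨h1, h2, fun v => ?_⟩
  obtain ⟨h5, h6⟩ := opp_card A v
  by_cases hv : v ∈ A
  · rw [h5 hv]
    constructor <;> linarith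
  · rw [h6 hv]
    exact ⟨h3, h4⟩


end Pool.Agent.Helper254.MS
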