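import Pool.Agent.Helper254.MS.B10

set_option autoImplicit false

open Finset Classical

namespace Pool.Agent.Helper254.MS

variable {V : Type} [Fintype V]

/-- indicator of a missing pair -/
noncomputable def mi (H : SimpleGraph V) (A : Finset V) (x w : V) : ℕ :=
  if (¬ same A x w ∧ ¬ H.Adj x w) then 1 else 0

theorem mi_symm (H : SimpleGraph V) (A : Finset V) (x w : V) : mi H A x w = mi H A w x := by
  unfold mi
  have h1 : same A x w ↔ same A w x := by unfold same; exact Iff.comm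
  have h2 : H.Adj x w ↔ H.Adj w x := H.adj_comm x w
  simp only [h1, h2]

theorem mis_eq_sum (H : SimpleGraph V) (A : Finset V) (x : V) : mis H A x = ∑ w, mi H A x w := by
  unfold mis mi
  rw [Finset.card_filter]

theorem mi_le (H : SimpleGraph V) (A : Finset V) (x w : V) : mi H A x w ≤ 1 := by
  unfold mi; split <;> simp

theorem miss2_set (H : SimpleGraph V) (A : Finset V) (P : Finset V) :
    2 * ∑ x ∈ P, mis H A x ≤ Miss2 H A + ∑ x ∈ P, ∑ w ∈ P, mi H A x w := by
  have h1 : Miss2 H A = ∑ x ∈ P, mis H A x + ∑ x ∈ Pᶜ, mis H A x := by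
    unfold Miss2
    exact (Finset.sum_add_sum_compl P _).symm
  have h2 : ∑ x ∈ Pᶜ, ∑ w ∈ P, mi H A x w ≤ ∑ x ∈ Pᶜ, mis H A x := by
    apply Finset.sum_le_sum
    intro x _
    rw [mis_eq_sum]
    exact Finset.sum_le_sum_of_subset (Finset.subset_univ _)
  have h3 : ∑ x ∈ P, mis H A x = ∑ x ∈ P, ∑ w ∈ P, mi H A x w + ∑ x ∈ Pᶜ, ∑ w ∈ P, mi H A x w := by
    rw [Finset.sum_comm (s := Pᶜ), ← Finset.sum_add_distrib]
    apply Finset.sum_congr rfl
    intro x _
    rw [mis_eq_sum, ← Finset.sum_add_sum_compl P]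
    congr 1
    apply Finset.sum_congr rfl
    intro w _
    exact mi_symm H A x w
  omega

theorem miss2_triple (H : SimpleGraph V) (A : Finset V) (p q v : V) (hpq : p ≠ q)
    (hs : same A p q) (hp : v ≠ p) (hq : v ≠ q) :
    2 * (mis H A p + mis H A q + mis H A v) ≤ Miss2 H A + 4 := by
  have h := miss2_set H A {p, q, v}
  have hself : ∀ x, mi H A x x = 0 := by
    intro x; unfold mi; rw [if_neg]; rintro ⟨h1, _⟩; exact h1 Iff.rfl
  have hpq0 : mi H A p q = 0 := by
    unfold mi; rw [if_neg]; rintro ⟨h1, _⟩; exact h1 hs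
  have hqp0 : mi H A q p = 0 := by rw [mi_symm]; exact hpq0
  have e1 : ∀ f : V → ℕ, ∑ x ∈ ({p, q, v} : Finset V), f x = f p + (f q + f v) := by
    intro f
    rw [Finset.sum_insert, Finset.sum_insert, Finset.sum_singleton]
    · simpa using hq.symm
    · simp only [Finset.mem_insert, Finset.mem_singleton, not_or]
      exact ⟨hpq, hp.symm⟩
  simp only [e1] at h
  rw [hself, hself, hself, hpq0, hqp0] at h
  have a1 := mi_le H A p v
  have a2 := mi_le H A q v
  have a3 := mi_le H A v p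
  have a4 := mi_le H A v q
  omega

theorem poor_unique (H : SimpleGraph V) (A : Finset V) (G : Good H A) (c c' : V)
    (h : poor H A c) (h' : poor H A c') : c = c' := by
  by_contra hne
  have h1 := miss2_pair H A c c' hne
  have h1' : 2 * ((mis H A c : ℝ) + (mis H A c' : ℝ)) ≤ (Miss2 H A : ℝ) + 2 := by exact_mod_cast h1
  obtain ⟨b1, b2, b3⟩ := bounds H A G
  have b4 := (b3 c).1
  have b5 := (b3 c').1
  have b6 : (1000000 : ℝ) ≤ (Fintype.card V : ℝ) := le_trans (by norm_num) G.big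
  unfold poor at h h'
  linarith

theorem others (H : SimpleGraph V) (A : Finset V) (G : Good H A) (p q : V) (hpq : p ≠ q)
    (hs : same A p q)
    (h : (opp A p : ℝ) - (4 / 10 ^ 4) * (Fintype.card V : ℝ) ≤ (mis H A p : ℝ) + (mis H A q : ℝ))
    (v : V) (hp : v ≠ p) (hq : v ≠ q) :
    (mis H A v : ℝ) ≤ (7 / 10 ^ 4) * (Fintype.card V : ℝ) := by
  have h1 := miss2_triple H A p q v hpq hs hp hq
  have h1' : 2 * ((mis H A p : ℝ) + (mis H A q : ℝ) + (mis H A v : ℝ)) ≤ (Miss2 H A : ℝ) + 4 := by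
    exact_mod_cast h1
  obtain ⟨b1, b2, b3⟩ := bounds H A G
  have b4 := (b3 p).1
  have b6 : (1000000 : ℝ) ≤ (Fintype.card V : ℝ) := le_trans (by norm_num) G.big
  linarith


end Pool.Agent.Helper254.MS
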