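import Pool.Agent.Helper254.MS.B11

set_option autoImplicit false

open Finset Classical

namespace Pool.Agent.Helper254.MS

variable {V : Type} [Fintype V]

theorem big_8356 (H : SimpleGraph V) (A : Finset V) (G : Good H A) :
    (1000000 : ℝ) ≤ (Fintype.card V : ℝ) := by
  have h := G.big
  have h2 : (1000000:ℝ) ≤ 10 ^ 20 := by norm_num
  exact h2.trans h

noncomputable def KK_8356 (H : SimpleGraph V) (A : Finset V) (x y : V) : Finset V :=
  (univ : Finset V).filter (fun b => typ H A b ∧ ¬ same A x b ∧ H.Adj x b ∧ H.Adj y b)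

theorem two_sum_mis_8356 (H : SimpleGraph V) (A : Finset V) (x : V) :
    2 * ∑ v ∈ (univ : Finset V).filter (fun v => ¬ same A x v), mis H A v ≤ Miss2 H A := by
  unfold Miss2
  rw [← Finset.sum_filter_add_sum_filter_not univ (fun v => ¬ same A x v)]
  have h : ∑ v ∈ (univ : Finset V).filter (fun v => ¬ same A x v), mis H A v =
      ∑ v ∈ (univ : Finset V).filter (fun v => ¬ ¬ same A x v), mis H A v := by
    rw [Finset.sum_filter, Finset.sum_filter]
    have e1 : ∀ v, (if ¬ same A x v then mis H A v else 0) =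
        ∑ w, (if (¬ same A x v ∧ ¬ same A v w ∧ ¬ H.Adj v w) then 1 else 0) := by
      intro v
      unfold mis
      rw [Finset.card_filter]
      by_cases hv : same A x v
      · simp [hv]
      · simp [hv]
    have e2 : ∀ v, (if ¬ ¬ same A x v then mis H A v else 0) =
        ∑ w, (if (same A x v ∧ ¬ same A v w ∧ ¬ H.Adj v w) then 1 else 0) := by
      intro v
      unfold mis
      rw [Finset.card_filter]
      by_cases hv : same A x v
      · simp [hv]
      · simp [hv]
    rw [Finset.sum_congr rfl (fun v _ => e1 v), Finset.sum_congr rfl (fun v _ => e2 v), Finset.sum_comm]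
    apply Finset.sum_congr rfl
    intro v _
    apply Finset.sum_congr rfl
    intro w _
    have hiff : (¬ same A x w ∧ ¬ same A w v ∧ ¬ H.Adj w v) ↔ (same A x v ∧ ¬ same A v w ∧ ¬ H.Adj v w) := by
      rw [H.adj_comm w v]
      unfold same
      tauto
    simp only [hiff]
  omega

theorem KK_card_8356 (H : SimpleGraph V) (A : Finset V) (G : Good H A) (x y : V)
    (hx : typ H A x) (hy : typ H A y) (hs : same A x y) :
    (46 / 100 : ℝ) * (Fintype.card V : ℝ) ≤ ((KK_8356 H A x y).card : ℝ) := by
  have h1 := common_opp H A x y hs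
  obtain ⟨hM, _, hopp⟩ := bounds H A G
  have h2 := (hopp x).1
  have h3 := atyp_count H A G
  have hbig := G.big
  have hn : (0:ℝ) < (Fintype.card V : ℝ) := by linarith [show (0:ℝ) < 10^20 by positivity]
  have hat : ((((univ : Finset V).filter (fun v => ¬ typ H A v)).card : ℝ)) ≤ 101 := by
    have h4 : (1 / 100 : ℝ) * (Fintype.card V : ℝ) * (((univ : Finset V).filter (fun v => ¬ typ H A v)).card : ℝ)
        ≤ (1 / 100 : ℝ) * (Fintype.card V : ℝ) * 101 := by
      calc _ ≤ (Miss2 H A : ℝ) := h3
        _ ≤ (1 + 2 / 10 ^ 4) * (Fintype.card V : ℝ) := hM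
        _ ≤ (1 / 100 : ℝ) * (Fintype.card V : ℝ) * 101 := by nlinarith
    exact le_of_mul_le_mul_left h4 (by positivity)
  have hsub : (univ : Finset V).filter (fun b => ¬ same A x b ∧ H.Adj x b ∧ H.Adj y b) ⊆
      KK_8356 H A x y ∪ (univ : Finset V).filter (fun v => ¬ typ H A v) := by
    intro b hb
    rw [Finset.mem_filter] at hb
    rw [Finset.mem_union]
    by_cases ht : typ H A b
    · left; exact Finset.mem_filter.mpr ⟨Finset.mem_univ _, ht, hb.2⟩
    · right; exact Finset.mem_filter.mpr ⟨Finset.mem_univ _, ht⟩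
  have hc : (((univ : Finset V).filter (fun b => ¬ same A x b ∧ H.Adj x b ∧ H.Adj y b)).card : ℝ) ≤
      ((KK_8356 H A x y).card : ℝ) + (((univ : Finset V).filter (fun v => ¬ typ H A v)).card : ℝ) := by
    exact_mod_cast (Finset.card_le_card hsub).trans (Finset.card_union_le _ _)
  unfold typ at hx hy
  have hbig' := big_8356 H A G
  norm_num at h2
  linarith

theorem bad_card_8356 (H : SimpleGraph V) (A : Finset V) (G : Good H A) (x y : V)
    (hx : typ H A x) :
    ((((KK_8356 H A x y).filter (fun b => ∃ c, UC H x b c)).card : ℝ)) ≤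
      (Fintype.card V : ℝ) / 100 + 1 := by
  have hinj : ((KK_8356 H A x y).filter (fun b => ∃ c, UC H x b c)).card ≤
      ((univ : Finset V).filter (fun w => ¬ same A x w ∧ ¬ H.Adj x w) ∪
        (univ : Finset V).filter (fun v => poor H A v)).card := by
    refine Finset.card_le_card_of_injOn (fun b => if h : ∃ c, UC H x b c then h.choose else x) ?_ ?_
    · intro b hb
      have hb' := (Finset.mem_filter.mp (Finset.mem_coe.mp hb)).2
      simp only [dif_pos hb']
      have hu := hb'.choose_spec
      rw [Finset.mem_coe, Finset.mem_union]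
      by_cases hsm : same A x hb'.choose
      · right; exact Finset.mem_filter.mpr ⟨Finset.mem_univ _, uc_poor H A x b _ hx hu hsm⟩
      · left; exact Finset.mem_filter.mpr ⟨Finset.mem_univ _, hsm, hu.2.1⟩
    · intro b hb b' hb' heq
      have h1 := (Finset.mem_filter.mp (Finset.mem_coe.mp hb)).2
      have h1' := (Finset.mem_filter.mp (Finset.mem_coe.mp hb')).2
      simp only [dif_pos h1, dif_pos h1'] at heq
      have hu := h1.choose_spec
      have hu' := h1'.choose_spec
      rw [← heq] at hu'
      exact hu'.2.2.2.2 b hu.2.2.1 hu.2.2.2.1.symm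
  have hpoor : ((univ : Finset V).filter (fun v => poor H A v)).card ≤ 1 := by
    rw [Finset.card_le_one]
    intro a ha b hb
    exact poor_unique H A G a b (Finset.mem_filter.mp ha).2 (Finset.mem_filter.mp hb).2
  have hmis : (((univ : Finset V).filter (fun w => ¬ same A x w ∧ ¬ H.Adj x w)).card : ℝ) ≤
      (Fintype.card V : ℝ) / 100 := hx
  have h2 := hinj.trans (Finset.card_union_le _ _)
  have h3 : ((((KK_8356 H A x y).filter (fun b => ∃ c, UC H x b c)).card : ℝ)) ≤
      (((univ : Finset V).filter (fun w => ¬ same A x w ∧ ¬ H.Adj x w)).card : ℝ) +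
        (((univ : Finset V).filter (fun v => poor H A v)).card : ℝ) := by exact_mod_cast h2
  have h4 : (((univ : Finset V).filter (fun v => poor H A v)).card : ℝ) ≤ 1 := by exact_mod_cast hpoor
  linarith

theorem Kx_card_8356 (H : SimpleGraph V) (A : Finset V) (G : Good H A) (x y : V)
    (hx : typ H A x) (hy : typ H A y) (hs : same A x y) (hadj : H.Adj x y) :
    (44 / 100 : ℝ) * (Fintype.card V : ℝ) ≤
      (((KK_8356 H A x y).filter (fun b => ∃ c, UC H b x c)).card : ℝ) := by
  have h1 := KK_card_8356 H A G x y hx hy hs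
  have h2 := bad_card_8356 H A G x y hx
  have hsub : KK_8356 H A x y ⊆ (KK_8356 H A x y).filter (fun b => ∃ c, UC H x b c) ∪
      (KK_8356 H A x y).filter (fun b => ∃ c, UC H b x c) := by
    intro b hb
    obtain ⟨_, htb, hsb, hxb, hyb⟩ := Finset.mem_filter.mp hb
    rw [Finset.mem_union]
    rcases G.crit x b hxb ⟨y, hadj, hyb.symm⟩ with h | h
    · left; exact Finset.mem_filter.mpr ⟨hb, h⟩
    · right; exact Finset.mem_filter.mpr ⟨hb, h⟩
  have h3 : ((KK_8356 H A x y).card : ℝ) ≤
      (((KK_8356 H A x y).filter (fun b => ∃ c, UC H x b c)).card : ℝ) +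
      (((KK_8356 H A x y).filter (fun b => ∃ c, UC H b x c)).card : ℝ) := by
    exact_mod_cast (Finset.card_le_card hsub).trans (Finset.card_union_le _ _)
  have hbig := big_8356 H A G
  linarith

/-- the clean side: contradiction from a lower bound for the sum of `mis` -/
theorem sum_contra_8356 (H : SimpleGraph V) (A : Finset V) (G : Good H A) (x : V) (D : Finset V)
    (hD : ∀ v ∈ D, ¬ same A x v)
    (h : (52 / 100 : ℝ) * (Fintype.card V : ℝ) ≤ ((∑ v ∈ D, mis H A v : ℕ) : ℝ)) : False := by
  have h1 := two_sum_mis_8356 H A x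
  have h2 : ∑ v ∈ D, mis H A v ≤ ∑ v ∈ (univ : Finset V).filter (fun v => ¬ same A x v), mis H A v := by
    apply Finset.sum_le_sum_of_subset
    intro v hv
    exact Finset.mem_filter.mpr ⟨Finset.mem_univ _, hD v hv⟩
  have h3 : 2 * ((∑ v ∈ D, mis H A v : ℕ) : ℝ) ≤ (Miss2 H A : ℝ) := by
    have : 2 * (∑ v ∈ D, mis H A v) ≤ Miss2 H A := by omega
    exact_mod_cast this
  obtain ⟨hM, _, _⟩ := bounds H A G
  have hbig := big_8356 H A G
  norm_num at hM
  linarith

theorem mis_pos_8356 (H : SimpleGraph V) (A : Finset V) (b c : V) (h1 : ¬ same A b c) (h2 : ¬ H.Adj b c) :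
    1 ≤ mis H A b := by
  unfold mis
  apply Finset.card_pos.mpr
  exact ⟨c, Finset.mem_filter.mpr ⟨Finset.mem_univ _, h1, h2⟩⟩

theorem mis_two_8356 (H : SimpleGraph V) (A : Finset V) (b c c' : V) (h1 : ¬ same A b c) (h2 : ¬ H.Adj b c)
    (h1' : ¬ same A b c') (h2' : ¬ H.Adj b c') (hne : c ≠ c') :
    2 ≤ mis H A b := by
  unfold mis
  apply Finset.one_lt_card.mpr
  exact ⟨c, Finset.mem_filter.mpr ⟨Finset.mem_univ _, h1, h2⟩, c',
    Finset.mem_filter.mpr ⟨Finset.mem_univ _, h1', h2'⟩, hne⟩

theorem caseB_8356 (H : SimpleGraph V) (A : Finset V) (G : Good H A) (x y : V)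
    (hx : typ H A x) (hy : typ H A y) (hs : same A x y) (hadj : H.Adj x y)
    (hclean : ∀ b ∈ KK_8356 H A x y, ∀ c, UC H b x c → ¬ same A b c)
    (b0 c0 : V) (hb0 : typ H A b0) (hb0s : ¬ same A x b0) (hu0 : UC H b0 y c0) (hs0 : same A b0 c0) : False := by
  have hpoor : poor H A c0 := uc_poor H A b0 y c0 hb0 hu0 hs0
  have hKx := Kx_card_8356 H A G x y hx hy hs hadj
  set Kx := (KK_8356 H A x y).filter (fun b => ∃ c, UC H b x c) with hKxdef
  have hbig := big_8356 H A G
  have hopp := ((bounds H A G).2.2 c0).1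
  norm_num at hopp
  have hmis0 : (47 / 100 : ℝ) * (Fintype.card V : ℝ) ≤ (mis H A c0 : ℝ) := by
    unfold poor at hpoor
    linarith
  have hc0 : c0 ∉ Kx := by
    intro h
    have h1 := (Finset.mem_filter.mp (Finset.mem_filter.mp h).1).2.1
    unfold typ at h1
    linarith
  have hc0s : ¬ same A x c0 := by
    unfold same at hb0s hs0 ⊢
    tauto
  apply sum_contra_8356 H A G x (insert c0 Kx)
  · intro v hv
    rcases Finset.mem_insert.mp hv with rfl | hv
    · exact hc0s
    · exact (Finset.mem_filter.mp (Finset.mem_filter.mp hv).1).2.2.1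
  · rw [Finset.sum_insert hc0]
    have h1 : Kx.card ≤ ∑ v ∈ Kx, mis H A v := by
      rw [Finset.card_eq_sum_ones]
      apply Finset.sum_le_sum
      intro b hb
      obtain ⟨hbK, c, hc⟩ := Finset.mem_filter.mp hb
      exact mis_pos_8356 H A b c (hclean b hbK c hc) hc.2.1
    have h2 : (Kx.card : ℝ) ≤ ((∑ v ∈ Kx, mis H A v : ℕ) : ℝ) := by exact_mod_cast h1
    push_cast at h2 ⊢
    linarith

theorem no_typ_edge (H : SimpleGraph V) (A : Finset V) (G : Good H A) (x y : V)
    (hx : typ H A x) (hy : typ H A y) (hs : same A x y) : ¬ H.Adj x y := by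
  intro hadj
  have hne : x ≠ y := hadj.ne
  have hsymK : KK_8356 H A y x = KK_8356 H A x y := by
    unfold KK_8356
    apply Finset.filter_congr
    intro b _
    unfold same at hs ⊢
    tauto
  by_cases hA : ∀ b ∈ KK_8356 H A x y, ∀ c, UC H b x c → ¬ same A b c
  · by_cases hB : ∀ b ∈ KK_8356 H A x y, ∀ c, UC H b y c → ¬ same A b c
    · have hKx := Kx_card_8356 H A G x y hx hy hs hadj
      have hKy := Kx_card_8356 H A G y x hy hx (Iff.symm hs) hadj.symm
      rw [hsymK] at hKy
      apply sum_contra_8356 H A G x (KK_8356 H A x y)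
      · intro v hv
        exact (Finset.mem_filter.mp hv).2.2.1
      · have h1 : ((KK_8356 H A x y).filter (fun b => ∃ c, UC H b x c)).card +
            ((KK_8356 H A x y).filter (fun b => ∃ c, UC H b y c)).card ≤
            ∑ v ∈ KK_8356 H A x y, mis H A v := by
          rw [Finset.card_filter, Finset.card_filter, ← Finset.sum_add_distrib]
          apply Finset.sum_le_sum
          intro b hb
          by_cases hbx : ∃ c, UC H b x c
          · obtain ⟨c, hc⟩ := hbx
            by_cases hby : ∃ c, UC H b y c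
            · obtain ⟨c', hc'⟩ := hby
              rw [if_pos ⟨c, hc⟩, if_pos ⟨c', hc'⟩]
              apply mis_two_8356 H A b c c' (hA b hb c hc) hc.2.1 (hB b hb c' hc') hc'.2.1
              rintro rfl
              exact hne (hc'.2.2.2.2 x hc.2.2.1 hc.2.2.2.1.symm)
            · rw [if_pos ⟨c, hc⟩, if_neg hby]
              exact mis_pos_8356 H A b c (hA b hb c hc) hc.2.1
          · rw [if_neg hbx]
            by_cases hby : ∃ c, UC H b y c
            · rw [if_pos hby]
              obtain ⟨c', hc'⟩ := hby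
              rw [zero_add]
              exact mis_pos_8356 H A b c' (hB b hb c' hc') hc'.2.1
            · rw [if_neg hby]
              exact Nat.zero_le _
        have h2 : (((KK_8356 H A x y).filter (fun b => ∃ c, UC H b x c)).card : ℝ) +
            (((KK_8356 H A x y).filter (fun b => ∃ c, UC H b y c)).card : ℝ) ≤
            ((∑ v ∈ KK_8356 H A x y, mis H A v : ℕ) : ℝ) := by exact_mod_cast h1
        have hbig := big_8356 H A G
        linarith
    · push Not at hB
      obtain ⟨b0, hb0, c0, hu0, hs0⟩ := hB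
      obtain ⟨_, htb, hsb, _, _⟩ := Finset.mem_filter.mp hb0
      exact caseB_8356 H A G x y hx hy hs hadj hA b0 c0 htb hsb hu0 hs0
  · push Not at hA
    obtain ⟨b0, hb0, c0, hu0, hs0⟩ := hA
    obtain ⟨_, htb, hsb, hxb, hyb⟩ := Finset.mem_filter.mp hb0
    have hsb' : ¬ same A y b0 := by
      unfold same at hs hsb ⊢
      tauto
    have hpoor : poor H A c0 := uc_poor H A b0 x c0 htb hu0 hs0
    refine caseB_8356 H A G y x hy hx (Iff.symm hs) hadj.symm ?_ b0 c0 htb hsb' hu0 hs0
    rw [hsymK]
    intro b hb c hc hsame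
    obtain ⟨_, htb', hsb2, hxb', hyb'⟩ := Finset.mem_filter.mp hb
    have hpoor' : poor H A c := uc_poor H A b y c htb' hc hsame
    have hcc : c0 = c := poor_unique H A G c0 c hpoor hpoor'
    subst hcc
    -- `x ~ c0` and `x ~ b`, so `x = y`
    exact hne (hc.2.2.2.2 x hxb'.symm hu0.2.2.2.1.symm)


end Pool.Agent.Helper254.MS
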