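import Pool.Agent.Helper254.MS.B11

set_option autoImplicit false

open Finset Classical

namespace Pool.Agent.Helper254.MS

variable {V : Type} [Fintype V]

theorem same_symm8357 {A : Finset V} {a b : V} (h : same A a b) : same A b a := Iff.symm h

theorem same_trans8357 {A : Finset V} {a b c : V} (h : same A a b) (h' : same A b c) :
    same A a c := Iff.trans h h'

theorem opp_same8357 {A : Finset V} {a b c : V} (h : ¬ same A a b) (h' : ¬ same A a c) :
    same A b c := by
  unfold same at *; tauto

theorem opp_same8357' {A : Finset V} {a b c : V} (h : ¬ same A a b) (h' : ¬ same A b c) :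
    same A a c := by
  unfold same at *; tauto

theorem opp_opp8357 {A : Finset V} {a b c : V} (h : ¬ same A a b) (h' : same A a c) :
    ¬ same A b c := by
  unfold same at *; tauto

theorem opp_opp8357' {A : Finset V} {a b c : V} (h : same A a b) (h' : ¬ same A a c) :
    ¬ same A b c := by
  unfold same at *; tauto

/-- union bound -/
theorem union8357 (H : SimpleGraph V) (A : Finset V) (p q : V) (hpq : same A p q) :
    opp A p ≤ mis H A p + mis H A q +
      ((univ : Finset V).filter (fun b => ¬ same A p b ∧ H.Adj p b ∧ H.Adj q b)).card := by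
  unfold opp mis
  have hsub : (univ : Finset V).filter (fun w => ¬ same A p w) ⊆
      (((univ : Finset V).filter (fun w => ¬ same A p w ∧ ¬ H.Adj p w)) ∪
        ((univ : Finset V).filter (fun w => ¬ same A q w ∧ ¬ H.Adj q w))) ∪
      ((univ : Finset V).filter (fun b => ¬ same A p b ∧ H.Adj p b ∧ H.Adj q b)) := by
    intro w hw
    simp only [mem_filter, mem_univ, true_and, mem_union] at hw ⊢
    by_cases h1 : H.Adj p w
    · by_cases h2 : H.Adj q w
      · exact Or.inr ⟨hw, h1, h2⟩
      · exact Or.inl (Or.inr ⟨opp_opp8357' hpq hw, h2⟩)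
    · exact Or.inl (Or.inl ⟨hw, h1⟩)
  calc _ ≤ _ := card_le_card hsub
    _ ≤ _ := card_union_le _ _
    _ ≤ _ := by
      gcongr
      exact card_union_le _ _

/-- half of the missing pairs -/
theorem half8357 (H : SimpleGraph V) (A : Finset V) (x : V) :
    2 * ∑ b ∈ (univ : Finset V).filter (fun b => ¬ same A x b), mis H A b = Miss2 H A := by
  set O := (univ : Finset V).filter (fun b => ¬ same A x b) with hO
  set O' := (univ : Finset V).filter (fun b => same A x b) with hO'
  have h1 : ∀ b ∈ O, mis H A b = ∑ c ∈ O', if ¬ H.Adj b c then 1 else 0 := by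
    intro b hb
    simp only [hO, mem_filter, mem_univ, true_and] at hb
    rw [← card_filter, hO', filter_filter]
    unfold mis
    congr 1
    ext c
    simp only [mem_filter, mem_univ, true_and]
    constructor
    · rintro ⟨h2, h3⟩
      exact ⟨opp_same8357' hb h2, h3⟩
    · rintro ⟨h2, h3⟩
      exact ⟨opp_opp8357 hb h2, h3⟩
  have h2 : ∀ b ∈ O', mis H A b = ∑ c ∈ O, if ¬ H.Adj b c then 1 else 0 := by
    intro b hb
    simp only [hO', mem_filter, mem_univ, true_and] at hb
    rw [← card_filter, hO, filter_filter]
    unfold mis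
    congr 1
    ext c
    simp only [mem_filter, mem_univ, true_and]
    constructor
    · rintro ⟨h2, h3⟩
      exact ⟨opp_opp8357' (same_symm8357 hb) h2, h3⟩
    · rintro ⟨h2, h3⟩
      exact ⟨opp_opp8357' hb h2, h3⟩
  have h3 : ∑ b ∈ O, mis H A b = ∑ b ∈ O', mis H A b := by
    rw [sum_congr rfl h1, sum_congr rfl h2, sum_comm]
    apply sum_congr rfl
    intro b _
    apply sum_congr rfl
    intro c _
    simp only [H.adj_comm]
  have h4 : Miss2 H A = ∑ b ∈ O', mis H A b + ∑ b ∈ O, mis H A b := by
    unfold Miss2
    rw [hO, hO', sum_filter_add_sum_filter_not]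
  rw [h4, h3]
  ring



theorem pq_exists (H : SimpleGraph V) (A : Finset V) (G : Good H A)
    (h : ∃ x y, same A x y ∧ H.Adj x y) :
    ∃ p q, p ≠ q ∧ same A p q ∧
      (opp A p : ℝ) - (4 / 10 ^ 4) * (Fintype.card V : ℝ) ≤ (mis H A p : ℝ) + (mis H A q : ℝ) := by
  obtain ⟨hM, hI, hopp⟩ := bounds H A G
  have hbig := G.big
  by_cases hα : ∃ p q, p ≠ q ∧ same A p q ∧
      ((univ : Finset V).filter (fun b => ¬ same A p b ∧ H.Adj p b ∧ H.Adj q b)).card ≤ 1
  · obtain ⟨p, q, hne, hs, hk⟩ := hα
    refine ⟨p, q, hne, hs, ?_⟩
    have h1 := union8357 H A p q hs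
    have h2 : opp A p ≤ mis H A p + mis H A q + 1 := h1.trans (by omega)
    have h3 : (opp A p : ℝ) ≤ mis H A p + mis H A q + 1 := by exact_mod_cast h2
    have h4 : (1 : ℝ) ≤ (4 / 10 ^ 4) * (Fintype.card V : ℝ) := by
      have : (10 : ℝ) ^ 20 = 100000000000000000000 := by norm_num
      rw [this] at hbig
      norm_num
      linarith
    linarith
  push Not at hα
  obtain ⟨x, y, hxy, hadj⟩ := h
  have hne : x ≠ y := hadj.ne
  refine ⟨x, y, hne, hxy, ?_⟩
  -- no two vertices of the same side with a unique common neighbour
  have hβ : ∀ p q v, p ≠ q → same A p q → ¬ (∀ z, H.Adj p z → H.Adj q z → z = v) := by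
    intro p q v hpq hs hz
    have h1 := hα p q hpq hs
    have h2 : (univ : Finset V).filter (fun b => ¬ same A p b ∧ H.Adj p b ∧ H.Adj q b) ⊆ {v} := by
      intro b hb
      simp only [mem_filter, mem_univ, true_and] at hb
      rw [mem_singleton]
      exact hz b hb.2.1 hb.2.2
    have h3 := card_le_card h2
    rw [card_singleton] at h3
    omega
  -- for b in K
  have hcase : ∀ u w b, same A u w → H.Adj u w → ¬ same A u b → H.Adj u b → H.Adj w b →
      1 ≤ inn H A b ∨ ∃ c, UC H b u c ∧ ¬ same A b c := by
    intro u w b hs huw hub hab hwb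
    rcases G.crit u b hab ⟨w, huw, hwb.symm⟩ with ⟨c, hc⟩ | ⟨c, hc⟩
    · left
      obtain ⟨c1, c2, c3, c4, c5⟩ := hc
      have hns : ¬ same A u c := fun hsc => hβ u c b c1.symm hsc c5
      have hbc : same A b c := opp_same8357 hub hns
      unfold inn
      rw [Nat.one_le_iff_ne_zero, card_ne_zero]
      exact ⟨c, by simp only [mem_filter, mem_univ, true_and]; exact ⟨hbc, c4⟩⟩
    · right
      refine ⟨c, hc, fun hsc => ?_⟩
      obtain ⟨c1, c2, c3, c4, c5⟩ := hc
      exact hβ b c u c1.symm hsc c5
  set O := (univ : Finset V).filter (fun b => ¬ same A x b) with hO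
  have hpoint : ∀ b ∈ O, (if ¬ H.Adj x b then 1 else 0) + (if ¬ H.Adj y b then 1 else 0) +
      2 * (if H.Adj x b ∧ H.Adj y b then 1 else 0) ≤ mis H A b + 2 * inn H A b := by
    intro b hb
    simp only [hO, mem_filter, mem_univ, true_and] at hb
    have hby : ¬ same A y b := opp_opp8357' hxy hb
    by_cases h1 : H.Adj x b
    · by_cases h2 : H.Adj y b
      · simp only [h1, h2, not_true_eq_false, if_false, and_self, if_true]
        rcases hcase x y b hxy hadj hb h1 h2 with h3 | ⟨c, hc, hcs⟩
        · omega
        rcases hcase y x b (same_symm8357 hxy) hadj.symm hby h2 h1 with h3 | ⟨c', hc', hcs'⟩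
        · omega
        have hcc : c ≠ c' := by
          intro he
          rw [← he] at hc'
          have e1 := hc.2.2.2.2 y h2.symm hc'.2.2.2.1.symm
          exact hne e1.symm
        have hsub : ({c, c'} : Finset V) ⊆
            (univ : Finset V).filter (fun w => ¬ same A b w ∧ ¬ H.Adj b w) := by
          intro z hz
          simp only [mem_insert, mem_singleton] at hz
          simp only [mem_filter, mem_univ, true_and]
          rcases hz with rfl | rfl
          · exact ⟨hcs, hc.2.1⟩
          · exact ⟨hcs', hc'.2.1⟩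
        have h4 := card_le_card hsub
        rw [card_pair hcc] at h4
        have h5 : mis H A b = ((univ : Finset V).filter
          (fun w => ¬ same A b w ∧ ¬ H.Adj b w)).card := rfl
        omega
      · simp only [h1, h2, not_true_eq_false, if_false, not_false_eq_true, if_true, and_false]
        have hsub : ({y} : Finset V) ⊆
            (univ : Finset V).filter (fun w => ¬ same A b w ∧ ¬ H.Adj b w) := by
          intro z hz
          rw [mem_singleton] at hz
          rw [hz]
          simp only [mem_filter, mem_univ, true_and]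
          exact ⟨fun hs => hby (same_symm8357 hs), fun ha => h2 ha.symm⟩
        have h4 := card_le_card hsub
        rw [card_singleton] at h4
        have h5 : mis H A b = ((univ : Finset V).filter
          (fun w => ¬ same A b w ∧ ¬ H.Adj b w)).card := rfl
        omega
    · by_cases h2 : H.Adj y b
      · simp only [h1, h2, not_true_eq_false, if_false, not_false_eq_true, if_true, false_and]
        have hsub : ({x} : Finset V) ⊆
            (univ : Finset V).filter (fun w => ¬ same A b w ∧ ¬ H.Adj b w) := by
          intro z hz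
          rw [mem_singleton] at hz
          rw [hz]
          simp only [mem_filter, mem_univ, true_and]
          exact ⟨fun hs => hb (same_symm8357 hs), fun ha => h1 ha.symm⟩
        have h4 := card_le_card hsub
        rw [card_singleton] at h4
        have h5 : mis H A b = ((univ : Finset V).filter
          (fun w => ¬ same A b w ∧ ¬ H.Adj b w)).card := rfl
        omega
      · simp only [h1, h2, not_false_eq_true, if_true, and_false, if_false]
        have hsub : ({x, y} : Finset V) ⊆
            (univ : Finset V).filter (fun w => ¬ same A b w ∧ ¬ H.Adj b w) := by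
          intro z hz
          simp only [mem_insert, mem_singleton] at hz
          simp only [mem_filter, mem_univ, true_and]
          rcases hz with rfl | rfl
          · exact ⟨fun hs => hb (same_symm8357 hs), fun ha => h1 ha.symm⟩
          · exact ⟨fun hs => hby (same_symm8357 hs), fun ha => h2 ha.symm⟩
        have h4 := card_le_card hsub
        rw [card_pair hne] at h4
        have h5 : mis H A b = ((univ : Finset V).filter
          (fun w => ¬ same A b w ∧ ¬ H.Adj b w)).card := rfl
        omega
  have hsum := sum_le_sum hpoint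
  rw [sum_add_distrib, sum_add_distrib, sum_add_distrib, ← mul_sum, ← mul_sum] at hsum
  have e1 : ∑ b ∈ O, (if ¬ H.Adj x b then 1 else 0) = mis H A x := by
    rw [← card_filter, hO, filter_filter]; rfl
  have e2 : ∑ b ∈ O, (if ¬ H.Adj y b then 1 else 0) = mis H A y := by
    rw [← card_filter, hO, filter_filter]
    unfold mis
    congr 1
    ext c
    simp only [mem_filter, mem_univ, true_and]
    constructor
    · rintro ⟨h2, h3⟩
      exact ⟨opp_opp8357' hxy h2, h3⟩
    · rintro ⟨h2, h3⟩
      exact ⟨opp_opp8357' (same_symm8357 hxy) h2, h3⟩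
  have e3 : ∑ b ∈ O, (if H.Adj x b ∧ H.Adj y b then 1 else 0) =
      ((univ : Finset V).filter (fun b => ¬ same A x b ∧ H.Adj x b ∧ H.Adj y b)).card := by
    rw [← card_filter, hO, filter_filter]
  rw [e1, e2, e3] at hsum
  have e4 : 2 * ∑ b ∈ O, mis H A b = Miss2 H A := half8357 H A x
  have e5 : ∑ b ∈ O, inn H A b ≤ In2 H A := by
    unfold In2
    exact sum_le_sum_of_subset (filter_subset _ _)
  have e6 := union8357 H A x y hxy
  set k := ((univ : Finset V).filter (fun b => ¬ same A x b ∧ H.Adj x b ∧ H.Adj y b)).card with hk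
  have e7 : 2 * (mis H A x + mis H A y + 2 * k) ≤ Miss2 H A + 4 * In2 H A := by omega
  have e8 : 2 * ((mis H A x : ℝ) + mis H A y + 2 * k) ≤ Miss2 H A + 4 * In2 H A := by
    exact_mod_cast e7
  have e9 : (opp A x : ℝ) ≤ mis H A x + mis H A y + k := by exact_mod_cast e6
  have e10 := (hopp x).1
  have hn : (0 : ℝ) ≤ (Fintype.card V : ℝ) := Nat.cast_nonneg _
  norm_num at hM hI e10 ⊢
  linarith


end Pool.Agent.Helper254.MS
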