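import Pool.Agent.Helper254.MS.B1

set_option autoImplicit false

open Finset Classical

namespace Pool.Agent.Helper254.MS

variable {V : Type} [Fintype V]

theorem sizes (H : SimpleGraph V) (A : Finset V) (G : Good H A) (v : V) :
    (49 / 100 : ℝ) * (Fintype.card V : ℝ) ≤ (opp A v : ℝ) ∧
      (opp A v : ℝ) ≤ (51 / 100 : ℝ) * (Fintype.card V : ℝ) := by
  have h1 := edge_count H A
  have h2 := G.dense
  have h3 := G.near
  have h4 := G.big
  have h5 : (0 : ℝ) ≤ (Miss2 H A : ℝ) := Nat.cast_nonneg _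
  obtain ⟨o1, o2⟩ := opp_card A v
  generalize (Fintype.card V : ℝ) = n at *
  generalize (A.card : ℝ) = a at *
  generalize (In2 H A : ℝ) = i at *
  generalize (Miss2 H A : ℝ) = m at *
  generalize (E2 H : ℝ) = e at *
  have hn0 : 0 < n := by linarith
  have h6 : (10 : ℝ) ^ 20 * n ≤ n ^ 2 := by nlinarith
  have h7 : (n - 2 * a) ^ 2 ≤ (n / 50) ^ 2 := by
    have h8 : (n - 2 * a) ^ 2 = n ^ 2 - 2 * (2 * a * (n - a)) := by ring
    have h9 : (n / 50) ^ 2 = n ^ 2 / 2500 := by ring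
    rw [h8, h9]
    norm_num at h6 h3
    linarith
  obtain ⟨h8, h9⟩ := abs_le_of_sq_le_sq' h7 (by linarith)
  by_cases hv : v ∈ A
  · rw [o1 hv]
    constructor <;> linarith
  · rw [o2 hv]
    constructor <;> linarith

theorem miss2_le (H : SimpleGraph V) (A : Finset V) (G : Good H A) :
    (Miss2 H A : ℝ) ≤ (Fintype.card V : ℝ) + (In2 H A : ℝ) ∧
      (Miss2 H A : ℝ) ≤ 2 * (Fintype.card V : ℝ) ^ 2 / 10 ^ 14 := by
  have h1 := edge_count H A
  have h2 := G.dense
  have h3 := G.near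
  have h4 := G.big
  generalize (Fintype.card V : ℝ) = n at *
  generalize (A.card : ℝ) = a at *
  generalize (In2 H A : ℝ) = i at *
  generalize (Miss2 H A : ℝ) = m at *
  generalize (E2 H : ℝ) = e at *
  have h6 : (10 : ℝ) ^ 20 * n ≤ n ^ 2 := by nlinarith
  have h7 : m ≤ n + i := by nlinarith [sq_nonneg (n - 2 * a)]
  have hn0 : 0 < n := by linarith
  refine ⟨h7, ?_⟩
  norm_num at h6 h3 ⊢
  linarith


end Pool.Agent.Helper254.MS
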