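import Pool.Agent.Helper254.MS.B2

set_option autoImplicit false

open Finset Classical

namespace Pool.Agent.Helper254.MS

variable {V : Type} [Fintype V]

theorem h170_cnt (H : SimpleGraph V) (A : Finset V) (P : V → Prop) [DecidablePred P] (c : ℝ)
    (h : ∀ v, P v → c ≤ (mis H A v : ℝ)) :
    c * (((univ : Finset V).filter (fun v => P v)).card : ℝ) ≤ (Miss2 H A : ℝ) := by
  unfold Miss2
  rw [Nat.cast_sum]
  have h1 : (((univ : Finset V).filter (fun v => P v)).card : ℕ) • c ≤
      ∑ v ∈ (univ : Finset V).filter (fun v => P v), (mis H A v : ℝ) :=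
    Finset.card_nsmul_le_sum _ _ _ (fun v hv => h v (Finset.mem_filter.1 hv).2)
  have h2 : ∑ v ∈ (univ : Finset V).filter (fun v => P v), (mis H A v : ℝ) ≤ ∑ v, (mis H A v : ℝ) :=
    Finset.sum_le_sum_of_subset_of_nonneg (Finset.filter_subset _ _) (fun v _ _ => Nat.cast_nonneg _)
  rw [nsmul_eq_mul] at h1
  linarith

theorem poor_count (H : SimpleGraph V) (A : Finset V) (G : Good H A) :
    (47 / 100 : ℝ) * (Fintype.card V : ℝ) *
      (((univ : Finset V).filter (fun v => poor H A v)).card : ℝ) ≤ (Miss2 H A : ℝ) := by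
  refine h170_cnt H A _ _ ?_
  intro v hv
  unfold poor at hv
  have h1 := (sizes H A G v).1
  have h2 := G.big
  have h3 : (100 : ℝ) ≤ (Fintype.card V : ℝ) := le_trans (by norm_num) h2
  linarith

theorem atyp_count (H : SimpleGraph V) (A : Finset V) (G : Good H A) :
    (1 / 100 : ℝ) * (Fintype.card V : ℝ) *
      (((univ : Finset V).filter (fun v => ¬ typ H A v)).card : ℝ) ≤ (Miss2 H A : ℝ) := by
  refine h170_cnt H A _ _ ?_
  intro v hv
  unfold typ at hv
  push Not at hv
  linarith


end Pool.Agent.Helper254.MS
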