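import Pool.Agent.Helper254.MS.B3

set_option autoImplicit false

open Finset Classical

namespace Pool.Agent.Helper254.MS

variable {V : Type} [Fintype V]

theorem common_opp (H : SimpleGraph V) (A : Finset V) (x y : V) (h : same A x y) :
    (opp A x : ℝ) - (mis H A x : ℝ) - (mis H A y : ℝ) ≤
      (((univ : Finset V).filter (fun b => ¬ same A x b ∧ H.Adj x b ∧ H.Adj y b)).card : ℝ) := by
  have h1 : opp A x ≤ ((univ : Finset V).filter
      (fun b => ¬ same A x b ∧ H.Adj x b ∧ H.Adj y b)).card + mis H A x + mis H A y := by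
    unfold opp mis
    refine le_trans (Finset.card_le_card ?_) ((Finset.card_union_le _ _).trans
      (Nat.add_le_add_right (Finset.card_union_le _ _) _))
    intro b hb
    rw [Finset.mem_filter] at hb
    rw [Finset.mem_union, Finset.mem_union, Finset.mem_filter, Finset.mem_filter,
      Finset.mem_filter]
    by_cases hx : H.Adj x b
    · by_cases hy : H.Adj y b
      · exact Or.inl (Or.inl ⟨Finset.mem_univ _, hb.2, hx, hy⟩)
      · refine Or.inr ⟨Finset.mem_univ _, ?_, hy⟩
        intro hs
        apply hb.2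
        unfold same at *
        exact h.trans hs
    · exact Or.inl (Or.inr ⟨Finset.mem_univ _, hb.2, hx⟩)
  have h2 : (opp A x : ℝ) ≤ (((univ : Finset V).filter
      (fun b => ¬ same A x b ∧ H.Adj x b ∧ H.Adj y b)).card : ℝ) + mis H A x + mis H A y := by
    exact_mod_cast h1
  linarith

theorem uc_poor (H : SimpleGraph V) (A : Finset V) (p z c : V) (hp : typ H A p)
    (hu : UC H p z c) (hs : same A p c) : poor H A c := by
  have h1 := common_opp H A p c hs
  have h2 : ((univ : Finset V).filter (fun b => ¬ same A p b ∧ H.Adj p b ∧ H.Adj c b)).card ≤ 1 := by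
    rw [Finset.card_le_one]
    intro a ha b hb
    rw [Finset.mem_filter] at ha hb
    rw [hu.2.2.2.2 a ha.2.2.1 ha.2.2.2, hu.2.2.2.2 b hb.2.2.1 hb.2.2.2]
  have h3 : (((univ : Finset V).filter
      (fun b => ¬ same A p b ∧ H.Adj p b ∧ H.Adj c b)).card : ℝ) ≤ 1 := by exact_mod_cast h2
  have h4 := opp_same A p c hs
  unfold poor
  unfold typ at hp
  rw [← h4]
  linarith

theorem uc_cs (H : SimpleGraph V) (A : Finset V) (p z c : V) (hp : typ H A p)
    (hu : UC H p z c) : Cs H A p c := by
  refine ⟨hp, hu.1.symm, hu.2.1, ?_⟩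
  by_cases hs : same A p c
  · exact Or.inr (uc_poor H A p z c hp hu hs)
  · exact Or.inl hs


end Pool.Agent.Helper254.MS
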