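import Pool.Agent.Helper254.MS.B4

set_option autoImplicit false

open Finset Classical

namespace Pool.Agent.Helper254.MS

variable {V : Type} [Fintype V]

theorem cs_card (H : SimpleGraph V) (A : Finset V) (G : Good H A) :
    (((univ : Finset (V × V)).filter (fun p => Cs H A p.1 p.2)).card : ℝ) ≤
      (32 / 10 : ℝ) * (Miss2 H A : ℝ) := by
  have hsub : ((univ : Finset (V × V)).filter (fun p => Cs H A p.1 p.2)) ⊆
      ((univ : Finset (V × V)).filter (fun p => ¬ same A p.1 p.2 ∧ ¬ H.Adj p.1 p.2)) ∪
      ((univ : Finset V) ×ˢ ((univ : Finset V).filter (fun v => poor H A v))) := by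
    intro p hp
    rw [Finset.mem_filter] at hp
    obtain ⟨_, _, _, hadj, hor⟩ := hp
    rw [Finset.mem_union]
    rcases hor with h | h
    · left
      rw [Finset.mem_filter]
      exact ⟨Finset.mem_univ _, h, hadj⟩
    · right
      rw [Finset.mem_product, Finset.mem_filter]
      exact ⟨Finset.mem_univ _, Finset.mem_univ _, h⟩
  have h1 : ((univ : Finset (V × V)).filter (fun p => Cs H A p.1 p.2)).card ≤
      Miss2 H A + Fintype.card V * ((univ : Finset V).filter (fun v => poor H A v)).card := by
    calc _ ≤ _ := Finset.card_le_card hsub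
      _ ≤ _ := Finset.card_union_le _ _
      _ = _ := by
        rw [Finset.card_product, Finset.card_univ, miss2_card]
  have h2 := poor_count H A G
  have h1' : (((univ : Finset (V × V)).filter (fun p => Cs H A p.1 p.2)).card : ℝ) ≤
      (Miss2 H A : ℝ) + (Fintype.card V : ℝ) *
        (((univ : Finset V).filter (fun v => poor H A v)).card : ℝ) := by
    exact_mod_cast h1
  have h3 : (0 : ℝ) ≤ (Miss2 H A : ℝ) := Nat.cast_nonneg _
  nlinarith [h1', h2, h3]


end Pool.Agent.Helper254.MS
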