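import Pool.Agent.Helper254.MS.B5

set_option autoImplicit false

open Finset Classical

namespace Pool.Agent.Helper254.MS

variable {V : Type} [Fintype V]

theorem claim1 (H : SimpleGraph V) (A : Finset V) (G : Good H A) (v : V) :
    (inn H A v : ℝ) ≤ 3 * (Fintype.card V : ℝ) / 10 ^ 7 := by
  set X : Finset V := (univ : Finset V).filter (fun x => typ H A x ∧ same A v x ∧ H.Adj v x) with hX
  set Y : Finset V := (univ : Finset V).filter (fun y => typ H A y ∧ ¬ same A v y ∧ H.Adj v y) with hY
  set Z : Finset V := (univ : Finset V).filter (fun v => ¬ typ H A v) with hZ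
  have hn : (0 : ℝ) < (Fintype.card V : ℝ) := lt_of_lt_of_le (by norm_num) G.big
  -- the pairs
  have hpairs : ((X ×ˢ Y).card : ℝ) ≤ (Miss2 H A : ℝ) + (32 / 10 : ℝ) * (Miss2 H A : ℝ) := by
    have hsplit := Finset.card_filter_add_card_filter_not (s := X ×ˢ Y)
      (fun p : V × V => H.Adj p.1 p.2)
    have hN : ((X ×ˢ Y).filter (fun p : V × V => ¬ H.Adj p.1 p.2)).card ≤ Miss2 H A := by
      rw [miss2_card]
      apply Finset.card_le_card
      intro p hp
      rw [Finset.mem_filter, Finset.mem_product] at hp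
      obtain ⟨⟨hp1, hp2⟩, hp3⟩ := hp
      rw [hX, Finset.mem_filter] at hp1
      rw [hY, Finset.mem_filter] at hp2
      rw [Finset.mem_filter]
      refine ⟨Finset.mem_univ _, ?_, hp3⟩
      intro h
      apply hp2.2.2.1
      exact hp1.2.2.1.trans h
    have hM : ((X ×ˢ Y).filter (fun p : V × V => H.Adj p.1 p.2)).card ≤
        ((univ : Finset (V × V)).filter (fun p => Cs H A p.1 p.2)).card := by
      have hex : ∀ p : V × V, p ∈ (X ×ˢ Y).filter (fun p : V × V => H.Adj p.1 p.2) →
          (∃ c, UC H p.1 p.2 c) ∨ (∃ c, UC H p.2 p.1 c) := by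
        intro p hp
        rw [Finset.mem_filter, Finset.mem_product] at hp
        obtain ⟨⟨hp1, hp2⟩, hp3⟩ := hp
        rw [hX, Finset.mem_filter] at hp1
        rw [hY, Finset.mem_filter] at hp2
        exact G.crit p.1 p.2 hp3 ⟨v, hp1.2.2.2.symm, hp2.2.2.2.symm⟩
      let F : V × V → V × V := fun p =>
        if h : ∃ c, UC H p.1 p.2 c then (p.1, h.choose)
        else if h' : ∃ c, UC H p.2 p.1 c then (p.2, h'.choose) else p
      apply Finset.card_le_card_of_injOn F
      · intro p hp
        have hp' := hp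
        rw [Finset.mem_coe] at hp
        have he := hex p hp
        rw [Finset.mem_filter, Finset.mem_product] at hp
        obtain ⟨⟨hp1, hp2⟩, hp3⟩ := hp
        rw [hX, Finset.mem_filter] at hp1
        rw [hY, Finset.mem_filter] at hp2
        rw [Finset.mem_coe, Finset.mem_filter]
        refine ⟨Finset.mem_univ _, ?_⟩
        by_cases h : ∃ c, UC H p.1 p.2 c
        · have hF : F p = (p.1, h.choose) := by simp only [F, dif_pos h]
          rw [hF]
          exact uc_cs H A p.1 p.2 h.choose hp1.2.1 h.choose_spec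
        · have h' : ∃ c, UC H p.2 p.1 c := by
            rcases he with he | he
            · exact absurd he h
            · exact he
          have hF : F p = (p.2, h'.choose) := by simp only [F, dif_neg h, dif_pos h']
          rw [hF]
          exact uc_cs H A p.2 p.1 h'.choose hp2.2.1 h'.choose_spec
      · intro p hp q hq hpq
        rw [Finset.mem_coe] at hp hq
        have hep := hex p hp
        have heq := hex q hq
        rw [Finset.mem_filter, Finset.mem_product] at hp hq
        obtain ⟨⟨hp1, hp2⟩, hp3⟩ := hp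
        obtain ⟨⟨hq1, hq2⟩, hq3⟩ := hq
        rw [hX, Finset.mem_filter] at hp1 hq1
        rw [hY, Finset.mem_filter] at hp2 hq2
        have huniq : ∀ u a b c : V, UC H u a c → UC H u b c → a = b := by
          intro u a b c h1 h2
          exact h2.2.2.2.2 a h1.2.2.1 h1.2.2.2.1.symm
        by_cases h : ∃ c, UC H p.1 p.2 c
        · have hF : F p = (p.1, h.choose) := by simp only [F, dif_pos h]
          by_cases k : ∃ c, UC H q.1 q.2 c
          · have hG : F q = (q.1, k.choose) := by simp only [F, dif_pos k]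
            rw [hF, hG, Prod.mk.injEq] at hpq
            have s1 := h.choose_spec
            have s2 := k.choose_spec
            rw [← hpq.2, ← hpq.1] at s2
            have e2 : p.2 = q.2 := huniq _ _ _ _ s1 s2
            exact Prod.ext hpq.1 e2
          · have k' : ∃ c, UC H q.2 q.1 c := by
              rcases heq with he | he
              · exact absurd he k
              · exact he
            have hG : F q = (q.2, k'.choose) := by simp only [F, dif_neg k, dif_pos k']
            rw [hF, hG, Prod.mk.injEq] at hpq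
            exact absurd (hpq.1 ▸ hp1.2.2.1) hq2.2.2.1
        · have h' : ∃ c, UC H p.2 p.1 c := by
            rcases hep with he | he
            · exact absurd he h
            · exact he
          have hF : F p = (p.2, h'.choose) := by simp only [F, dif_neg h, dif_pos h']
          by_cases k : ∃ c, UC H q.1 q.2 c
          · have hG : F q = (q.1, k.choose) := by simp only [F, dif_pos k]
            rw [hF, hG, Prod.mk.injEq] at hpq
            exact absurd (hpq.1 ▸ hq1.2.2.1) hp2.2.2.1
          · have k' : ∃ c, UC H q.2 q.1 c := by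
              rcases heq with he | he
              · exact absurd he k
              · exact he
            have hG : F q = (q.2, k'.choose) := by simp only [F, dif_neg k, dif_pos k']
            rw [hF, hG, Prod.mk.injEq] at hpq
            have s1 := h'.choose_spec
            have s2 := k'.choose_spec
            rw [← hpq.2, ← hpq.1] at s2
            have e2 : p.1 = q.1 := huniq _ _ _ _ s1 s2
            exact Prod.ext e2 hpq.1
    have h1 : (((X ×ˢ Y).filter (fun p : V × V => ¬ H.Adj p.1 p.2)).card : ℝ) ≤ (Miss2 H A : ℝ) := by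
      exact_mod_cast hN
    have h2 : (((X ×ˢ Y).filter (fun p : V × V => H.Adj p.1 p.2)).card : ℝ) ≤
        (((univ : Finset (V × V)).filter (fun p => Cs H A p.1 p.2)).card : ℝ) := by
      exact_mod_cast hM
    have h3 := cs_card H A G
    have h4 : ((X ×ˢ Y).card : ℝ) = (((X ×ˢ Y).filter (fun p : V × V => H.Adj p.1 p.2)).card : ℝ)
        + (((X ×ˢ Y).filter (fun p : V × V => ¬ H.Adj p.1 p.2)).card : ℝ) := by
      exact_mod_cast hsplit.symm
    linarith
  rw [Finset.card_product, Nat.cast_mul] at hpairs
  have hmiss := (miss2_le H A G).2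
  have hinn : inn H A v ≤ X.card + Z.card := by
    unfold inn
    refine (Finset.card_le_card ?_).trans (Finset.card_union_le X Z)
    intro w hw
    rw [Finset.mem_filter] at hw
    rw [Finset.mem_union, hX, hZ, Finset.mem_filter, Finset.mem_filter]
    by_cases ht : typ H A w
    · exact Or.inl ⟨Finset.mem_univ _, ht, hw.2.1, hw.2.2⟩
    · exact Or.inr ⟨Finset.mem_univ _, ht⟩
  have hcrs : crs H A v ≤ Y.card + Z.card := by
    unfold crs
    refine (Finset.card_le_card ?_).trans (Finset.card_union_le Y Z)
    intro w hw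
    rw [Finset.mem_filter] at hw
    rw [Finset.mem_union, hY, hZ, Finset.mem_filter, Finset.mem_filter]
    by_cases ht : typ H A w
    · exact Or.inl ⟨Finset.mem_univ _, ht, hw.2.1, hw.2.2⟩
    · exact Or.inr ⟨Finset.mem_univ _, ht⟩
  have hinn' : (inn H A v : ℝ) ≤ (X.card : ℝ) + (Z.card : ℝ) := by exact_mod_cast hinn
  have hcrs' : (crs H A v : ℝ) ≤ (Y.card : ℝ) + (Z.card : ℝ) := by exact_mod_cast hcrs
  have hcut : (inn H A v : ℝ) ≤ (crs H A v : ℝ) := by exact_mod_cast G.cut v
  set n : ℝ := (Fintype.card V : ℝ) with hnn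
  set x : ℝ := (X.card : ℝ) with hx
  set y : ℝ := (Y.card : ℝ) with hy
  set z : ℝ := (Z.card : ℝ) with hz
  have hx0 : 0 ≤ x := Nat.cast_nonneg _
  have hy0 : 0 ≤ y := Nat.cast_nonneg _
  have hzle : z ≤ 200 * n / 10 ^ 14 := by
    have h1 : (1 / 100 : ℝ) * n * z ≤ 2 * n ^ 2 / 10 ^ 14 := (atyp_count H A G).trans hmiss
    have h2 : n * z ≤ n * (200 * n / 10 ^ 14) := by
      have : n * (200 * n / 10 ^ 14) = 100 * (2 * n ^ 2 / 10 ^ 14) := by ring
      rw [this]
      linarith
    exact le_of_mul_le_mul_left h2 hn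
  have hxy : x * y ≤ 8.4 * n ^ 2 / 10 ^ 14 := by
    have : 8.4 * n ^ 2 / 10 ^ 14 = 4.2 * (2 * n ^ 2 / 10 ^ 14) := by ring
    rw [this]
    linarith
  have hkey : ∀ t : ℝ, 0 ≤ t → t * t ≤ x * y → t ≤ 2.9 * n / 10 ^ 7 := by
    intro t ht htt
    by_contra hcon
    push Not at hcon
    have h1 : (2.9 * n / 10 ^ 7) * (2.9 * n / 10 ^ 7) < t * t :=
      mul_self_lt_mul_self (by positivity) hcon
    have h2 : (2.9 * n / 10 ^ 7) * (2.9 * n / 10 ^ 7) = 8.41 * n ^ 2 / 10 ^ 14 := by ring
    have h3 : 8.4 * n ^ 2 / 10 ^ 14 ≤ 8.41 * n ^ 2 / 10 ^ 14 := by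
      apply div_le_div_of_nonneg_right _ (by positivity)
      nlinarith [sq_nonneg n]
    linarith
  have hfin : 2.9 * n / 10 ^ 7 + 200 * n / 10 ^ 14 ≤ 3 * n / 10 ^ 7 := by
    have : 3 * n / 10 ^ 7 - (2.9 * n / 10 ^ 7 + 200 * n / 10 ^ 14) = n * (0.1 / 10 ^ 7 - 200 / 10 ^ 14) := by
      ring
    have h2 : 0 ≤ n * (0.1 / 10 ^ 7 - 200 / 10 ^ 14) := by
      apply mul_nonneg hn.le
      norm_num
    linarith
  rcases le_total x y with h | h
  · have := hkey x hx0 (mul_le_mul_of_nonneg_left h hx0)
    linarith
  · have := hkey y hy0 (mul_le_mul_of_nonneg_right h hy0)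
    linarith


end Pool.Agent.Helper254.MS
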