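import Pool.Agent.Helper254.MS.B6

set_option autoImplicit false

open Finset Classical

namespace Pool.Agent.Helper254.MS

variable {V : Type} [Fintype V]

theorem centre_count (H : SimpleGraph V) (A : Finset V) (G : Good H A) (x y : V)
    (hx : typ H A x) (hy : typ H A y) (hs : same A x y) (ha : H.Adj x y) :
    (4 / 10 : ℝ) * (Fintype.card V : ℝ) ≤ (((univ : Finset (V × V)).filter
      (fun p => Cs H A p.1 p.2 ∧ UC H p.1 x p.2)).card : ℝ) := by
  set n : ℝ := (Fintype.card V : ℝ) with hn
  have hn0 : 0 < n := lt_of_lt_of_le (by norm_num) G.big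
  set K0 := (univ : Finset V).filter (fun b => ¬ same A x b ∧ H.Adj x b ∧ H.Adj y b) with hK0
  set AT := (univ : Finset V).filter (fun v => ¬ typ H A v) with hAT
  set PO := (univ : Finset V).filter (fun v => poor H A v) with hPO
  set MI := (univ : Finset V).filter (fun w => ¬ same A x w ∧ ¬ H.Adj x w) with hMI
  set K := K0 \ AT with hK
  set K1 := K.filter (fun b => ∃ c, UC H x b c) with hK1
  set K2 := K.filter (fun b => ¬ ∃ c, UC H x b c) with hK2
  have hK0c := common_opp H A x y hs
  have hsz := (sizes H A G x).1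
  have hx' : (mis H A x : ℝ) ≤ n / 100 := hx
  have hy' : (mis H A y : ℝ) ≤ n / 100 := hy
  have hM2 := (miss2_le H A G).2
  have hat := atyp_count H A G
  have hpo := poor_count H A G
  have hATc : (AT.card : ℝ) ≤ 2 * n / 10 ^ 12 := by
    have h1 : (1 / 100 : ℝ) * n * (AT.card : ℝ) ≤ 2 * n ^ 2 / 10 ^ 14 := hat.trans hM2
    have h2 : n * (AT.card : ℝ) ≤ n * (2 * n / 10 ^ 12) := by
      have : n * (2 * n / 10 ^ 12) = 100 * (2 * n ^ 2 / 10 ^ 14) := by ring
      rw [this]
      linarith
    exact le_of_mul_le_mul_left h2 hn0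
  have hPOc : (PO.card : ℝ) ≤ 5 * n / 10 ^ 14 := by
    have h1 : (47 / 100 : ℝ) * n * (PO.card : ℝ) ≤ 2 * n ^ 2 / 10 ^ 14 := hpo.trans hM2
    have h2 : n * (PO.card : ℝ) ≤ n * (5 * n / 10 ^ 14) := by
      have h3 : n * (5 * n / 10 ^ 14) = (5 / 2) * (2 * n ^ 2 / 10 ^ 14) := by ring
      rw [h3]
      have h4 : 0 ≤ 2 * n ^ 2 / 10 ^ 14 := by positivity
      nlinarith
    exact le_of_mul_le_mul_left h2 hn0
  have hKc : (K0.card : ℝ) ≤ (K.card : ℝ) + (AT.card : ℝ) := by
    have : K0.card ≤ K.card + AT.card := by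
      have h1 := Finset.card_le_card_sdiff_add_card (s := K0) (t := AT)
      exact h1
    exact_mod_cast this
  have hK12 : K.card = K1.card + K2.card := (Finset.card_filter_add_card_filter_not _).symm
  -- bound on K1
  have hK1c : (K1.card : ℝ) ≤ (mis H A x : ℝ) + (PO.card : ℝ) := by
    have h1 : ∀ b ∈ K1, ∃ c, UC H x b c := fun b hb => (Finset.mem_filter.1 hb).2
    choose! c hc using h1
    have h2 : K1.card ≤ (MI ∪ PO).card := by
      apply Finset.card_le_card_of_injOn c
      · intro b hb
        have h3 := uc_cs H A x b (c b) hx (hc b hb)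
        rw [Finset.mem_coe, Finset.mem_union]
        rcases h3.2.2.2 with h | h
        · left
          rw [hMI, Finset.mem_filter]
          exact ⟨Finset.mem_univ _, h, h3.2.2.1⟩
        · right
          rw [hPO, Finset.mem_filter]
          exact ⟨Finset.mem_univ _, h⟩
      · intro b hb b' hb' hbb
        have u1 := hc b hb
        have u2 := hc b' hb'
        rw [← hbb] at u2
        exact (u2.2.2.2.2 b u1.2.2.1 (u1.2.2.2.1.symm))
    have h4 : (MI ∪ PO).card ≤ MI.card + PO.card := Finset.card_union_le _ _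
    have h5 : MI.card = mis H A x := rfl
    have h6 : K1.card ≤ mis H A x + PO.card := by omega
    exact_mod_cast h6
  -- bound on K2
  have hK2c : (K2.card : ℝ) ≤ (((univ : Finset (V × V)).filter
      (fun p => Cs H A p.1 p.2 ∧ UC H p.1 x p.2)).card : ℝ) := by
    have h1 : ∀ b ∈ K2, ∃ c, UC H b x c := by
      intro b hb
      obtain ⟨hbK, hbn⟩ := Finset.mem_filter.1 hb
      have hbK0 := (Finset.mem_sdiff.1 hbK).1
      obtain ⟨_, _, hxb, hyb⟩ := Finset.mem_filter.1 hbK0
      rcases G.crit x b hxb ⟨y, ha, hyb.symm⟩ with h | h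
      · exact absurd h hbn
      · exact h
    choose! c hc using h1
    have h2 : K2.card ≤ ((univ : Finset (V × V)).filter
      (fun p => Cs H A p.1 p.2 ∧ UC H p.1 x p.2)).card := by
      apply Finset.card_le_card_of_injOn (fun b => (b, c b))
      · intro b hb
        have hb' : b ∈ K2 := hb
        obtain ⟨hbK, hbn⟩ := Finset.mem_filter.1 hb'
        have hbA := (Finset.mem_sdiff.1 hbK).2
        have hbt : typ H A b := by
          by_contra h
          exact hbA (Finset.mem_filter.2 ⟨Finset.mem_univ _, h⟩)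
        rw [Finset.mem_coe, Finset.mem_filter]
        exact ⟨Finset.mem_univ _, uc_cs H A b x (c b) hbt (hc b hb), hc b hb⟩
      · intro b hb b' hb' hbb
        exact congrArg Prod.fst hbb
    exact_mod_cast h2
  have hK12' : (K.card : ℝ) = (K1.card : ℝ) + (K2.card : ℝ) := by exact_mod_cast hK12
  have hK0c' : (opp A x : ℝ) - (mis H A x : ℝ) - (mis H A y : ℝ) ≤ (K0.card : ℝ) := hK0c
  have e1 : 2 * n / 10 ^ 12 ≤ n / 100 := by
    rw [div_le_div_iff₀ (by norm_num) (by norm_num)]; nlinarith
  have e2 : 5 * n / 10 ^ 14 ≤ n / 100 := by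
    rw [div_le_div_iff₀ (by norm_num) (by norm_num)]; nlinarith
  linarith


end Pool.Agent.Helper254.MS
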