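import Pool.Agent.Helper254.MS.B7

set_option autoImplicit false

open Finset Classical

namespace Pool.Agent.Helper254.MS

variable {V : Type} [Fintype V]

theorem xstar (H : SimpleGraph V) (A : Finset V) (G : Good H A) :
    (Fintype.card V : ℝ) * (((univ : Finset V).filter
      (fun x => typ H A x ∧ ∃ y, typ H A y ∧ same A x y ∧ H.Adj x y)).card : ℝ) ≤
      8 * (Miss2 H A : ℝ) := by
  set X := (univ : Finset V).filter (fun x => typ H A x ∧ ∃ y, typ H A y ∧ same A x y ∧ H.Adj x y) with hX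
  let F : V → Finset (V × V) := fun x => (univ : Finset (V × V)).filter (fun p => Cs H A p.1 p.2 ∧ UC H p.1 x p.2)
  have hF : ∀ x ∈ X, (4 / 10 : ℝ) * (Fintype.card V : ℝ) ≤ ((F x).card : ℝ) := by
    intro x hx
    rw [hX, mem_filter] at hx
    obtain ⟨-, hx1, y, hy1, hy2, hy3⟩ := hx
    exact centre_count H A G x y hx1 hy1 hy2 hy3
  have hdisj : (↑X : Set V).PairwiseDisjoint F := by
    intro x _ x' _ hne
    show Disjoint (F x) (F x')
    rw [Finset.disjoint_left]
    intro p hp hp'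
    have h1 := (mem_filter.1 hp).2.2
    have h2 := (mem_filter.1 hp').2.2
    exact hne (h1.2.2.2.2 x' h2.2.2.1 h2.2.2.2.1.symm).symm
  have hsub : X.biUnion F ⊆ (univ : Finset (V × V)).filter (fun p => Cs H A p.1 p.2) := by
    intro p hp
    rw [mem_biUnion] at hp
    obtain ⟨x, -, hp⟩ := hp
    rw [mem_filter] at hp ⊢
    exact ⟨hp.1, hp.2.1⟩
  have h1 : ((X.biUnion F).card : ℝ) ≤ (((univ : Finset (V × V)).filter (fun p => Cs H A p.1 p.2)).card : ℝ) := by
    exact_mod_cast card_le_card hsub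
  rw [card_biUnion hdisj] at h1
  push_cast at h1
  have h2 : (X.card : ℝ) * ((4 / 10 : ℝ) * (Fintype.card V : ℝ)) ≤ ∑ x ∈ X, ((F x).card : ℝ) := by
    rw [← nsmul_eq_mul, ← Finset.sum_const]
    exact Finset.sum_le_sum hF
  have h3 := cs_card H A G
  linarith


end Pool.Agent.Helper254.MS
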