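import Pool.Agent.Helper254.MS.B8

set_option autoImplicit false

open Finset Classical

namespace Pool.Agent.Helper254.MS

variable {V : Type} [Fintype V]

theorem claim2_pc (H : SimpleGraph V) (A : Finset V) (Q : V → Prop) :
    ((univ : Finset (V × V)).filter
      (fun p => Q p.1 ∧ same A p.1 p.2 ∧ H.Adj p.1 p.2)).card =
      ∑ x ∈ (univ : Finset V).filter Q, inn H A x := by
  rw [card_filter, Fintype.sum_prod_type, sum_filter]
  apply Finset.sum_congr rfl
  intro x _
  by_cases hx : Q x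
  · rw [if_pos hx]
    unfold inn
    rw [card_filter]
    apply Finset.sum_congr rfl
    intro y _
    simp only [hx, true_and]
  · rw [if_neg hx]
    apply Finset.sum_eq_zero
    intro y _
    rw [if_neg]
    exact fun h => hx h.1

theorem claim2_sw (H : SimpleGraph V) (A : Finset V) (Q : V → Prop) :
    ((univ : Finset (V × V)).filter
      (fun p => Q p.2 ∧ same A p.1 p.2 ∧ H.Adj p.1 p.2)).card ≤
    ((univ : Finset (V × V)).filter
      (fun p => Q p.1 ∧ same A p.1 p.2 ∧ H.Adj p.1 p.2)).card := by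
  apply Finset.card_le_card_of_injOn (fun p => (p.2, p.1))
  · intro p hp
    rw [Finset.mem_coe, Finset.mem_filter] at hp
    rw [Finset.mem_coe, Finset.mem_filter]
    refine ⟨Finset.mem_univ _, hp.2.1, ?_, hp.2.2.2.symm⟩
    have h := hp.2.2.1
    unfold same at h ⊢
    exact h.symm
  · intro p _ q _ h
    simp only [Prod.mk.injEq] at h
    exact Prod.ext h.2 h.1

theorem claim2_bd (H : SimpleGraph V) (A : Finset V) (G : Good H A) (Q : V → Prop) :
    (((univ : Finset (V × V)).filter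
      (fun p => Q p.1 ∧ same A p.1 p.2 ∧ H.Adj p.1 p.2)).card : ℝ) ≤
      (((univ : Finset V).filter Q).card : ℝ) * (3 * (Fintype.card V : ℝ) / 10 ^ 7) := by
  rw [claim2_pc]
  push_cast
  calc ∑ x ∈ (univ : Finset V).filter Q, (inn H A x : ℝ)
      ≤ ∑ x ∈ (univ : Finset V).filter Q, (3 * (Fintype.card V : ℝ) / 10 ^ 7) :=
        Finset.sum_le_sum (fun x _ => claim1 H A G x)
    _ = _ := by rw [Finset.sum_const, nsmul_eq_mul]

theorem claim2_cover (H : SimpleGraph V) (A : Finset V) :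
    In2 H A ≤ ((univ : Finset (V × V)).filter
      (fun p => ¬ typ H A p.1 ∧ same A p.1 p.2 ∧ H.Adj p.1 p.2)).card +
      ((univ : Finset (V × V)).filter
      (fun p => ¬ typ H A p.2 ∧ same A p.1 p.2 ∧ H.Adj p.1 p.2)).card +
      ((univ : Finset (V × V)).filter
      (fun p => (typ H A p.1 ∧ ∃ y, typ H A y ∧ same A p.1 y ∧ H.Adj p.1 y) ∧
        same A p.1 p.2 ∧ H.Adj p.1 p.2)).card := by
  rw [in2_card]
  refine le_trans (Finset.card_le_card (t := (((univ : Finset (V × V)).filter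
      (fun p => ¬ typ H A p.1 ∧ same A p.1 p.2 ∧ H.Adj p.1 p.2)) ∪
      ((univ : Finset (V × V)).filter
      (fun p => ¬ typ H A p.2 ∧ same A p.1 p.2 ∧ H.Adj p.1 p.2))) ∪
      ((univ : Finset (V × V)).filter
      (fun p => (typ H A p.1 ∧ ∃ y, typ H A y ∧ same A p.1 y ∧ H.Adj p.1 y) ∧
        same A p.1 p.2 ∧ H.Adj p.1 p.2))) ?_) ?_
  · intro p hp
    rw [Finset.mem_filter] at hp
    rw [Finset.mem_union, Finset.mem_union, Finset.mem_filter, Finset.mem_filter,
      Finset.mem_filter]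
    by_cases h1 : typ H A p.1
    · by_cases h2 : typ H A p.2
      · right
        exact ⟨Finset.mem_univ _, ⟨h1, p.2, h2, hp.2.1, hp.2.2⟩, hp.2.1, hp.2.2⟩
      · left; right
        exact ⟨Finset.mem_univ _, h2, hp.2.1, hp.2.2⟩
    · left; left
      exact ⟨Finset.mem_univ _, h1, hp.2.1, hp.2.2⟩
  · refine (Finset.card_union_le _ _).trans ?_
    exact Nat.add_le_add_right (Finset.card_union_le _ _) _

theorem claim2 (H : SimpleGraph V) (A : Finset V) (G : Good H A) :
    (In2 H A : ℝ) ≤ (Miss2 H A : ℝ) / 10 ^ 4 := by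
  have hcov := claim2_cover H A
  have a1 := atyp_count H A G
  have a3 := xstar H A G
  have b1 : (((univ : Finset (V × V)).filter
      (fun p => ¬ typ H A p.1 ∧ same A p.1 p.2 ∧ H.Adj p.1 p.2)).card : ℝ) ≤
      (((univ : Finset V).filter (fun v => ¬ typ H A v)).card : ℝ) *
        (3 * (Fintype.card V : ℝ) / 10 ^ 7) := by
    convert claim2_bd H A G (fun v => ¬ typ H A v)
  have b3 : (((univ : Finset (V × V)).filter
      (fun p => (typ H A p.1 ∧ ∃ y, typ H A y ∧ same A p.1 y ∧ H.Adj p.1 y) ∧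
        same A p.1 p.2 ∧ H.Adj p.1 p.2)).card : ℝ) ≤
      (((univ : Finset V).filter
        (fun x => typ H A x ∧ ∃ y, typ H A y ∧ same A x y ∧ H.Adj x y)).card : ℝ) *
        (3 * (Fintype.card V : ℝ) / 10 ^ 7) := by
    convert claim2_bd H A G (fun x => typ H A x ∧ ∃ y, typ H A y ∧ same A x y ∧ H.Adj x y)
  have hsw : ((univ : Finset (V × V)).filter
      (fun p => ¬ typ H A p.2 ∧ same A p.1 p.2 ∧ H.Adj p.1 p.2)).card ≤
      ((univ : Finset (V × V)).filter
      (fun p => ¬ typ H A p.1 ∧ same A p.1 p.2 ∧ H.Adj p.1 p.2)).card := by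
    convert claim2_sw H A (fun v => ¬ typ H A v)
  have hcov' : (In2 H A : ℝ) ≤ (((univ : Finset (V × V)).filter
      (fun p => ¬ typ H A p.1 ∧ same A p.1 p.2 ∧ H.Adj p.1 p.2)).card : ℝ) +
      (((univ : Finset (V × V)).filter
      (fun p => ¬ typ H A p.2 ∧ same A p.1 p.2 ∧ H.Adj p.1 p.2)).card : ℝ) +
      (((univ : Finset (V × V)).filter
      (fun p => (typ H A p.1 ∧ ∃ y, typ H A y ∧ same A p.1 y ∧ H.Adj p.1 y) ∧
        same A p.1 p.2 ∧ H.Adj p.1 p.2)).card : ℝ) := by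
    exact_mod_cast hcov
  have hsw' : (((univ : Finset (V × V)).filter
      (fun p => ¬ typ H A p.2 ∧ same A p.1 p.2 ∧ H.Adj p.1 p.2)).card : ℝ) ≤
      (((univ : Finset (V × V)).filter
      (fun p => ¬ typ H A p.1 ∧ same A p.1 p.2 ∧ H.Adj p.1 p.2)).card : ℝ) := by
    exact_mod_cast hsw
  generalize (((univ : Finset (V × V)).filter
      (fun p => ¬ typ H A p.1 ∧ same A p.1 p.2 ∧ H.Adj p.1 p.2)).card : ℝ) = c1 at *
  generalize (((univ : Finset (V × V)).filter
      (fun p => ¬ typ H A p.2 ∧ same A p.1 p.2 ∧ H.Adj p.1 p.2)).card : ℝ) = c2 at *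
  generalize (((univ : Finset (V × V)).filter
      (fun p => (typ H A p.1 ∧ ∃ y, typ H A y ∧ same A p.1 y ∧ H.Adj p.1 y) ∧
        same A p.1 p.2 ∧ H.Adj p.1 p.2)).card : ℝ) = c3 at *
  generalize (((univ : Finset V).filter (fun v => ¬ typ H A v)).card : ℝ) = n1 at *
  generalize (((univ : Finset V).filter
      (fun x => typ H A x ∧ ∃ y, typ H A y ∧ same A x y ∧ H.Adj x y)).card : ℝ) = n3 at *
  have hM : (0 : ℝ) ≤ (Miss2 H A : ℝ) := Nat.cast_nonneg _
  generalize (Miss2 H A : ℝ) = M at *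
  generalize (In2 H A : ℝ) = I at *
  generalize (Fintype.card V : ℝ) = N at *
  have e1 : n1 * (3 * N / 10 ^ 7) = (1 / 100 * N * n1) * (300 / 10 ^ 7) := by ring
  have e3 : n3 * (3 * N / 10 ^ 7) = (N * n3) * (3 / 10 ^ 7) := by ring
  rw [e1] at b1
  rw [e3] at b3
  have f1 : (1 / 100 * N * n1) * (300 / 10 ^ 7) ≤ M * (300 / 10 ^ 7) :=
    mul_le_mul_of_nonneg_right a1 (by norm_num)
  have f3 : (N * n3) * (3 / 10 ^ 7) ≤ (8 * M) * (3 / 10 ^ 7) :=
    mul_le_mul_of_nonneg_right a3 (by norm_num)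
  linarith


end Pool.Agent.Helper254.MS
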