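import Pool.Agent.Helper254.MS.B0

set_option autoImplicit false

open Finset Classical

namespace Pool.Agent.Helper254.MS

variable {V : Type} [Fintype V]

theorem arith (n a b : ℕ) (hn : a + b + 1 = n) (ha : 1 ≤ a) (hb : 1 ≤ b) :
    a * b ≤ (n - 1) ^ 2 / 4 ∧
      (a * b = (n - 1) ^ 2 / 4 → a - 1 = (n - 3) / 2 ∨ a - 1 = (n - 2) / 2) := by
  have hs : n - 1 = a + b := by omega
  rw [hs]
  constructor
  · rw [Nat.le_div_iff_mul_le (by norm_num)]
    rcases Nat.le_total a b with h | h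
    · obtain ⟨k, rfl⟩ := Nat.exists_eq_add_of_le h
      nlinarith [sq_nonneg k]
    · obtain ⟨k, rfl⟩ := Nat.exists_eq_add_of_le h
      nlinarith [sq_nonneg k]
  · intro he
    have h1 : ¬ (b + 2 ≤ a) := by
      intro h
      obtain ⟨k, rfl⟩ := Nat.exists_eq_add_of_le h
      have h2 : (b + 2 + k) * b + 1 ≤ (b + 2 + k + b) ^ 2 / 4 := by
        rw [Nat.le_div_iff_mul_le (by norm_num)]
        nlinarith [sq_nonneg k]
      omega
    have h2 : ¬ (a + 2 ≤ b) := by
      intro h
      obtain ⟨k, rfl⟩ := Nat.exists_eq_add_of_le h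
      have h2 : a * (a + 2 + k) + 1 ≤ (a + (a + 2 + k)) ^ 2 / 4 := by
        rw [Nat.le_div_iff_mul_le (by norm_num)]
        nlinarith [sq_nonneg k]
      omega
    omega


end Pool.Agent.Helper254.MS
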