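import Pool.Agent.Helper254.MS.B4
import Pool.Agent.Helper254.MS.C1

set_option autoImplicit false

open Finset Classical

namespace Pool.Agent.Helper254.MS

variable {V : Type} [Fintype V]

theorem same_symm' {A : Finset V} {x y : V} (h : same A x y) : same A y x := Iff.symm h

theorem same_trans' {A : Finset V} {x y z : V} (h : same A x y) (h' : same A y z) :
    same A x z := Iff.trans h h'

theorem nsame_trans {A : Finset V} {x y z : V} (h : ¬ same A x y) (h' : ¬ same A x z) :
    same A y z := by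
  unfold same at *; tauto

theorem two_common (H : SimpleGraph V) (A : Finset V) (p : V)
    (hn : (10 : ℝ) ^ 6 ≤ (Fintype.card V : ℝ))
    (hty : ∀ v, v ≠ p → (mis H A v : ℝ) ≤ (Fintype.card V : ℝ) / 100)
    (hsz : ∀ v, (49 / 100 : ℝ) * (Fintype.card V : ℝ) ≤ (opp A v : ℝ) ∧
      (opp A v : ℝ) ≤ (51 / 100 : ℝ) * (Fintype.card V : ℝ))
    {x y : V} (hxy : same A x y) (hx : x ≠ p) (hy : y ≠ p) (v : V) :
    ∃ w, w ≠ v ∧ H.Adj x w ∧ H.Adj y w := by
  have h1 := common_opp H A x y hxy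
  have h2 := hty x hx
  have h3 := hty y hy
  have h4 := (hsz x).1
  have h5 : (1 : ℝ) <
      (((univ : Finset V).filter (fun b => ¬ same A x b ∧ H.Adj x b ∧ H.Adj y b)).card : ℝ) := by
    have hn' : (1000000 : ℝ) ≤ (Fintype.card V : ℝ) := le_trans (by norm_num) hn
    linarith
  have h6 : 1 < ((univ : Finset V).filter
      (fun b => ¬ same A x b ∧ H.Adj x b ∧ H.Adj y b)).card := by exact_mod_cast h5
  obtain ⟨a, ha, b, hb, hab⟩ := Finset.one_lt_card.1 h6
  rw [Finset.mem_filter] at ha hb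
  by_cases hav : a = v
  · refine ⟨b, ?_, hb.2.2.1, hb.2.2.2⟩
    intro hbv
    exact hab (hav.trans hbv.symm)
  · exact ⟨a, hav, ha.2.2.1, ha.2.2.2⟩

theorem no_cross (H : SimpleGraph V) (A : Finset V) (p : V) (hC : Crit H)
    (hn : (10 : ℝ) ^ 6 ≤ (Fintype.card V : ℝ))
    (hty : ∀ v, v ≠ p → (mis H A v : ℝ) ≤ (Fintype.card V : ℝ) / 100)
    (hsz : ∀ v, (49 / 100 : ℝ) * (Fintype.card V : ℝ) ≤ (opp A v : ℝ) ∧
      (opp A v : ℝ) ≤ (51 / 100 : ℝ) * (Fintype.card V : ℝ))
    (hint : ∀ x y, same A x y → H.Adj x y → x = p ∨ y = p)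
    {a b : V} (ha : same A p a) (hpa : H.Adj p a) (hb : ¬ same A p b) (hpb : H.Adj p b) :
    ¬ H.Adj a b := by
  intro hab
  have hap : a ≠ p := hpa.ne'
  have hbp : b ≠ p := hpb.ne'
  rcases hC a b hab ⟨p, hpa.symm, hpb.symm⟩ with ⟨c, h1, h2, h3, h4, h5⟩ | ⟨c, h1, h2, h3, h4, h5⟩
  · have hcp : c ≠ p := by
      rintro rfl
      exact h2 hpa.symm
    have hbc : ¬ same A b c := by
      intro hs
      rcases hint b c hs h4 with h | h
      · exact hbp h
      · exact hcp h
    have hac : same A a c := by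
      unfold same at *; tauto
    obtain ⟨w, hw, hw1, hw2⟩ := two_common H A p hn hty hsz hac hap hcp b
    exact hw (h5 w hw1 hw2)
  · have hcp : c ≠ p := by
      rintro rfl
      exact h2 hpb.symm
    have hac : ¬ same A a c := by
      intro hs
      rcases hint a c hs h4 with h | h
      · exact hap h
      · exact hcp h
    have hbc : same A b c := by
      unfold same at *; tauto
    obtain ⟨w, hw, hw1, hw2⟩ := two_common H A p hn hty hsz hbc hbp hcp a
    exact hw (h5 w hw1 hw2)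

theorem cross_ex (H : SimpleGraph V) (A : Finset V) (p : V)
    (hint : ∀ x y, same A x y → H.Adj x y → x = p ∨ y = p)
    (hnb : ∀ A' : Finset V, ∃ x y, same A' x y ∧ H.Adj x y) :
    (∃ a, same A p a ∧ H.Adj p a) ∧ (∃ b, ¬ same A p b ∧ H.Adj p b) := by
  constructor
  · obtain ⟨x, y, h1, h2⟩ := hnb A
    rcases hint x y h1 h2 with rfl | rfl
    · exact ⟨y, h1, h2⟩
    · exact ⟨x, same_symm' h1, h2.symm⟩
  · obtain ⟨x, y, h1, h2⟩ := hnb ((univ : Finset V).filter (fun v => if v = p then v ∉ A else v ∈ A))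
    have key : ∀ v, v ∈ ((univ : Finset V).filter (fun v => if v = p then v ∉ A else v ∈ A)) ↔
        (if v = p then v ∉ A else v ∈ A) := fun v => by simp
    unfold same at h1
    rw [key, key] at h1
    by_cases hx : x = p
    · by_cases hy : y = p
      · exact absurd (hx.trans hy.symm) h2.ne
      · refine ⟨y, ?_, hx ▸ h2⟩
        rw [if_pos hx, if_neg hy] at h1
        unfold same
        rw [← hx]
        tauto
    · by_cases hy : y = p
      · refine ⟨x, ?_, hy ▸ h2.symm⟩
        rw [if_neg hx, if_pos hy] at h1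
        unfold same
        rw [← hy]
        tauto
      · rw [if_neg hx, if_neg hy] at h1
        rcases hint x y h1 h2 with h | h
        · exact absurd h hx
        · exact absurd h hy

theorem in2_le (H : SimpleGraph V) (A : Finset V) (p : V)
    (hint : ∀ x y, same A x y → H.Adj x y → x = p ∨ y = p) :
    In2 H A ≤ 2 * inn H A p := by
  unfold In2
  rw [← Finset.add_sum_erase _ _ (Finset.mem_univ p)]
  have h1 : ∑ v ∈ (univ : Finset V).erase p, inn H A v ≤
      ∑ v ∈ (univ : Finset V).erase p, (if same A p v ∧ H.Adj p v then 1 else 0) := by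
    refine Finset.sum_le_sum fun v hv => ?_
    have hvp : v ≠ p := (Finset.mem_erase.1 hv).1
    unfold inn
    have hsub : (univ : Finset V).filter (fun w => same A v w ∧ H.Adj v w) ⊆ {p} := by
      intro w hw
      rw [Finset.mem_filter] at hw
      rcases hint v w hw.2.1 hw.2.2 with h | h
      · exact absurd h hvp
      · exact Finset.mem_singleton.2 h
    split_ifs with hc
    · calc _ ≤ ({p} : Finset V).card := Finset.card_le_card hsub
        _ = 1 := Finset.card_singleton p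
    · rw [Nat.le_zero, Finset.card_eq_zero, Finset.filter_eq_empty_iff]
      intro w _ hw
      have : w = p := by
        rcases hint v w hw.1 hw.2 with h | h
        · exact absurd h hvp
        · exact h
      subst this
      exact hc ⟨same_symm' hw.1, hw.2.symm⟩
  have h2 : ∑ v ∈ (univ : Finset V).erase p, (if same A p v ∧ H.Adj p v then 1 else 0) ≤
      inn H A p := by
    rw [← Finset.card_filter]
    exact Finset.card_le_card (Finset.filter_subset_filter _ (Finset.erase_subset _ _))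
  omega

theorem miss_sym (H : SimpleGraph V) (A : Finset V) (p : V) :
    Miss2 H A = 2 * ∑ v ∈ (univ : Finset V).filter (fun v => same A p v), mis H A v := by
  have h1 : ∑ v ∈ (univ : Finset V).filter (fun v => same A p v), mis H A v =
      ∑ w ∈ (univ : Finset V).filter (fun v => ¬ same A p v), mis H A w := by
    have h2 := Finset.sum_card_bipartiteAbove_eq_sum_card_bipartiteBelow
      (s := (univ : Finset V).filter (fun v => same A p v))
      (t := (univ : Finset V).filter (fun v => ¬ same A p v)) (fun v w => ¬ H.Adj v w)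
    have h3 : ∀ v ∈ (univ : Finset V).filter (fun v => same A p v), mis H A v =
        (Finset.bipartiteAbove (fun v w => ¬ H.Adj v w)
          ((univ : Finset V).filter (fun v => ¬ same A p v)) v).card := by
      intro v hv
      rw [Finset.mem_filter] at hv
      unfold mis Finset.bipartiteAbove
      congr 1
      ext w
      simp only [Finset.mem_filter, Finset.mem_univ, true_and]
      constructor
      · rintro ⟨h4, h5⟩
        exact ⟨fun h => h4 (same_trans' (same_symm' hv.2) h), h5⟩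
      · rintro ⟨h4, h5⟩
        exact ⟨fun h => h4 (same_trans' hv.2 h), h5⟩
    have h4 : ∀ v ∈ (univ : Finset V).filter (fun v => ¬ same A p v), mis H A v =
        (Finset.bipartiteBelow (fun v w => ¬ H.Adj v w)
          ((univ : Finset V).filter (fun v => same A p v)) v).card := by
      intro v hv
      rw [Finset.mem_filter] at hv
      unfold mis Finset.bipartiteBelow
      congr 1
      ext w
      simp only [Finset.mem_filter, Finset.mem_univ, true_and]
      constructor
      · rintro ⟨h4, h5⟩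
        refine ⟨?_, fun h => h5 h.symm⟩
        have := hv.2
        unfold same at *; tauto
      · rintro ⟨h4, h5⟩
        refine ⟨?_, fun h => h5 h.symm⟩
        have := hv.2
        unfold same at *; tauto
    rw [Finset.sum_congr rfl h3, Finset.sum_congr rfl h4]
    exact h2
  have h5 := Finset.sum_filter_add_sum_filter_not (univ : Finset V) (fun v => same A p v)
    (fun v => mis H A v)
  unfold Miss2
  rw [← h5, ← h1]
  ring



/-- the two sides -/
theorem count_main (H : SimpleGraph V) (A : Finset V) (p : V)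
    (hint : ∀ x y, same A x y → H.Adj x y → x = p ∨ y = p) :
    E2 H + 2 * (mis H A p + ∑ v ∈ (univ : Finset V).filter (fun v => same A p v ∧ v ≠ p),
        mis H A v) ≤
      2 * ((((univ : Finset V).filter (fun v => same A p v ∧ v ≠ p)).card + 1) * opp A p)
        + 2 * inn H A p ∧
    ((univ : Finset V).filter (fun v => same A p v ∧ v ≠ p)).card + 1 + opp A p =
      Fintype.card V := by
  set S1 := (univ : Finset V).filter (fun v => same A p v) with hS1
  set A2 := (univ : Finset V).filter (fun v => same A p v ∧ v ≠ p) with hA2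
  have hpS : p ∈ S1 := by
    rw [hS1, Finset.mem_filter]; exact ⟨Finset.mem_univ _, Iff.rfl⟩
  have hA2' : A2 = S1.erase p := by
    ext v
    simp only [hA2, hS1, Finset.mem_filter, Finset.mem_univ, true_and, Finset.mem_erase]
    tauto
  have hc1 : A2.card + 1 = S1.card := by
    rw [hA2']; exact Finset.card_erase_add_one hpS
  have hc2 : S1.card + opp A p = Fintype.card V := by
    unfold opp
    rw [hS1, Finset.card_filter_add_card_filter_not, Finset.card_univ]
  have hsum : ∑ v ∈ S1, mis H A v = mis H A p + ∑ v ∈ A2, mis H A v := by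
    rw [hA2', Finset.add_sum_erase _ _ hpS]
  have hprod : (A.card : ℝ) * ((Fintype.card V : ℝ) - (A.card : ℝ)) = (S1.card : ℝ) * (opp A p : ℝ) := by
    have h2 : (S1.card : ℝ) + (opp A p : ℝ) = (Fintype.card V : ℝ) := by exact_mod_cast hc2
    by_cases hp : p ∈ A
    · have h1 := (opp_card A p).1 hp
      have h3 : (S1.card : ℝ) = (A.card : ℝ) := by linarith
      rw [h1, h3]
    · have h1 := (opp_card A p).2 hp
      have h3 : (S1.card : ℝ) = (Fintype.card V : ℝ) - (A.card : ℝ) := by linarith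
      rw [h1, h3]; ring
  have he := edge_count H A
  rw [mul_assoc, hprod] at he
  have he' : E2 H + Miss2 H A = 2 * (S1.card * opp A p) + In2 H A := by exact_mod_cast he
  have hin := in2_le H A p hint
  have hmi := miss_sym H A p
  rw [← hS1, hsum] at hmi
  refine ⟨?_, by omega⟩
  rw [hc1]
  omega

theorem mis_ge (H : SimpleGraph V) (A : Finset V) (p : V)
    (hno : ∀ a b, same A p a → H.Adj p a → ¬ same A p b → H.Adj p b → ¬ H.Adj a b)
    (a : V) (ha : same A p a) (hpa : H.Adj p a) :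
    crs H A p ≤ mis H A a ∧ (mis H A a = crs H A p → ∀ w, ¬ same A p w →
      (H.Adj a w ↔ ¬ H.Adj p w)) := by
  have hsub : (univ : Finset V).filter (fun w => ¬ same A p w ∧ H.Adj p w) ⊆
      (univ : Finset V).filter (fun w => ¬ same A a w ∧ ¬ H.Adj a w) := by
    intro w hw
    rw [Finset.mem_filter] at hw ⊢
    refine ⟨hw.1, ?_, hno a w ha hpa hw.2.1 hw.2.2⟩
    intro h
    exact hw.2.1 (same_trans' ha h)
  refine ⟨Finset.card_le_card hsub, ?_⟩
  intro heq w hw
  have heq' := Finset.eq_of_subset_of_card_le hsub (le_of_eq heq)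
  constructor
  · intro h1 h2
    exact hno a w ha hpa hw h2 h1
  · intro h1
    by_contra h2
    have : w ∈ (univ : Finset V).filter (fun w => ¬ same A p w ∧ H.Adj p w) := by
      rw [heq', Finset.mem_filter]
      refine ⟨Finset.mem_univ _, ?_, h2⟩
      intro h
      exact hw (same_trans' ha h)
    rw [Finset.mem_filter] at this
    exact h1 this.2.2

theorem nat_aux {E Q a b r s m S : ℕ} (hE : E + 2 * (m + S) ≤ 2 * ((a + 1) * b) + 2 * r)
    (hb : b = m + s) (hS : r * s ≤ S) (hr : 1 ≤ r) (hs : 1 ≤ s) (hab : a * b ≤ Q) :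
    E ≤ 2 * (Q + 1) ∧ (E = 2 * (Q + 1) → S = r * s ∧ a * b = Q ∧ (r = 1 ∨ s = 1)) := by
  obtain ⟨r', rfl⟩ : ∃ r', r = r' + 1 := ⟨r - 1, by omega⟩
  obtain ⟨s', rfl⟩ : ∃ s', s = s' + 1 := ⟨s - 1, by omega⟩
  have h1 : (a + 1) * b = a * b + b := by ring
  have h2 : (r' + 1) * (s' + 1) = r' * s' + r' + s' + 1 := by ring
  rw [h1] at hE
  rw [h2] at hS
  have h3 : 0 ≤ r' * s' := Nat.zero_le _
  constructor
  · omega
  · intro hEq
    have h4 : r' * s' = 0 := by omega
    refine ⟨by rw [h2]; omega, by omega, ?_⟩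
    rcases Nat.mul_eq_zero.1 h4 with h | h
    · left; omega
    · right; omega



theorem build (H : SimpleGraph V) (p q : V) (Q : V → Prop)
    (hq : Q q) (hqp : q ≠ p) (hpq : H.Adj p q)
    (huniq : ∀ v, Q v → v ≠ p → H.Adj p v → v = q)
    (t1 : ∀ x y, Q x → Q y → x ≠ p → y ≠ p → ¬ H.Adj x y)
    (t2 : ∀ x y, ¬ Q x → ¬ Q y → x ≠ p → y ≠ p → ¬ H.Adj x y)
    (t3 : ∀ x y, Q x → x ≠ p → ¬ Q y → y ≠ p → (H.Adj x y ↔ ¬ (H.Adj p x ∧ H.Adj p y)))
    (h3 : ∃ v, ¬ Q v ∧ v ≠ p ∧ H.Adj p v) (h4 : ∃ v, ¬ Q v ∧ v ≠ p ∧ ¬ H.Adj p v) :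
    ∃ f : V → Fin 5, (∀ x y : V, H.Adj x y ↔ (f y = f x + 2 ∨ f x = f y + 2)) ∧
      ((univ : Finset V).filter (fun x => f x = 0)).card = 1 ∧
      ((univ : Finset V).filter (fun x => f x = 2)).card = 1 ∧
      ((univ : Finset V).filter (fun x => f x = 1)).card =
        ((univ : Finset V).filter (fun v => Q v ∧ v ≠ p ∧ v ≠ q)).card ∧
      1 ≤ ((univ : Finset V).filter (fun x => f x = 3)).card ∧
      1 ≤ ((univ : Finset V).filter (fun x => f x = 4)).card := by
  let f : V → Fin 5 := fun v => if v = p then 0 else if Q v then (if v = q then 2 else 1)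
    else (if H.Adj p v then 3 else 4)
  have cls : ∀ x, (x = p ∧ f x = 0) ∨ (x ≠ p ∧ Q x ∧ H.Adj p x ∧ x = q ∧ f x = 2) ∨
      (x ≠ p ∧ Q x ∧ ¬ H.Adj p x ∧ x ≠ q ∧ f x = 1) ∨ (x ≠ p ∧ ¬ Q x ∧ H.Adj p x ∧ f x = 3) ∨
      (x ≠ p ∧ ¬ Q x ∧ ¬ H.Adj p x ∧ f x = 4) := by
    intro x
    by_cases h1 : x = p
    · left; exact ⟨h1, by simp [f, h1]⟩
    · by_cases h2 : Q x
      · by_cases h5 : x = q
        · right; left
          exact ⟨h1, h2, h5 ▸ hpq, h5, by simp only [f]; rw [if_neg h1, if_pos h2, if_pos h5]⟩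
        · right; right; left
          exact ⟨h1, h2, fun h => h5 (huniq x h2 h1 h), h5, by
            simp only [f]; rw [if_neg h1, if_pos h2, if_neg h5]⟩
      · by_cases h5 : H.Adj p x
        · right; right; right; left
          exact ⟨h1, h2, h5, by simp only [f]; rw [if_neg h1, if_neg h2, if_pos h5]⟩
        · right; right; right; right
          exact ⟨h1, h2, h5, by simp only [f]; rw [if_neg h1, if_neg h2, if_neg h5]⟩
  have d20 : (2 : Fin 5) ≠ 0 := by decide
  have d10 : (1 : Fin 5) ≠ 0 := by decide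
  have d30 : (3 : Fin 5) ≠ 0 := by decide
  have d40 : (4 : Fin 5) ≠ 0 := by decide
  have d21 : (2 : Fin 5) ≠ 1 := by decide
  have d31 : (3 : Fin 5) ≠ 1 := by decide
  have d41 : (4 : Fin 5) ≠ 1 := by decide
  have d32 : (3 : Fin 5) ≠ 2 := by decide
  have d42 : (4 : Fin 5) ≠ 2 := by decide
  have d43 : (4 : Fin 5) ≠ 3 := by decide
  refine ⟨f, ?_, ?_, ?_, ?_, ?_, ?_⟩
  · intro x y
    have e0 : x = p → (H.Adj x y ↔ H.Adj p y) := by rintro rfl; exact Iff.rfl
    have e1 : y = p → (H.Adj x y ↔ H.Adj p x) := by rintro rfl; exact H.adj_comm _ _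
    have e2 : x = p → y = p → ¬ H.Adj x y := by
      rintro rfl rfl; exact H.irrefl
    have s1 := t1 x y
    have s2 := t2 x y
    have s3 := t3 x y
    have s4 := t3 y x
    rw [H.adj_comm y x] at s4
    have cx := cls x
    have cy := cls y
    clear t1 t2 t3 h3 h4 huniq cls
    rcases cx with ⟨hx, fx⟩ | ⟨hx, hx2, hx3, hx4, fx⟩ | ⟨hx, hx2, hx3, hx4, fx⟩ |
      ⟨hx, hx2, hx3, fx⟩ | ⟨hx, hx2, hx3, fx⟩ <;>
    rcases cy with ⟨hy, fy⟩ | ⟨hy, hy2, hy3, hy4, fy⟩ | ⟨hy, hy2, hy3, hy4, fy⟩ |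
      ⟨hy, hy2, hy3, fy⟩ | ⟨hy, hy2, hy3, fy⟩ <;>
    rw [fx, fy] <;>
    first
      | exact iff_of_true ((e0 hx).2 hy3) (by decide)
      | exact iff_of_true ((e1 hy).2 hx3) (by decide)
      | exact iff_of_true ((s3 hx2 hx hy2 hy).2 (fun h => hx3 h.1)) (by decide)
      | exact iff_of_true ((s3 hx2 hx hy2 hy).2 (fun h => hy3 h.2)) (by decide)
      | exact iff_of_true ((s4 hy2 hy hx2 hx).2 (fun h => hy3 h.1)) (by decide)
      | exact iff_of_true ((s4 hy2 hy hx2 hx).2 (fun h => hx3 h.2)) (by decide)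
      | exact iff_of_false (e2 hx hy) (by decide)
      | exact iff_of_false (fun h => hy3 ((e0 hx).1 h)) (by decide)
      | exact iff_of_false (fun h => hx3 ((e1 hy).1 h)) (by decide)
      | exact iff_of_false (s1 hx2 hy2 hx hy) (by decide)
      | exact iff_of_false (s2 hx2 hy2 hx hy) (by decide)
      | exact iff_of_false (fun h => (s3 hx2 hx hy2 hy).1 h ⟨hx3, hy3⟩) (by decide)
      | exact iff_of_false (fun h => (s4 hy2 hy hx2 hx).1 h ⟨hy3, hx3⟩) (by decide)
  · rw [Finset.card_eq_one]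
    refine ⟨p, ?_⟩
    ext x
    rw [Finset.mem_filter, Finset.mem_singleton]
    rcases cls x with ⟨hx, fx⟩ | ⟨hx, hx2, hx3, hx4, fx⟩ | ⟨hx, hx2, hx3, hx4, fx⟩ |
      ⟨hx, hx2, hx3, fx⟩ | ⟨hx, hx2, hx3, fx⟩ <;> rw [fx] <;> simp [hx]
  · rw [Finset.card_eq_one]
    refine ⟨q, ?_⟩
    ext x
    rw [Finset.mem_filter, Finset.mem_singleton]
    rcases cls x with ⟨hx, fx⟩ | ⟨hx, hx2, hx3, hx4, fx⟩ | ⟨hx, hx2, hx3, hx4, fx⟩ |
      ⟨hx, hx2, hx3, fx⟩ | ⟨hx, hx2, hx3, fx⟩ <;> rw [fx]
    · have : x ≠ q := by rw [hx]; exact hqp.symm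
      simp [this]
    · simp [hx4]
    · simp [hx4]
    · have : x ≠ q := by rintro rfl; exact hx2 hq
      simp [this]
    · have : x ≠ q := by rintro rfl; exact hx2 hq
      simp [this]
  · congr 1
    ext x
    rw [Finset.mem_filter, Finset.mem_filter]
    rcases cls x with ⟨hx, fx⟩ | ⟨hx, hx2, hx3, hx4, fx⟩ | ⟨hx, hx2, hx3, hx4, fx⟩ |
      ⟨hx, hx2, hx3, fx⟩ | ⟨hx, hx2, hx3, fx⟩ <;> rw [fx]
    · simp [hx]
    · simp [hx4]
    · simp [hx, hx2, hx4]
    · simp [hx2]
    · simp [hx2]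
  · obtain ⟨v, hv1, hv2, hv3⟩ := h3
    refine Finset.card_pos.2 ⟨v, ?_⟩
    rw [Finset.mem_filter]
    refine ⟨Finset.mem_univ _, ?_⟩
    simp only [f]; rw [if_neg hv2, if_neg hv1, if_pos hv3]
  · obtain ⟨v, hv1, hv2, hv3⟩ := h4
    refine Finset.card_pos.2 ⟨v, ?_⟩
    rw [Finset.mem_filter]
    refine ⟨Finset.mem_univ _, ?_⟩
    simp only [f]; rw [if_neg hv2, if_neg hv1, if_neg hv3]

/-- Case II: one exceptional vertex of small degree -/
theorem caseII (H : SimpleGraph V) (A : Finset V) (p : V) (hC : Crit H)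
    (hn : (10 : ℝ) ^ 6 ≤ (Fintype.card V : ℝ))
    (hty : ∀ v, v ≠ p → (mis H A v : ℝ) ≤ (Fintype.card V : ℝ) / 100)
    (hsz : ∀ v, (49 / 100 : ℝ) * (Fintype.card V : ℝ) ≤ (opp A v : ℝ) ∧
      (opp A v : ℝ) ≤ (51 / 100 : ℝ) * (Fintype.card V : ℝ))
    (hint : ∀ x y, same A x y → H.Adj x y → x = p ∨ y = p)
    (hI : (inn H A p : ℝ) ≤ (Fintype.card V : ℝ) / 100)
    (hB : (crs H A p : ℝ) ≤ (Fintype.card V : ℝ) / 100)
    (hnb : ∀ A' : Finset V, ∃ x y, same A' x y ∧ H.Adj x y) : Concl H := by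
  obtain ⟨⟨a1, ha1, hpa1⟩, ⟨b1, hb1, hpb1⟩⟩ := cross_ex H A p hint hnb
  have hno : ∀ a b, same A p a → H.Adj p a → ¬ same A p b → H.Adj p b → ¬ H.Adj a b :=
    fun a b h1 h2 h3 h4 => no_cross H A p hC hn hty hsz hint h1 h2 h3 h4
  obtain ⟨hE, hN⟩ := count_main H A p hint
  set A2 := (univ : Finset V).filter (fun v => same A p v ∧ v ≠ p) with hA2
  have hmemA2 : ∀ v, v ∈ A2 ↔ same A p v ∧ v ≠ p := fun v => by
    rw [hA2, Finset.mem_filter]; simp
  have hIA : A2.filter (fun v => H.Adj p v) =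
      (univ : Finset V).filter (fun w => same A p w ∧ H.Adj p w) := by
    ext v
    rw [Finset.mem_filter, hmemA2, Finset.mem_filter]
    constructor
    · rintro ⟨⟨h1, -⟩, h3⟩; exact ⟨Finset.mem_univ _, h1, h3⟩
    · rintro ⟨-, h1, h3⟩; exact ⟨⟨h1, h3.ne'⟩, h3⟩
  have hg : ∀ v ∈ A2, (if H.Adj p v then crs H A p else 0) ≤ mis H A v := by
    intro v hv
    rw [hmemA2] at hv
    split_ifs with h
    · exact (mis_ge H A p hno v hv.1 h).1
    · exact Nat.zero_le _
  have hsumg : ∑ v ∈ A2, (if H.Adj p v then crs H A p else 0) = inn H A p * crs H A p := by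
    rw [← Finset.sum_filter, Finset.sum_const, smul_eq_mul, hIA]
    rfl
  have hS : inn H A p * crs H A p ≤ ∑ v ∈ A2, mis H A v := by
    rw [← hsumg]; exact Finset.sum_le_sum hg
  have hr : 1 ≤ inn H A p := Finset.card_pos.2 ⟨a1, by
    rw [Finset.mem_filter]; exact ⟨Finset.mem_univ _, ha1, hpa1⟩⟩
  have hs : 1 ≤ crs H A p := Finset.card_pos.2 ⟨b1, by
    rw [Finset.mem_filter]; exact ⟨Finset.mem_univ _, hb1, hpb1⟩⟩
  have ha : 1 ≤ A2.card := Finset.card_pos.2 ⟨a1, (hmemA2 a1).2 ⟨ha1, hpa1.ne'⟩⟩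
  have hb : 1 ≤ opp A p := Finset.card_pos.2 ⟨b1, by
    rw [Finset.mem_filter]; exact ⟨Finset.mem_univ _, hb1⟩⟩
  have har1 := arith (Fintype.card V) A2.card (opp A p) (by omega) ha hb
  have har2 := arith (Fintype.card V) (opp A p) A2.card (by omega) hb ha
  obtain ⟨hle, heq⟩ := nat_aux hE (opp_eq H A p) hS hr hs har1.1
  refine ⟨hle, fun hEq => ?_⟩
  obtain ⟨hS', hab, hrs⟩ := heq hEq
  have hall := (Finset.sum_eq_sum_iff_of_le hg).1 (by rw [hsumg, hS'])
  have T0 : ∀ v, same A p v → v ≠ p → ∀ w, ¬ same A p w →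
      (H.Adj v w ↔ ¬ (H.Adj p v ∧ H.Adj p w)) := by
    intro v hv hvp w hw
    have h1 := hall v ((hmemA2 v).2 ⟨hv, hvp⟩)
    by_cases hpv : H.Adj p v
    · rw [if_pos hpv] at h1
      have h2 := (mis_ge H A p hno v hv hpv).2 h1.symm w hw
      rw [h2]; simp [hpv]
    · rw [if_neg hpv] at h1
      have h2 : H.Adj v w := by
        by_contra hnot
        have h3 : w ∈ (univ : Finset V).filter (fun w => ¬ same A v w ∧ ¬ H.Adj v w) := by
          rw [Finset.mem_filter]
          exact ⟨Finset.mem_univ _, fun h => hw (same_trans' hv h), hnot⟩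
        have h4 : 0 < mis H A v := Finset.card_pos.2 ⟨w, h3⟩
        omega
      simp [h2, hpv]
  have T1 : ∀ x y, same A p x → same A p y → x ≠ p → y ≠ p → ¬ H.Adj x y := by
    intro x y hx hy hxp hyp h
    rcases hint x y (same_trans' (same_symm' hx) hy) h with h | h
    · exact hxp h
    · exact hyp h
  have T2 : ∀ x y, ¬ same A p x → ¬ same A p y → x ≠ p → y ≠ p → ¬ H.Adj x y := by
    intro x y hx hy hxp hyp h
    rcases hint x y (nsame_trans hx hy) h with h | h
    · exact hxp h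
    · exact hyp h
  have hnepB : ∀ y, ¬ same A p y → y ≠ p := by
    rintro y hy rfl
    exact hy Iff.rfl
  have hN' : (1000000 : ℝ) ≤ (Fintype.card V : ℝ) := le_trans (by norm_num) hn
  -- non-neighbours of `p` on both sides
  have hx1 : ∃ v, ¬ same A p v ∧ v ≠ p ∧ ¬ H.Adj p v := by
    by_contra hcon
    push Not at hcon
    have h1 : opp A p ≤ crs H A p := by
      refine Finset.card_le_card ?_
      intro w hw
      rw [Finset.mem_filter] at hw ⊢
      exact ⟨hw.1, hw.2, hcon w hw.2 (hnepB w hw.2)⟩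
    have h2 : (opp A p : ℝ) ≤ (crs H A p : ℝ) := by exact_mod_cast h1
    have h3 := (hsz p).1
    linarith
  have hx2 : ∃ v, same A p v ∧ v ≠ p ∧ ¬ H.Adj p v := by
    by_contra hcon
    push Not at hcon
    have h1 : A2.card ≤ inn H A p := by
      refine Finset.card_le_card ?_
      intro w hw
      rw [hmemA2] at hw
      rw [Finset.mem_filter]
      exact ⟨Finset.mem_univ _, hw.1, hcon w hw.1 hw.2⟩
    have h2 : (A2.card : ℝ) ≤ (inn H A p : ℝ) := by exact_mod_cast h1
    have h3 := (hsz p).2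
    have h4 : (A2.card : ℝ) + 1 + (opp A p : ℝ) = (Fintype.card V : ℝ) := by exact_mod_cast hN
    linarith
  rcases hrs with hr1 | hs1
  · obtain ⟨q, hq⟩ := Finset.card_eq_one.1 hr1
    have hqm : ∀ v, (same A p v ∧ H.Adj p v) ↔ v = q := by
      intro v
      have := Finset.ext_iff.1 hq v
      rw [Finset.mem_filter, Finset.mem_singleton] at this
      rw [← this]; simp
    have hq1 := (hqm q).2 rfl
    obtain ⟨f, f1, f2, f3, f4, f5, f6⟩ := build H p q (fun v => same A p v) hq1.1 hq1.2.ne' hq1.2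
      (fun v h1 _ h3 => (hqm v).1 ⟨h1, h3⟩) T1 T2
      (fun x y h1 h2 h3 _ => T0 x h1 h2 y h3) ⟨b1, hb1, hnepB b1 hb1, hpb1⟩ hx1
    refine ⟨f, f1, f2, f3, ?_, f5, f6⟩
    have hcard : ((univ : Finset V).filter (fun v => same A p v ∧ v ≠ p ∧ v ≠ q)).card =
        A2.card - 1 := by
      have : (univ : Finset V).filter (fun v => same A p v ∧ v ≠ p ∧ v ≠ q) = A2.erase q := by
        ext v
        rw [Finset.mem_filter, Finset.mem_erase, hmemA2]
        simp only [Finset.mem_univ, true_and]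
        tauto
      rw [this, Finset.card_erase_of_mem ((hmemA2 q).2 ⟨hq1.1, hq1.2.ne'⟩)]
    have f4' : ((univ : Finset V).filter (fun x => f x = 1)).card = A2.card - 1 :=
      f4.trans (by convert hcard)
    rw [f4']
    exact har1.2 hab
  · obtain ⟨q, hq⟩ := Finset.card_eq_one.1 hs1
    have hqm : ∀ v, (¬ same A p v ∧ H.Adj p v) ↔ v = q := by
      intro v
      have := Finset.ext_iff.1 hq v
      rw [Finset.mem_filter, Finset.mem_singleton] at this
      rw [← this]; simp
    have hq1 := (hqm q).2 rfl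
    obtain ⟨f, f1, f2, f3, f4, f5, f6⟩ := build H p q (fun v => ¬ same A p v) hq1.1 hq1.2.ne' hq1.2
      (fun v h1 _ h3 => (hqm v).1 ⟨h1, h3⟩) T2
      (fun x y h1 h2 => T1 x y (not_not.1 h1) (not_not.1 h2))
      (fun x y h1 h2 h3 h4 => by
        rw [H.adj_comm x y, T0 y (not_not.1 h3) h4 x h1, and_comm])
      ⟨a1, not_not.2 ha1, hpa1.ne', hpa1⟩
      (by obtain ⟨v, h1, h2, h3⟩ := hx2; exact ⟨v, not_not.2 h1, h2, h3⟩)
    refine ⟨f, f1, f2, f3, ?_, f5, f6⟩
    have hcard : ((univ : Finset V).filter (fun v => ¬ same A p v ∧ v ≠ p ∧ v ≠ q)).card =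
        opp A p - 1 := by
      have : (univ : Finset V).filter (fun v => ¬ same A p v ∧ v ≠ p ∧ v ≠ q) =
          ((univ : Finset V).filter (fun w => ¬ same A p w)).erase q := by
        ext v
        rw [Finset.mem_filter, Finset.mem_erase, Finset.mem_filter]
        have := hnepB v
        simp only [Finset.mem_univ, true_and]
        tauto
      rw [this, Finset.card_erase_of_mem (by
        rw [Finset.mem_filter]; exact ⟨Finset.mem_univ _, hq1.1⟩)]
      rfl
    have f4' : ((univ : Finset V).filter (fun x => f x = 1)).card = opp A p - 1 :=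
      f4.trans (by convert hcard)
    rw [f4']
    exact har2.2 (by rw [mul_comm]; exact hab)


end Pool.Agent.Helper254.MS
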