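import Pool.Agent.Helper254.MS.B4

set_option autoImplicit false

open Finset Classical

namespace Pool.Agent.Helper254.MS

variable {V : Type} [Fintype V]

theorem same_nn8363 (A : Finset V) (p b c : V) (h1 : ¬ same A p b) (h2 : ¬ same A p c) : same A b c := by
  unfold same at *; tauto

omit [Fintype V] in
theorem uc_symm8363 (H : SimpleGraph V) (u v b : V) (h : UC H u v b) : UC H b v u := by
  obtain ⟨h1, h2, h3, h4, h5⟩ := h
  exact ⟨h1.symm, fun h => h2 h.symm, h4.symm, h3.symm, fun x hx hy => h5 x hy hx⟩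

theorem key8363 (H : SimpleGraph V) (A : Finset V) (p q : V)
    (hn : (10 : ℝ) ^ 6 ≤ (Fintype.card V : ℝ))
    (hty : ∀ v, v ≠ p → v ≠ q → (mis H A v : ℝ) ≤ (Fintype.card V : ℝ) / 1000)
    (hsz : ∀ v, (49 / 100 : ℝ) * (Fintype.card V : ℝ) ≤ (opp A v : ℝ) ∧
      (opp A v : ℝ) ≤ (51 / 100 : ℝ) * (Fintype.card V : ℝ))
    (hBp : (Fintype.card V : ℝ) / 200 ≤ (crs H A p : ℝ))
    (hBq : (Fintype.card V : ℝ) / 200 ≤ (crs H A q : ℝ))
    (u v b : V) (huc : UC H u v b) (hs : same A u b) : b = p ∨ b = q := by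
  by_contra hcon
  push Not at hcon
  have h1 := hty b hcon.1 hcon.2
  have h2 : (opp A u : ℝ) = (mis H A u : ℝ) + (crs H A u : ℝ) := by
    rw [opp_eq H A u]; push_cast; rfl
  have h3 : (Fintype.card V : ℝ) / 200 ≤ (crs H A u : ℝ) := by
    by_cases hup : u = p
    · rw [hup]; exact hBp
    by_cases huq : u = q
    · rw [huq]; exact hBq
    have h4 := hty u hup huq
    have h5 := (hsz u).1
    linarith
  have h4 := common_opp H A u b hs
  have h5 : ((univ : Finset V).filter (fun x => ¬ same A u x ∧ H.Adj u x ∧ H.Adj b x)).card ≤ 1 := by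
    rw [Finset.card_le_one]
    intro x hx y hy
    rw [Finset.mem_filter] at hx hy
    rw [huc.2.2.2.2 x hx.2.2.1 hx.2.2.2, huc.2.2.2.2 y hy.2.2.1 hy.2.2.2]
  have h6 : (((univ : Finset V).filter (fun x => ¬ same A u x ∧ H.Adj u x ∧ H.Adj b x)).card : ℝ) ≤ 1 := by
    exact_mod_cast h5
  have e6 : (10 : ℝ) ^ 6 = 1000000 := by norm_num
  rw [e6] at hn
  linarith



/-- Case I, step 1: vertices on the side of `p,q` are not adjacent to `p` -/
theorem caseI_noadj (H : SimpleGraph V) (A : Finset V) (p q : V) (hC : Crit H)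
    (hn : (10 : ℝ) ^ 6 ≤ (Fintype.card V : ℝ)) (hpq : p ≠ q) (hs : same A p q)
    (hty : ∀ v, v ≠ p → v ≠ q → (mis H A v : ℝ) ≤ (Fintype.card V : ℝ) / 1000)
    (hsz : ∀ v, (49 / 100 : ℝ) * (Fintype.card V : ℝ) ≤ (opp A v : ℝ) ∧
      (opp A v : ℝ) ≤ (51 / 100 : ℝ) * (Fintype.card V : ℝ))
    (hint : ∀ x y, same A x y → H.Adj x y → x = p ∨ x = q ∨ y = p ∨ y = q)
    (hBp : (Fintype.card V : ℝ) / 200 ≤ (crs H A p : ℝ))
    (hBq : (Fintype.card V : ℝ) / 200 ≤ (crs H A q : ℝ))
    (a : V) (hap : a ≠ p) (haq : a ≠ q) (hsa : same A p a) : ¬ H.Adj p a := by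
  have hK := key8363 H A p q hn hty hsz hBp hBq
  have hK' : ∀ u v b, UC H u v b → same A u b → (u = p ∨ u = q) := fun u v b h hs =>
    hK b v u (uc_symm8363 H u v b h) hs.symm
  -- adjacency inside the opposite side is impossible
  have hB : ∀ b c, ¬ same A p b → ¬ same A p c → ¬ H.Adj b c := by
    intro b c hb hc hbc
    have hbc' : same A b c := same_nn8363 A p b c hb hc
    rcases hint b c hbc' hbc with h | h | h | h
    · exact hb (by rw [h]; exact Iff.rfl)
    · exact hb (by rw [h]; exact hs)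
    · exact hc (by rw [h]; exact Iff.rfl)
    · exact hc (by rw [h]; exact hs)
  have hF : ∀ a b, a ≠ p → a ≠ q → same A p a → H.Adj p a → ¬ same A p b → H.Adj p b → H.Adj a b →
      H.Adj q a ∧ ¬ H.Adj q b ∧ ∀ x, H.Adj b x → H.Adj q x → x = a := by
    intro a b hap haq hsa hpa hsb hpb hab
    rcases hC a b hab ⟨p, hpa.symm, hpb.symm⟩ with ⟨c, hc⟩ | ⟨c, hc⟩
    · exfalso
      by_cases hsc : same A p c
      · have h1 : same A a c := hsa.symm.trans hsc
        rcases hK' a b c hc h1 with h | h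
        · exact hap h
        · exact haq h
      · exact hB b c hsb hsc hc.2.2.2.1
    · by_cases hsc : same A p c
      · have h1 : same A a c := hsa.symm.trans hsc
        rcases hint a c h1 hc.2.2.2.1 with h | h | h | h
        · exact absurd h hap
        · exact absurd h haq
        · exfalso
          apply hc.2.1
          rw [h]; exact hpb.symm
        · subst h
          exact ⟨hc.2.2.2.1.symm, fun h => hc.2.1 h.symm, hc.2.2.2.2⟩
      · exfalso
        have h1 : same A b c := same_nn8363 A p b c hsb hsc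
        rcases hK' b a c hc h1 with h | h
        · exact hsb (by rw [h]; exact Iff.rfl)
        · exact hsb (by rw [h]; exact hs)
  -- a common neighbour of `p` and `a` on the opposite side
  have hex : ∀ a, a ≠ p → a ≠ q → same A p a →
      ∃ b, ¬ same A p b ∧ H.Adj p b ∧ H.Adj a b := by
    intro a hap haq hsa
    by_contra hcon
    push Not at hcon
    have h1 := common_opp H A p a hsa
    have h2 : (opp A p : ℝ) = (mis H A p : ℝ) + (crs H A p : ℝ) := by
      rw [opp_eq H A p]; push_cast; rfl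
    have h3 := hty a hap haq
    have h4 : (univ : Finset V).filter (fun b => ¬ same A p b ∧ H.Adj p b ∧ H.Adj a b) = ∅ := by
      rw [Finset.filter_eq_empty_iff]
      rintro b - ⟨x1, x2, x3⟩
      exact hcon b x1 x2 x3
    rw [h4, Finset.card_empty, Nat.cast_zero] at h1
    have e6 : (10 : ℝ) ^ 6 = 1000000 := by norm_num
    rw [e6] at hn
    linarith
  intro hpa
  obtain ⟨b, hsb, hpb, hab⟩ := hex a hap haq hsa
  obtain ⟨hqa, hqb, huniq⟩ := hF a b hap haq hsa hpa hsb hpb hab
  have honly : ∀ a2, a2 ≠ p → a2 ≠ q → same A p a2 → H.Adj p a2 → a2 = a := by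
    intro a2 h2p h2q hs2 hp2
    by_contra hne
    obtain ⟨b2, hsb2, hpb2, hab2⟩ := hex a2 h2p h2q hs2
    have hq2 : H.Adj q a2 := (hF a2 b2 h2p h2q hs2 hp2 hsb2 hpb2 hab2).1
    have hsub : (univ : Finset V).filter (fun w => ¬ same A p w ∧ H.Adj p w) ⊆
        (univ : Finset V).filter (fun w => ¬ same A a w ∧ ¬ H.Adj a w) ∪
        (univ : Finset V).filter (fun w => ¬ same A a2 w ∧ ¬ H.Adj a2 w) := by
      intro w hw
      rw [Finset.mem_filter] at hw
      obtain ⟨-, hw1, hw2⟩ := hw
      have e1 : ¬ same A a w := fun h => hw1 (hsa.trans h)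
      have e2 : ¬ same A a2 w := fun h => hw1 (hs2.trans h)
      rw [Finset.mem_union, Finset.mem_filter, Finset.mem_filter]
      by_cases haw : H.Adj a w
      · right
        refine ⟨Finset.mem_univ _, e2, fun ha2w => ?_⟩
        exact hne ((hF a w hap haq hsa hpa hw1 hw2 haw).2.2 a2 ha2w.symm hq2)
      · left
        exact ⟨Finset.mem_univ _, e1, haw⟩
    have hcard : crs H A p ≤ mis H A a + mis H A a2 :=
      (Finset.card_le_card hsub).trans (Finset.card_union_le _ _)
    have hcard' : (crs H A p : ℝ) ≤ (mis H A a : ℝ) + (mis H A a2 : ℝ) := by exact_mod_cast hcard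
    have t1 := hty a hap haq
    have t2 := hty a2 h2p h2q
    have e6 : (10 : ℝ) ^ 6 = 1000000 := by norm_num
    rw [e6] at hn
    linarith
  rcases hC p b hpb ⟨a, hpa, hab.symm⟩ with ⟨c, hc⟩ | ⟨c, hc⟩
  · by_cases hsc : same A p c
    · rcases hK p b c hc hsc with h | h
      · exact hc.1 h
      · apply hqb
        rw [← h]
        exact hc.2.2.2.1.symm
    · exact hB b c hsb hsc hc.2.2.2.1
  · by_cases hsc : same A p c
    · have hpc := hc.2.2.2.1
      by_cases hcq : c = q
      · rw [hcq] at hpc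
        exact hap (huniq p hpb.symm hpc.symm).symm
      · have hcp : c ≠ p := fun h => H.loopless.irrefl p (by rw [h] at hpc; exact hpc)
        have := honly c hcp hcq hsc hpc
        rw [this] at hc
        exact hc.2.1 hab.symm
    · have h1 : same A b c := same_nn8363 A p b c hsb hsc
      rcases hK' b p c hc h1 with h | h
      · exact hsb (by rw [h]; exact Iff.rfl)
      · exact hsb (by rw [h]; exact hs)


end Pool.Agent.Helper254.MS
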