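import Pool.Agent.Helper254.MS.B4
import Pool.Agent.Helper254.MS.C1
import Pool.Agent.Helper254.MS.C3

set_option autoImplicit false

open Finset Classical

namespace Pool.Agent.Helper254.MS

variable {V : Type} [Fintype V]

theorem same_symm' (A : Finset V) (x y : V) (h : same A x y) : same A y x := Iff.symm h

theorem same_trans' (A : Finset V) (x y z : V) (h : same A x y) (h' : same A y z) : same A x z :=
  Iff.trans h h'

theorem nsame_same' (A : Finset V) (p b c : V) (hb : ¬ same A p b) (hc : ¬ same A p c) :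
    same A b c := by
  unfold same at *; tauto

theorem caseI_only (H : SimpleGraph V) (A : Finset V) (p q : V) (hC : Crit H)
    (hn : (10 : ℝ) ^ 6 ≤ (Fintype.card V : ℝ)) (hpq : p ≠ q) (hs : same A p q)
    (hty : ∀ v, v ≠ p → v ≠ q → (mis H A v : ℝ) ≤ (Fintype.card V : ℝ) / 1000)
    (hsz : ∀ v, (49 / 100 : ℝ) * (Fintype.card V : ℝ) ≤ (opp A v : ℝ) ∧
      (opp A v : ℝ) ≤ (51 / 100 : ℝ) * (Fintype.card V : ℝ))
    (hint : ∀ x y, same A x y → H.Adj x y → x = p ∨ x = q ∨ y = p ∨ y = q)
    (hBp : (Fintype.card V : ℝ) / 200 ≤ (crs H A p : ℝ))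
    (hBq : (Fintype.card V : ℝ) / 200 ≤ (crs H A q : ℝ))
    (x y : V) (hxy : same A x y) (h : H.Adj x y) : (x = p ∧ y = q) ∨ (x = q ∧ y = p) := by
  have h1 : ∀ a, same A p a → H.Adj p a → a = q := by
    intro a ha hpa
    by_contra hne
    exact caseI_noadj H A p q hC hn hpq hs hty hsz hint hBp hBq a hpa.ne' hne ha hpa
  have h2 : ∀ a, same A q a → H.Adj q a → a = p := by
    intro a ha hqa
    by_contra hne
    refine caseI_noadj H A q p hC hn hpq.symm hs.symm (fun v h1 h2 => hty v h2 h1) hsz
      (fun x y h1 h2 => ?_) hBq hBp a hqa.ne' hne ha hqa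
    rcases hint x y h1 h2 with h | h | h | h <;> simp [h]
  rcases hint x y hxy h with rfl | rfl | rfl | rfl
  · exact Or.inl ⟨rfl, h1 y hxy h⟩
  · exact Or.inr ⟨rfl, h2 y hxy h⟩
  · exact Or.inr ⟨h1 x hxy.symm h.symm, rfl⟩
  · exact Or.inl ⟨h2 x hxy.symm h.symm, rfl⟩

theorem caseI_nob (H : SimpleGraph V) (A : Finset V) (p q : V) (hC : Crit H)
    (hn : (10 : ℝ) ^ 6 ≤ (Fintype.card V : ℝ)) (hs : same A p q)
    (hty : ∀ v, v ≠ p → v ≠ q → (mis H A v : ℝ) ≤ (Fintype.card V : ℝ) / 1000)
    (hsz : ∀ v, (49 / 100 : ℝ) * (Fintype.card V : ℝ) ≤ (opp A v : ℝ) ∧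
      (opp A v : ℝ) ≤ (51 / 100 : ℝ) * (Fintype.card V : ℝ))
    (hBp : (Fintype.card V : ℝ) / 200 ≤ (crs H A p : ℝ))
    (honly : ∀ x y, same A x y → H.Adj x y → (x = p ∧ y = q) ∨ (x = q ∧ y = p))
    (hadj : H.Adj p q) (b : V) (hb : ¬ same A p b) (hpb : H.Adj p b) (hqb : H.Adj q b) :
    False := by
  have hbp : b ≠ p := hpb.ne'
  have hbq : b ≠ q := hqb.ne'
  have hle1 : ∀ (s : Finset V) (z : V), (∀ x ∈ s, x = z) → (s.card : ℝ) ≤ 1 := by
    intro s z h
    have : s.card ≤ 1 := Finset.card_le_one.2 fun a ha c hc => (h a ha).trans (h c hc).symm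
    exact_mod_cast this
  rcases hC p b hpb ⟨q, hadj, hqb.symm⟩ with ⟨c, hc1, hc2, -, hc4, hc5⟩ | ⟨c, hc1, hc2, -, hc4, hc5⟩
  · by_cases hsc : same A p c
    · have hcq : c ≠ q := by rintro rfl; exact hc2 hadj
      have h1 := common_opp H A p c hsc
      have h2 := hle1 ((univ : Finset V).filter (fun z => ¬ same A p z ∧ H.Adj p z ∧ H.Adj c z)) b
        (fun x hx => by
          rw [Finset.mem_filter] at hx
          exact hc5 x hx.2.2.1 hx.2.2.2)
      have h3 := opp_eq H A p
      have h3' : (opp A p : ℝ) = mis H A p + crs H A p := by exact_mod_cast h3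
      have h4 := hty c hc1 hcq
      linarith
    · have hbc : same A b c := nsame_same' A p b c hb hsc
      rcases honly b c hbc hc4 with ⟨h, -⟩ | ⟨h, -⟩
      · exact hbp h
      · exact hbq h
  · by_cases hsc : same A p c
    · rcases honly p c hsc hc4 with ⟨-, h⟩ | ⟨-, h⟩
      · rw [h] at hc2; exact hc2 hqb.symm
      · rw [h] at hc4; exact H.irrefl hc4
    · have hbc : same A b c := nsame_same' A p b c hb hsc
      have hcp : c ≠ p := by rintro rfl; exact hsc Iff.rfl
      have hcq : c ≠ q := by rintro rfl; exact hsc hs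
      have h1 := common_opp H A b c hbc
      have h2 := hle1 ((univ : Finset V).filter (fun z => ¬ same A b z ∧ H.Adj b z ∧ H.Adj c z)) p
        (fun x hx => by
          rw [Finset.mem_filter] at hx
          exact hc5 x hx.2.2.1 hx.2.2.2)
      have h3 := (hsz b).1
      have h4 := hty c hcp hcq
      have h5 := hty b hbp hbq
      linarith

/-- Case I -/
theorem caseI (H : SimpleGraph V) (A : Finset V) (p q : V) (hC : Crit H)
    (hn : (10 : ℝ) ^ 6 ≤ (Fintype.card V : ℝ)) (hpq : p ≠ q) (hs : same A p q)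
    (hty : ∀ v, v ≠ p → v ≠ q → (mis H A v : ℝ) ≤ (Fintype.card V : ℝ) / 1000)
    (hsz : ∀ v, (49 / 100 : ℝ) * (Fintype.card V : ℝ) ≤ (opp A v : ℝ) ∧
      (opp A v : ℝ) ≤ (51 / 100 : ℝ) * (Fintype.card V : ℝ))
    (hint : ∀ x y, same A x y → H.Adj x y → x = p ∨ x = q ∨ y = p ∨ y = q)
    (hBp : (Fintype.card V : ℝ) / 200 ≤ (crs H A p : ℝ))
    (hBq : (Fintype.card V : ℝ) / 200 ≤ (crs H A q : ℝ))
    (hnb : ∃ x y, same A x y ∧ H.Adj x y) : Concl H := by
  have honly := caseI_only H A p q hC hn hpq hs hty hsz hint hBp hBq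
  have hadj : H.Adj p q := by
    obtain ⟨x, y, hxy, h⟩ := hnb
    rcases honly x y hxy h with ⟨rfl, rfl⟩ | ⟨rfl, rfl⟩
    · exact h
    · exact h.symm
  have hnob := caseI_nob H A p q hC hn hs hty hsz hBp honly hadj
  set n := Fintype.card V with hndef
  set S := (univ : Finset V).filter (fun w => same A p w) with hS
  set B := (univ : Finset V).filter (fun w => ¬ same A p w) with hB
  have hSB : S.card + B.card = n := by
    rw [hS, hB, Finset.card_filter_add_card_filter_not]; rfl
  have hoppB : opp A p = B.card := rfl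
  -- sizes
  have hBpos : 1 ≤ B.card := by
    have := (hsz p).1
    rw [hoppB] at this
    have h : (0 : ℝ) < B.card := by nlinarith
    exact_mod_cast h
  have hS2 : 2 ≤ S.card := by
    have : ({p, q} : Finset V) ⊆ S := by
      intro x hx
      simp only [Finset.mem_insert, Finset.mem_singleton] at hx
      rw [hS, Finset.mem_filter]
      rcases hx with rfl | rfl
      · exact ⟨Finset.mem_univ _, Iff.rfl⟩
      · exact ⟨Finset.mem_univ _, hs⟩
    calc 2 = ({p, q} : Finset V).card := (Finset.card_pair hpq).symm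
      _ ≤ S.card := Finset.card_le_card this
  have hprod : (A.card : ℝ) * ((n : ℝ) - (A.card : ℝ)) = (S.card : ℝ) * (B.card : ℝ) := by
    have hn' : (n : ℝ) = S.card + B.card := by rw [← hSB]; push_cast; ring
    by_cases hp : p ∈ A
    · have : S = A := by
        ext x; rw [hS, Finset.mem_filter]; unfold same; simp [hp]
      rw [← this, hn']; ring
    · have : B = A := by
        ext x; rw [hB, Finset.mem_filter]; unfold same; simp [hp]
      rw [← this, hn']; ring
  -- In2 = 2
  have hIn : In2 H A = 2 := by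
    rw [in2_card]
    have : ((univ : Finset (V × V)).filter (fun r => same A r.1 r.2 ∧ H.Adj r.1 r.2)) =
        {(p, q), (q, p)} := by
      ext ⟨x, y⟩
      simp only [Finset.mem_filter, Finset.mem_univ, true_and, Finset.mem_insert,
        Finset.mem_singleton, Prod.mk.injEq]
      constructor
      · rintro ⟨h1, h2⟩; exact honly x y h1 h2
      · rintro (⟨rfl, rfl⟩ | ⟨rfl, rfl⟩)
        · exact ⟨hs, hadj⟩
        · exact ⟨hs.symm, hadj.symm⟩
    rw [this, Finset.card_pair]
    intro h
    exact hpq (Prod.mk.inj h).1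
  -- Miss2
  have hMiss : Miss2 H A = 2 * ∑ b ∈ B, mis H A b := by
    have e1 : Miss2 H A = ∑ v ∈ S, mis H A v + ∑ b ∈ B, mis H A b := by
      unfold Miss2
      rw [hS, hB]
      exact (Finset.sum_filter_add_sum_filter_not univ (fun w => same A p w) _).symm
    have e2 : ∑ v ∈ S, mis H A v = ∑ b ∈ B, mis H A b := by
      have e3 : ∀ v ∈ S, mis H A v = (B.filter (fun w => ¬ H.Adj v w)).card := by
        intro v hv
        rw [hS, Finset.mem_filter] at hv
        unfold mis
        congr 1
        ext w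
        rw [hB]
        simp only [Finset.mem_filter, Finset.mem_univ, true_and]
        have h := hv.2
        unfold same at *
        tauto
      have e4 : ∀ v ∈ B, mis H A v = (S.filter (fun w => ¬ H.Adj w v)).card := by
        intro v hv
        rw [hB, Finset.mem_filter] at hv
        unfold mis
        congr 1
        ext w
        rw [hS]
        simp only [Finset.mem_filter, Finset.mem_univ, true_and]
        have h := hv.2
        rw [H.adj_comm v w]
        unfold same at *
        tauto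
      rw [Finset.sum_congr rfl e3, Finset.sum_congr rfl e4]
      exact Finset.sum_card_bipartiteAbove_eq_sum_card_bipartiteBelow (fun a b => ¬ H.Adj a b)
    rw [e1, e2]; ring
  have hmis1 : ∀ b ∈ B, 1 ≤ mis H A b := by
    intro b hb
    rw [hB, Finset.mem_filter] at hb
    have hex : ∃ w, ¬ same A b w ∧ ¬ H.Adj b w := by
      by_cases h : H.Adj p b
      · refine ⟨q, ?_, fun h' => hnob b hb.2 h h'.symm⟩
        have := hb.2
        unfold same at *; tauto
      · refine ⟨p, ?_, fun h' => h h'.symm⟩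
        have := hb.2
        unfold same at *; tauto
    obtain ⟨w, hw⟩ := hex
    unfold mis
    exact Finset.card_pos.2 ⟨w, by simpa using hw⟩
  have hsum : B.card ≤ ∑ b ∈ B, mis H A b := by
    calc B.card = ∑ b ∈ B, 1 := by simp
      _ ≤ _ := Finset.sum_le_sum hmis1
  have hedge : E2 H + 2 * ∑ b ∈ B, mis H A b = 2 * (S.card * B.card) + 2 := by
    have h := edge_count H A
    rw [hIn, hMiss, mul_assoc 2 (A.card : ℝ), ← hndef, hprod] at h
    have h' : ((E2 H + 2 * ∑ b ∈ B, mis H A b : ℕ) : ℝ) = ((2 * (S.card * B.card) + 2 : ℕ) : ℝ) := by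
      push_cast
      push_cast at h
      linarith
    exact_mod_cast h'
  obtain ⟨a, ha⟩ : ∃ a, S.card = a + 1 := ⟨S.card - 1, by omega⟩
  have ha1 : 1 ≤ a := by omega
  obtain ⟨har1, har2⟩ := arith n a B.card (by omega) ha1 hBpos
  have hSBm : S.card * B.card = a * B.card + B.card := by rw [ha]; ring
  refine ⟨by rw [← hndef]; omega, fun heq => ?_⟩
  rw [← hndef] at heq
  have hab : a * B.card = (n - 1) ^ 2 / 4 := by omega
  have hsumeq : ∑ b ∈ B, mis H A b = B.card := by omega
  have hmiseq : ∀ b ∈ B, mis H A b = 1 := by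
    have h1 : ∑ b ∈ B, 1 = ∑ b ∈ B, mis H A b := by rw [hsumeq]; simp
    intro b hb
    exact ((Finset.sum_eq_sum_iff_of_le hmis1).1 h1 b hb).symm
  -- structure
  have huniq : ∀ b, ¬ same A p b → ∀ w w', ¬ same A b w → ¬ H.Adj b w → ¬ same A b w' →
      ¬ H.Adj b w' → w = w' := by
    intro b hb w w' h1 h2 h3 h4
    have h := hmiseq b (by rw [hB, Finset.mem_filter]; exact ⟨Finset.mem_univ _, hb⟩)
    unfold mis at h
    exact Finset.card_le_one.1 h.le w (by simp [h1, h2]) w' (by simp [h3, h4])
  have hnbp : ∀ b, ¬ same A p b → ¬ same A b p := by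
    intro b hb; unfold same at *; tauto
  have hnba : ∀ b, ¬ same A p b → ∀ a, same A p a → ¬ same A b a := by
    intro b hb a ha; unfold same at *; tauto
  have hBq' : ∀ b, ¬ same A p b → (H.Adj q b ↔ ¬ H.Adj p b) := by
    intro b hb
    constructor
    · intro h h'; exact hnob b hb h' h
    · intro h
      by_contra h'
      exact hpq (huniq b hb p q (hnbp b hb) (fun h1 => h h1.symm) (hnba b hb q hs)
        (fun h1 => h' h1.symm))
  have hBA : ∀ b, ¬ same A p b → ∀ a, a ≠ p → a ≠ q → same A p a → H.Adj b a := by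
    intro b hb a hap haq hsa
    by_contra h
    by_cases hp : H.Adj p b
    · have hq : ¬ H.Adj b q := fun h' => hnob b hb hp h'.symm
      exact haq (huniq b hb a q (hnba b hb a hsa) h (hnba b hb q hs) hq)
    · exact hap (huniq b hb a p (hnba b hb a hsa) h (hnbp b hb) (fun h' => hp h'.symm))
  let f : V → Fin 5 := fun x => if x = p then 0 else if x = q then 2 else
    if same A p x then 1 else if H.Adj p x then 3 else 4
  have hfp : f p = 0 := by simp [f]
  have hfq : f q = 2 := by simp [f, hpq.symm]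
  have hfa : ∀ x, x ≠ p → x ≠ q → same A p x → f x = 1 := by
    intro x h1 h2 h3; simp [f, h1, h2, h3]
  have hne : ∀ x, ¬ same A p x → x ≠ p ∧ x ≠ q := by
    intro x hx
    refine ⟨?_, ?_⟩
    · rintro rfl; exact hx Iff.rfl
    · rintro rfl; exact hx hs
  have hf3 : ∀ x, ¬ same A p x → H.Adj p x → f x = 3 := by
    intro x h1 h2; simp [f, (hne x h1).1, (hne x h1).2, h1, h2]
  have hf4 : ∀ x, ¬ same A p x → ¬ H.Adj p x → f x = 4 := by
    intro x h1 h2; simp [f, (hne x h1).1, (hne x h1).2, h1, h2]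
  have hcases : ∀ x, (x = p) ∨ (x = q) ∨ (x ≠ p ∧ x ≠ q ∧ same A p x) ∨
      (¬ same A p x ∧ H.Adj p x) ∨ (¬ same A p x ∧ ¬ H.Adj p x) := by
    intro x; tauto
  have hside : ∀ x y, same A x y → ¬ (x = p ∧ y = q) → ¬ (x = q ∧ y = p) → ¬ H.Adj x y := by
    intro x y h1 h2 h3 h4
    rcases honly x y h1 h4 with h | h
    · exact h2 h
    · exact h3 h
  refine ⟨f, ?_, ?_, ?_, ?_, ?_, ?_⟩
  · -- adjacency
    have hsymm : ∀ x y, (f y = f x + 2 ∨ f x = f y + 2) ↔ (f x = f y + 2 ∨ f y = f x + 2) :=
      fun x y => or_comm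
    have d01 : ¬ ((1 : Fin 5) = 0 + 2 ∨ (0 : Fin 5) = 1 + 2) := by decide
    have key : ∀ x y, (f x).val ≤ (f y).val →
        (H.Adj x y ↔ (f y = f x + 2 ∨ f x = f y + 2)) := by
      intro x y hxy
      rcases hcases x with rfl | rfl | ⟨x1, x2, x3⟩ | ⟨x1, x2⟩ | ⟨x1, x2⟩
      · rcases hcases y with rfl | rfl | ⟨y1, y2, y3⟩ | ⟨y1, y2⟩ | ⟨y1, y2⟩
        · rw [hfp]; exact iff_of_false (H.irrefl) (by decide)
        · rw [hfp, hfq]; exact iff_of_true hadj (by decide)
        · rw [hfp, hfa y y1 y2 y3]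
          exact iff_of_false (hside _ _ y3 (fun h => y2 h.2) (fun h => y1 h.2)) (by decide)
        · rw [hfp, hf3 y y1 y2]; exact iff_of_true y2 (by decide)
        · rw [hfp, hf4 y y1 y2]; exact iff_of_false y2 (by decide)
      · rcases hcases y with rfl | rfl | ⟨y1, y2, y3⟩ | ⟨y1, y2⟩ | ⟨y1, y2⟩
        · rw [hfp, hfq]; exact iff_of_true hadj.symm (by decide)
        · rw [hfq]; exact iff_of_false (H.irrefl) (by decide)
        · rw [hfq, hfa y y1 y2 y3]
          exact iff_of_false (hside _ _ (hs.symm.trans y3) (fun h => y2 h.2) (fun h => y1 h.2))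
            (by decide)
        · rw [hfq, hf3 y y1 y2]
          exact iff_of_false (fun h => (hBq' y y1).1 h y2) (by decide)
        · rw [hfq, hf4 y y1 y2]; exact iff_of_true ((hBq' y y1).2 y2) (by decide)
      · rcases hcases y with rfl | rfl | ⟨y1, y2, y3⟩ | ⟨y1, y2⟩ | ⟨y1, y2⟩
        · rw [hfp, hfa x x1 x2 x3]
          exact iff_of_false (hside _ _ x3.symm (fun h => x1 h.1) (fun h => x2 h.1)) (by decide)
        · rw [hfq, hfa x x1 x2 x3]
          exact iff_of_false (hside _ _ (x3.symm.trans hs) (fun h => x1 h.1) (fun h => x2 h.1))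
            (by decide)
        · rw [hfa x x1 x2 x3, hfa y y1 y2 y3]
          exact iff_of_false (hside _ _ (x3.symm.trans y3) (fun h => x1 h.1) (fun h => x2 h.1))
            (by decide)
        · rw [hfa x x1 x2 x3, hf3 y y1 y2]
          exact iff_of_true (hBA y y1 x x1 x2 x3).symm (by decide)
        · rw [hfa x x1 x2 x3, hf4 y y1 y2]
          exact iff_of_true (hBA y y1 x x1 x2 x3).symm (by decide)
      · rcases hcases y with rfl | rfl | ⟨y1, y2, y3⟩ | ⟨y1, y2⟩ | ⟨y1, y2⟩
        · rw [hfp, hf3 x x1 x2]; exact iff_of_true x2.symm (by decide)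
        · rw [hfq, hf3 x x1 x2]
          exact iff_of_false (fun h => (hBq' x x1).1 h.symm x2) (by decide)
        · rw [hf3 x x1 x2, hfa y y1 y2 y3]
          exact iff_of_true (hBA x x1 y y1 y2 y3) (by decide)
        · rw [hf3 x x1 x2, hf3 y y1 y2]
          exact iff_of_false (hside _ _ (nsame_same' A p x y x1 y1) (fun h => (hne x x1).1 h.1)
            (fun h => (hne x x1).2 h.1)) (by decide)
        · rw [hf3 x x1 x2, hf4 y y1 y2]
          exact iff_of_false (hside _ _ (nsame_same' A p x y x1 y1) (fun h => (hne x x1).1 h.1)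
            (fun h => (hne x x1).2 h.1)) (by decide)
      · rcases hcases y with rfl | rfl | ⟨y1, y2, y3⟩ | ⟨y1, y2⟩ | ⟨y1, y2⟩
        · rw [hfp, hf4 x x1 x2]; exact iff_of_false (fun h => x2 h.symm) (by decide)
        · rw [hfq, hf4 x x1 x2]
          exact iff_of_true ((hBq' x x1).2 x2).symm (by decide)
        · rw [hf4 x x1 x2, hfa y y1 y2 y3]
          exact iff_of_true (hBA x x1 y y1 y2 y3) (by decide)
        · rw [hf4 x x1 x2, hf3 y y1 y2]
          exact iff_of_false (hside _ _ (nsame_same' A p x y x1 y1) (fun h => (hne x x1).1 h.1)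
            (fun h => (hne x x1).2 h.1)) (by decide)
        · rw [hf4 x x1 x2, hf4 y y1 y2]
          exact iff_of_false (hside _ _ (nsame_same' A p x y x1 y1) (fun h => (hne x x1).1 h.1)
            (fun h => (hne x x1).2 h.1)) (by decide)
    intro x y
    rcases le_total (f x).val (f y).val with h | h
    · exact key x y h
    · rw [H.adj_comm, hsymm]; exact key y x h
  · rw [Finset.card_eq_one]
    refine ⟨p, ?_⟩
    ext x
    simp only [Finset.mem_filter, Finset.mem_univ, true_and, Finset.mem_singleton]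
    constructor
    · intro hx
      rcases hcases x with h | rfl | ⟨x1, x2, x3⟩ | ⟨x1, x2⟩ | ⟨x1, x2⟩
      · exact h
      · rw [hfq] at hx; exact absurd hx (by decide)
      · rw [hfa x x1 x2 x3] at hx; exact absurd hx (by decide)
      · rw [hf3 x x1 x2] at hx; exact absurd hx (by decide)
      · rw [hf4 x x1 x2] at hx; exact absurd hx (by decide)
    · rintro rfl; exact hfp
  · rw [Finset.card_eq_one]
    refine ⟨q, ?_⟩
    ext x
    simp only [Finset.mem_filter, Finset.mem_univ, true_and, Finset.mem_singleton]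
    constructor
    · intro hx
      rcases hcases x with rfl | h | ⟨x1, x2, x3⟩ | ⟨x1, x2⟩ | ⟨x1, x2⟩
      · rw [hfp] at hx; exact absurd hx (by decide)
      · exact h
      · rw [hfa x x1 x2 x3] at hx; exact absurd hx (by decide)
      · rw [hf3 x x1 x2] at hx; exact absurd hx (by decide)
      · rw [hf4 x x1 x2] at hx; exact absurd hx (by decide)
    · rintro rfl; exact hfq
  · have hcard : ((univ : Finset V).filter (fun x => f x = 1)).card = a - 1 := by
      have : ((univ : Finset V).filter (fun x => f x = 1)) = (S.erase p).erase q := by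
        ext x
        simp only [Finset.mem_filter, Finset.mem_univ, true_and, Finset.mem_erase, hS]
        constructor
        · intro hx
          rcases hcases x with rfl | rfl | ⟨x1, x2, x3⟩ | ⟨x1, x2⟩ | ⟨x1, x2⟩
          · rw [hfp] at hx; exact absurd hx (by decide)
          · rw [hfq] at hx; exact absurd hx (by decide)
          · exact ⟨x2, x1, x3⟩
          · rw [hf3 x x1 x2] at hx; exact absurd hx (by decide)
          · rw [hf4 x x1 x2] at hx; exact absurd hx (by decide)
        · rintro ⟨h1, h2, h3⟩; exact hfa x h2 h1 h3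
      have hpS : p ∈ S := by rw [hS, Finset.mem_filter]; exact ⟨Finset.mem_univ _, Iff.rfl⟩
      have hqS : q ∈ S.erase p := by
        rw [Finset.mem_erase, hS, Finset.mem_filter]; exact ⟨hpq.symm, Finset.mem_univ _, hs⟩
      rw [this, Finset.card_erase_of_mem hqS, Finset.card_erase_of_mem hpS, ha]
      rfl
    rw [hcard, ← hndef]
    exact har2 hab
  · have : 0 < crs H A p := by
      have : (0 : ℝ) < crs H A p := by nlinarith
      exact_mod_cast this
    unfold crs at this
    obtain ⟨x, hx⟩ := Finset.card_pos.1 this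
    rw [Finset.mem_filter] at hx
    exact Finset.card_pos.2 ⟨x, by
      rw [Finset.mem_filter]; exact ⟨Finset.mem_univ _, hf3 x hx.2.1 hx.2.2⟩⟩
  · have : 0 < crs H A q := by
      have : (0 : ℝ) < crs H A q := by nlinarith
      exact_mod_cast this
    unfold crs at this
    obtain ⟨x, hx⟩ := Finset.card_pos.1 this
    rw [Finset.mem_filter] at hx
    have hx1 : ¬ same A p x := fun h => hx.2.1 (hs.symm.trans h)
    exact Finset.card_pos.2 ⟨x, by
      rw [Finset.mem_filter]
      exact ⟨Finset.mem_univ _, hf4 x hx1 ((hBq' x hx1).1 hx.2.2)⟩⟩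


end Pool.Agent.Helper254.MS
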