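import Pool.Agent.Helper254.MS.Defs

set_option autoImplicit false

open Finset Classical

namespace Pool.Agent.Helper254.MS

variable {V : Type} [Fintype V]

theorem crit_aux {n : ℕ} (G : SimpleGraph (Fin n)) (u v : Fin n) (huv : u ≠ v)
    (hna : ¬ G.Adj u v) (S : Finset (Fin n)) (hS : S.card ≤ 2)
    (hdom : ∀ x, ∃ w ∈ S, (G.Adj x w ∨ (x = u ∧ w = v) ∨ (x = v ∧ w = u)))
    (hv : v ∈ S) (hu : u ∉ S) (hy : ∀ w ∈ S, ¬ G.Adj u w) : ∃ b, UC Gᶜ v u b := by
  obtain ⟨w, hwS, hw⟩ := hdom v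
  have hvw : G.Adj v w := by
    rcases hw with h | ⟨h, -⟩ | ⟨-, h⟩
    · exact h
    · exact absurd h.symm huv
    · rw [h] at hwS; exact absurd hwS hu
  have hne : v ≠ w := hvw.ne
  have hsub : ({v, w} : Finset (Fin n)) ⊆ S := by
    intro z hz
    rw [Finset.mem_insert, Finset.mem_singleton] at hz
    rcases hz with rfl | rfl
    · exact hv
    · exact hwS
  have hcard : S.card ≤ ({v, w} : Finset (Fin n)).card := by
    rw [Finset.card_pair hne]
    exact hS
  have heq := Finset.eq_of_subset_of_card_le hsub hcard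
  have huw : u ≠ w := by
    rintro rfl
    exact hu hwS
  refine ⟨w, hne.symm, ?_, ?_, ?_, ?_⟩
  · rw [SimpleGraph.compl_adj]
    exact fun h => h.2 hvw
  · rw [SimpleGraph.compl_adj]
    exact ⟨huv.symm, fun h => hna h.symm⟩
  · rw [SimpleGraph.compl_adj]
    exact ⟨huw, hy w hwS⟩
  · intro z hvz hwz
    rw [SimpleGraph.compl_adj] at hvz hwz
    by_contra hzu
    obtain ⟨w', hw'S, hw'⟩ := hdom z
    rw [← heq, Finset.mem_insert, Finset.mem_singleton] at hw'S
    rcases hw' with h | ⟨h, -⟩ | ⟨h, -⟩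
    · rcases hw'S with h' | h'
      · rw [h'] at h
        exact hvz.2 h.symm
      · rw [h'] at h
        exact hwz.2 h.symm
    · exact hzu h
    · exact hvz.1 h.symm

theorem crit_compl {n : ℕ} (G : SimpleGraph (Fin n))
    (h2 : ∀ S : Finset (Fin n), S.card ≤ 2 → ¬ ∀ x, ∃ w ∈ S, G.Adj x w)
    (h3 : ∀ u v : Fin n, u ≠ v → ¬ G.Adj u v →
            ∃ S : Finset (Fin n), S.card ≤ 2 ∧
              ∀ x, ∃ w ∈ S, (G.Adj x w ∨ (x = u ∧ w = v) ∨ (x = v ∧ w = u))) :
    Crit Gᶜ := by
  intro u v huv hx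
  obtain ⟨x, hux, hvx⟩ := hx
  rw [SimpleGraph.compl_adj] at huv hux hvx
  obtain ⟨S, hS, hdom⟩ := h3 u v huv.1 huv.2
  have hy := h2 S hS
  push Not at hy
  obtain ⟨y, hy⟩ := hy
  obtain ⟨w, hwS, hw⟩ := hdom y
  by_cases hu : u ∈ S
  · by_cases hv : v ∈ S
    · exfalso
      have hsub : ({u, v} : Finset (Fin n)) ⊆ S := by
        intro z hz
        rw [Finset.mem_insert, Finset.mem_singleton] at hz
        rcases hz with rfl | rfl
        · exact hu
        · exact hv
      have hcard : S.card ≤ ({u, v} : Finset (Fin n)).card := by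
        rw [Finset.card_pair huv.1]
        exact hS
      have heq := Finset.eq_of_subset_of_card_le hsub hcard
      obtain ⟨w', hw'S, hw'⟩ := hdom x
      rw [← heq, Finset.mem_insert, Finset.mem_singleton] at hw'S
      rcases hw' with h | ⟨h, -⟩ | ⟨h, -⟩
      · rcases hw'S with rfl | rfl
        · exact hux.2 h.symm
        · exact hvx.2 h.symm
      · exact hux.1 h.symm
      · exact hvx.1 h.symm
    · left
      have hyv : y = v := by
        rcases hw with h | ⟨-, h⟩ | ⟨h, -⟩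
        · exact absurd h (hy w hwS)
        · rw [h] at hwS; exact absurd hwS hv
        · exact h
      rw [hyv] at hy
      refine crit_aux G v u huv.1.symm (fun h => huv.2 h.symm) S hS ?_ hu hv hy
      intro z
      obtain ⟨w', hw'S, hw'⟩ := hdom z
      refine ⟨w', hw'S, ?_⟩
      tauto
  · right
    have hyu : y = u ∧ v ∈ S := by
      rcases hw with h | ⟨h, h'⟩ | ⟨-, h⟩
      · exact absurd h (hy w hwS)
      · rw [h'] at hwS
        exact ⟨h, hwS⟩
      · rw [h] at hwS; exact absurd hwS hu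
    obtain ⟨hyu, hv⟩ := hyu
    rw [hyu] at hy
    exact crit_aux G u v huv.1 huv.2 S hS hdom hv hu hy


end Pool.Agent.Helper254.MS
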