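import Pool.Agent.Helper254.MS.Defs

set_option autoImplicit false

open Finset Classical

namespace Pool.Agent.Helper254.MS

variable {V : Type} [Fintype V]

theorem nonbip {n : ℕ} (hn : 2 ≤ n) (G : SimpleGraph (Fin n))
    (h2 : ∀ S : Finset (Fin n), S.card ≤ 2 → ¬ ∀ x, ∃ w ∈ S, G.Adj x w)
    (hd : G.diam = 2) (A : Finset (Fin n)) : ∃ x y, same A x y ∧ Gᶜ.Adj x y := by
  by_contra hc
  push Not at hc
  have hadj : ∀ x y, same A x y → x ≠ y → G.Adj x y := by
    intro x y hs hne
    by_contra hn'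
    exact hc x y hs ((SimpleGraph.compl_adj G x y).2 ⟨hne, hn'⟩)
  by_cases hcr : ∃ x ∈ A, ∃ y, y ∉ A ∧ G.Adj x y
  · obtain ⟨x, hx, y, hy, hxy⟩ := hcr
    apply h2 {x, y} (Finset.card_le_two)
    intro z
    by_cases hz : z ∈ A
    · by_cases hzx : z = x
      · exact ⟨y, by simp, hzx ▸ hxy⟩
      · exact ⟨x, by simp, hadj z x ⟨fun _ => hx, fun _ => hz⟩ hzx⟩
    · by_cases hzy : z = y
      · exact ⟨x, by simp, hzy ▸ hxy.symm⟩
      · exact ⟨y, by simp, hadj z y ⟨fun h => absurd h hz, fun h => absurd h hy⟩ hzy⟩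
  · push Not at hcr
    have hcomplete : (∀ x y : Fin n, same A x y) → False := by
      intro hall
      have hab : (⟨0, by omega⟩ : Fin n) ≠ ⟨1, by omega⟩ := by
        intro h
        have := congrArg Fin.val h
        simp at this
      apply h2 {⟨0, by omega⟩, ⟨1, by omega⟩} (Finset.card_le_two)
      intro z
      by_cases hz : z = ⟨0, by omega⟩
      · exact ⟨⟨1, by omega⟩, by simp, hadj _ _ (hall _ _) (hz ▸ hab)⟩
      · exact ⟨⟨0, by omega⟩, by simp, hadj _ _ (hall _ _) hz⟩
    by_cases hA : ∃ a, a ∈ A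
    · by_cases hB : ∃ b, b ∉ A
      · obtain ⟨a, ha⟩ := hA
        obtain ⟨b, hb⟩ := hB
        have hconn : G.Preconnected :=
          SimpleGraph.preconnected_of_ediam_ne_top
            (SimpleGraph.ediam_ne_top_of_diam_ne_zero (by rw [hd]; norm_num))
        obtain ⟨p⟩ := hconn a b
        obtain ⟨d, _, hd1, hd2⟩ := p.exists_boundary_dart (A : Set (Fin n))
          (Finset.mem_coe.2 ha) (fun h => hb (Finset.mem_coe.1 h))
        exact hcr d.fst (Finset.mem_coe.1 hd1) d.snd (fun h => hd2 (Finset.mem_coe.2 h)) d.adj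
      · push Not at hB
        exact hcomplete (fun x y => ⟨fun _ => hB y, fun _ => hB x⟩)
    · push Not at hA
      exact hcomplete (fun x y => ⟨fun h => absurd h (hA x), fun h => absurd h (hA y)⟩)


end Pool.Agent.Helper254.MS
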