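import Pool.Agent.Helper254.MS.Defs

set_option autoImplicit false

open Finset Classical

namespace Pool.Agent.Helper254.MS

variable {V : Type} [Fintype V]

theorem e2_compl {n : ℕ} (G : SimpleGraph (Fin n)) [DecidableRel G.Adj] :
    E2 Gᶜ + 2 * G.edgeFinset.card + n = n ^ 2 := by
  classical
  have h1 : 2 * G.edgeFinset.card =
      ((univ : Finset (Fin n × Fin n)).filter (fun p => G.Adj p.1 p.2)).card := by
    rw [SimpleGraph.two_mul_card_edgeFinset]
  have h2 : ((univ : Finset (Fin n × Fin n)).filter (fun p => p.1 = p.2)).card = n := by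
    have : ((univ : Finset (Fin n × Fin n)).filter (fun p => p.1 = p.2)) =
        (univ : Finset (Fin n)).image (fun i => (i, i)) := by
      ext ⟨a, b⟩
      simp
    rw [this, Finset.card_image_of_injective _ (fun a b h => (Prod.mk.inj h).1)]
    simp
  have h3 : (univ : Finset (Fin n × Fin n)).card = n ^ 2 := by
    simp [sq]
  have e : (univ : Finset (Fin n × Fin n)) =
      (((univ : Finset (Fin n × Fin n)).filter (fun p => Gᶜ.Adj p.1 p.2)) ∪
       ((univ : Finset (Fin n × Fin n)).filter (fun p => G.Adj p.1 p.2))) ∪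
       ((univ : Finset (Fin n × Fin n)).filter (fun p => p.1 = p.2)) := by
    ext p
    simp only [mem_univ, mem_union, mem_filter, true_and, SimpleGraph.compl_adj, true_iff]
    by_cases hp : p.1 = p.2
    · exact Or.inr hp
    · by_cases hq : G.Adj p.1 p.2
      · exact Or.inl (Or.inr hq)
      · exact Or.inl (Or.inl ⟨hp, hq⟩)
  have d1 : Disjoint ((univ : Finset (Fin n × Fin n)).filter (fun p => Gᶜ.Adj p.1 p.2))
      ((univ : Finset (Fin n × Fin n)).filter (fun p => G.Adj p.1 p.2)) := by
    rw [Finset.disjoint_left]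
    intro p hp hq
    simp only [mem_filter, mem_univ, true_and, SimpleGraph.compl_adj] at hp hq
    exact hp.2 hq
  have d2 : Disjoint (((univ : Finset (Fin n × Fin n)).filter (fun p => Gᶜ.Adj p.1 p.2)) ∪
      ((univ : Finset (Fin n × Fin n)).filter (fun p => G.Adj p.1 p.2)))
      ((univ : Finset (Fin n × Fin n)).filter (fun p => p.1 = p.2)) := by
    rw [Finset.disjoint_left]
    intro p hp hq
    simp only [mem_union, mem_filter, mem_univ, true_and, SimpleGraph.compl_adj] at hp hq
    rcases hp with hp | hp
    · exact hp.1 hq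
    · exact hp.ne hq
  have h4 := congrArg Finset.card e
  rw [Finset.card_union_of_disjoint d2, Finset.card_union_of_disjoint d1, h2, h3, ← h1] at h4
  have h5 : E2 Gᶜ = ((univ : Finset (Fin n × Fin n)).filter (fun p => Gᶜ.Adj p.1 p.2)).card := by
    unfold E2
    congr
  omega


end Pool.Agent.Helper254.MS
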