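import Pool.Agent.Helper254.MS.B0
import Pool.Agent.Helper254.MS.D3

set_option autoImplicit false

open Finset Classical

namespace Pool.Agent.Helper254.MS

variable {V : Type} [Fintype V]

theorem final_conv {n : ℕ} (hn : 4 ≤ n) (G : SimpleGraph (Fin n)) [DecidableRel G.Adj]
    (h : Concl Gᶜ) :
    ((n ^ 2 - 4) / 4 ≤ G.edgeFinset.card ∧
      (G.edgeFinset.card = (n ^ 2 - 4) / 4 →
           ∃ f : Fin n → Fin 5,
             (∀ x y : Fin n, G.Adj x y ↔
                (x ≠ y ∧ (f x = f y ∨ f y = f x + 1 ∨ f x = f y + 1))) ∧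
             ((univ : Finset (Fin n)).filter (fun x => f x = 0)).card = 1 ∧
             ((univ : Finset (Fin n)).filter (fun x => f x = 2)).card = 1 ∧
             (((univ : Finset (Fin n)).filter (fun x => f x = 1)).card = (n - 3) / 2 ∨
              ((univ : Finset (Fin n)).filter (fun x => f x = 1)).card = (n - 2) / 2) ∧
             1 ≤ ((univ : Finset (Fin n)).filter (fun x => f x = 3)).card ∧
             1 ≤ ((univ : Finset (Fin n)).filter (fun x => f x = 4)).card)) := by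
  obtain ⟨hle, heq⟩ := h
  have hE := e2_compl G
  rw [Fintype.card_fin] at hle heq
  have hdec : ∀ a b : Fin 5, ¬ (b = a + 2 ∨ a = b + 2) ↔ (a = b ∨ b = a + 1 ∨ a = b + 1) := by
    decide
  have harith : (E2 Gᶜ ≤ 2 * ((n - 1) ^ 2 / 4 + 1) → (n ^ 2 - 4) / 4 ≤ G.edgeFinset.card) ∧
      (G.edgeFinset.card = (n ^ 2 - 4) / 4 → E2 Gᶜ = 2 * ((n - 1) ^ 2 / 4 + 1)) := by
    generalize G.edgeFinset.card = m at hE ⊢
    generalize E2 Gᶜ = e at hE ⊢
    rcases Nat.even_or_odd' n with ⟨k, rfl | rfl⟩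
    · obtain ⟨l, rfl⟩ : ∃ l, k = l + 1 := ⟨k - 1, by omega⟩
      have e1 : (2 * (l + 1) - 1) ^ 2 / 4 = l ^ 2 + l := by
        have : 2 * (l + 1) - 1 = 2 * l + 1 := by omega
        rw [this]
        have : (2 * l + 1) ^ 2 = 4 * (l ^ 2 + l) + 1 := by ring
        rw [this]; omega
      have e2 : ((2 * (l + 1)) ^ 2 - 4) / 4 = l ^ 2 + 2 * l := by
        have : (2 * (l + 1)) ^ 2 = 4 * (l ^ 2 + 2 * l) + 4 := by ring
        rw [this]; omega
      rw [e1, e2]
      have e3 : (2 * (l + 1)) ^ 2 = 4 * l ^ 2 + 8 * l + 4 := by ring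
      rw [e3] at hE
      generalize l ^ 2 = q at *
      constructor <;> intro h <;> omega
    · have e1 : (2 * k + 1 - 1) ^ 2 / 4 = k ^ 2 := by
        have : 2 * k + 1 - 1 = 2 * k := by omega
        rw [this]
        have : (2 * k) ^ 2 = 4 * (k ^ 2) := by ring
        rw [this]; omega
      have e2 : ((2 * k + 1) ^ 2 - 4) / 4 = k ^ 2 + k - 1 := by
        have : (2 * k + 1) ^ 2 = 4 * (k ^ 2 + k) + 1 := by ring
        rw [this]
        have : 1 ≤ k ^ 2 + k := by
          have : 1 ≤ k := by omega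
          nlinarith
        omega
      rw [e1, e2]
      have e3 : (2 * k + 1) ^ 2 = 4 * k ^ 2 + 4 * k + 1 := by ring
      rw [e3] at hE
      have e4 : 1 ≤ k ^ 2 + k := by
        have : 1 ≤ k := by omega
        nlinarith
      generalize k ^ 2 = q at *
      constructor <;> intro h <;> omega
  refine ⟨harith.1 hle, fun hm => ?_⟩
  obtain ⟨f, hf, h0, h2, h1, h3, h4⟩ := heq (harith.2 hm)
  refine ⟨f, ?_, h0, h2, h1, h3, h4⟩
  intro x y
  have hxy := hf x y
  rw [SimpleGraph.compl_adj] at hxy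
  constructor
  · intro hadj
    refine ⟨hadj.ne, (hdec _ _).1 ?_⟩
    intro h5
    exact (hxy.2 h5).2 hadj
  · rintro ⟨hne, h5⟩
    have h6 := (hdec _ _).2 h5
    by_contra h7
    exact h6 (hxy.1 ⟨hne, h7⟩)


end Pool.Agent.Helper254.MS
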