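import Pool.Agent.Helper254.MS.D3

set_option autoImplicit false

open Finset Classical

namespace Pool.Agent.Helper254.MS

variable {V : Type} [Fintype V]

lemma sum_cls {n : ℕ} (f : Fin n → Fin 5) (g : Fin 5 → ℕ) :
    ∑ x, g (f x) = ∑ i : Fin 5, ((univ : Finset (Fin n)).filter (fun x => f x = i)).card * g i := by
  rw [← Finset.sum_fiberwise univ f (fun x => g (f x))]
  apply Finset.sum_congr rfl
  intro i _
  rw [Finset.sum_congr rfl (g := fun _ => g i) (by
    intro x hx; rw [(Finset.mem_filter.1 hx).2])]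
  rw [Finset.sum_const, smul_eq_mul]

lemma card_pairs {n : ℕ} (f : Fin n → Fin 5) :
    ((univ : Finset (Fin n × Fin n)).filter (fun p => f p.2 = f p.1 + 2)).card =
      ∑ i : Fin 5, ((univ : Finset (Fin n)).filter (fun x => f x = i)).card *
        ((univ : Finset (Fin n)).filter (fun x => f x = i + 2)).card := by
  rw [← sum_cls f (fun i => ((univ : Finset (Fin n)).filter (fun x => f x = i + 2)).card)]
  rw [Finset.card_filter, Fintype.sum_prod_type]
  apply Finset.sum_congr rfl
  intro x _
  rw [Finset.card_filter]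

lemma card_pairs' {n : ℕ} (f : Fin n → Fin 5) :
    ((univ : Finset (Fin n × Fin n)).filter (fun p => f p.1 = f p.2 + 2)).card =
      ((univ : Finset (Fin n × Fin n)).filter (fun p => f p.2 = f p.1 + 2)).card := by
  apply Finset.card_bij (fun p _ => (p.2, p.1))
  · rintro ⟨a, b⟩ h; simpa using h
  · rintro ⟨a, b⟩ _ ⟨c, d⟩ _ h
    simp only [Prod.mk.injEq] at h ⊢
    exact ⟨h.2, h.1⟩
  · rintro ⟨a, b⟩ h
    exact ⟨(b, a), by simpa using h, rfl⟩

theorem converse {n : ℕ} (hn : 4 ≤ n) (G : SimpleGraph (Fin n)) [DecidableRel G.Adj]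
    (f : Fin n → Fin 5)
    (hf : ∀ x y : Fin n, G.Adj x y ↔ (x ≠ y ∧ (f x = f y ∨ f y = f x + 1 ∨ f x = f y + 1)))
    (h0 : ((univ : Finset (Fin n)).filter (fun x => f x = 0)).card = 1)
    (h2 : ((univ : Finset (Fin n)).filter (fun x => f x = 2)).card = 1)
    (h1 : (((univ : Finset (Fin n)).filter (fun x => f x = 1)).card = (n - 3) / 2 ∨
              ((univ : Finset (Fin n)).filter (fun x => f x = 1)).card = (n - 2) / 2))
    (h3 : 1 ≤ ((univ : Finset (Fin n)).filter (fun x => f x = 3)).card)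
    (h4 : 1 ≤ ((univ : Finset (Fin n)).filter (fun x => f x = 4)).card) :
    G.edgeFinset.card = (n ^ 2 - 4) / 4 := by
  have hadj : ∀ x y : Fin n, Gᶜ.Adj x y ↔ (f y = f x + 2 ∨ f x = f y + 2) := by
    intro x y
    rw [SimpleGraph.compl_adj, hf]
    have key : ∀ a b : Fin 5, (¬ (a = b ∨ b = a + 1 ∨ a = b + 1)) ↔ (b = a + 2 ∨ a = b + 2) := by
      decide
    rw [← key]
    constructor
    · rintro ⟨hne, h⟩ h'
      exact h ⟨hne, h'⟩
    · intro h
      refine ⟨?_, fun h' => h h'.2⟩
      rintro rfl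
      exact h (Or.inl rfl)
  have hE : E2 Gᶜ = 2 * ((univ : Finset (Fin n × Fin n)).filter
      (fun p => f p.2 = f p.1 + 2)).card := by
    have hsplit : E2 Gᶜ =
        ((univ : Finset (Fin n × Fin n)).filter (fun p => f p.2 = f p.1 + 2) ∪
        (univ : Finset (Fin n × Fin n)).filter (fun p => f p.1 = f p.2 + 2)).card := by
      unfold E2
      congr 1
      ext p
      simp only [mem_filter, mem_univ, true_and, mem_union]
      exact hadj p.1 p.2
    have hdis : Disjoint ((univ : Finset (Fin n × Fin n)).filter (fun p => f p.2 = f p.1 + 2))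
        ((univ : Finset (Fin n × Fin n)).filter (fun p => f p.1 = f p.2 + 2)) := by
      rw [Finset.disjoint_left]
      intro p hp hp'
      simp only [mem_filter, mem_univ, true_and] at hp hp'
      have key : ∀ a b : Fin 5, b = a + 2 → a = b + 2 → False := by decide
      exact key _ _ hp hp'
    rw [hsplit, Finset.card_union_of_disjoint hdis, card_pairs' f]
    ring
  have hcnt := card_pairs f
  have htot : ∑ i : Fin 5, ((univ : Finset (Fin n)).filter (fun x => f x = i)).card = n := by
    have := sum_cls f (fun _ => 1)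
    simp only [mul_one] at this
    rw [← this]; simp
  rw [Fin.sum_univ_five] at htot hcnt
  have e0 : (0 : Fin 5) + 2 = 2 := rfl
  have e1 : (1 : Fin 5) + 2 = 3 := rfl
  have e2 : (2 : Fin 5) + 2 = 4 := rfl
  have e3 : (3 : Fin 5) + 2 = 0 := rfl
  have e4 : (4 : Fin 5) + 2 = 1 := rfl
  rw [e0, e1, e2, e3, e4] at hcnt
  have hc := e2_compl G
  rw [hE, hcnt] at hc
  rw [h0, h2] at hc htot
  clear hcnt hE hadj hf h0 h2
  generalize ((univ : Finset (Fin n)).filter (fun x => f x = 1)).card = n1 at *
  generalize ((univ : Finset (Fin n)).filter (fun x => f x = 3)).card = n3 at *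
  generalize ((univ : Finset (Fin n)).filter (fun x => f x = 4)).card = n4 at *
  generalize G.edgeFinset.card = e at *
  obtain ⟨k, hk | hk⟩ : ∃ k, n = 2 * k ∨ n = 2 * k + 1 := ⟨n / 2, by omega⟩
  · -- even
    have hk2 : 2 ≤ k := by omega
    obtain ⟨m, rfl⟩ : ∃ m, k = m + 2 := ⟨k - 2, by omega⟩
    have hres : e = (m + 2) ^ 2 - 1 := by
      rcases h1 with h1 | h1
      · have hn1 : n1 = m := by omega
        have h34 : n3 + n4 = m + 2 := by omega
        subst hn1
        have hn4 : n4 = n1 + 2 - n3 := by omega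
        have h5 : n3 ≤ n1 + 2 := by omega
        zify [h5] at hn4 hc ⊢
        have : (1:ℤ) ≤ (n1 + 2) ^ 2 := by nlinarith
        rw [Nat.cast_sub (by nlinarith)]
        push_cast
        rw [hk] at hc
        push_cast at hc
        rw [hn4] at hc
        nlinarith
      · have hn1 : n1 = m + 1 := by omega
        have h34 : n3 + n4 = m + 1 := by omega
        have h5 : n3 ≤ m + 1 := by omega
        have hn4 : n4 = m + 1 - n3 := by omega
        rw [hn1, hn4, hk] at hc
        zify [h5] at hc ⊢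
        rw [Nat.cast_sub (by nlinarith)]
        push_cast
        nlinarith
    rw [hres, hk]
    have : (2 * (m + 2)) ^ 2 - 4 = 4 * ((m + 2) ^ 2 - 1) := by
      rw [Nat.mul_sub]; ring_nf
    rw [this, Nat.mul_div_cancel_left _ (by norm_num)]
  · -- odd
    have hk2 : 2 ≤ k := by omega
    obtain ⟨m, rfl⟩ : ∃ m, k = m + 2 := ⟨k - 2, by omega⟩
    have hn1 : n1 = m + 1 := by omega
    have h34 : n3 + n4 = m + 2 := by omega
    have h5 : n3 ≤ m + 2 := by omega
    have hn4 : n4 = m + 2 - n3 := by omega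
    have hres : e + 1 = (m + 2) ^ 2 + (m + 2) := by
      rw [hn1, hn4, hk] at hc
      zify [h5] at hc ⊢
      nlinarith
    have h6 : n ^ 2 - 4 = 4 * e + 1 := by
      rw [hk]
      have : (2 * (m + 2) + 1) ^ 2 = 4 * ((m + 2) ^ 2 + (m + 2)) + 1 := by ring
      rw [this, ← hres]
      omega
    rw [h6]
    omega


end Pool.Agent.Helper254.MS
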