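import Mathlib

set_option autoImplicit false

open Finset Classical

namespace Pool.Agent.Helper254.MS

/-- `u - v - b` is a path, `u,b` are distinct and non-adjacent and `v` is their only common neighbour. -/
def UC {V : Type} (H : SimpleGraph V) (u v b : V) : Prop :=
  b ≠ u ∧ ¬ H.Adj u b ∧ H.Adj u v ∧ H.Adj v b ∧ ∀ x, H.Adj u x → H.Adj b x → x = v

/-- every edge contained in a triangle has a critical pair -/
def Crit {V : Type} (H : SimpleGraph V) : Prop :=
  ∀ u v, H.Adj u v → (∃ x, H.Adj u x ∧ H.Adj v x) → (∃ b, UC H u v b) ∨ (∃ b, UC H v u b)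

variable {V : Type} [Fintype V]

/-- number of ordered adjacent pairs (twice the number of edges) -/
noncomputable def E2 (H : SimpleGraph V) : ℕ :=
  ((univ : Finset (V × V)).filter (fun p => H.Adj p.1 p.2)).card

/-- degree -/
noncomputable def dg (H : SimpleGraph V) (v : V) : ℕ :=
  ((univ : Finset V).filter (fun w => H.Adj v w)).card

/-- codegree -/
noncomputable def cod (H : SimpleGraph V) (x y : V) : ℕ :=
  ((univ : Finset V).filter (fun z => H.Adj x z ∧ H.Adj y z)).card

/-- number of neighbours of `x` that are not neighbours of `y` -/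
noncomputable def dif (H : SimpleGraph V) (x y : V) : ℕ :=
  ((univ : Finset V).filter (fun z => H.Adj x z ∧ ¬ H.Adj y z)).card

/-- `x,y` lie on the same side of the partition `A, Aᶜ` -/
def same (A : Finset V) (x y : V) : Prop := (x ∈ A ↔ y ∈ A)

/-- size of the opposite side -/
noncomputable def opp (A : Finset V) (v : V) : ℕ :=
  ((univ : Finset V).filter (fun w => ¬ same A v w)).card

noncomputable def mis (H : SimpleGraph V) (A : Finset V) (v : V) : ℕ :=
  ((univ : Finset V).filter (fun w => ¬ same A v w ∧ ¬ H.Adj v w)).card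

noncomputable def inn (H : SimpleGraph V) (A : Finset V) (v : V) : ℕ :=
  ((univ : Finset V).filter (fun w => same A v w ∧ H.Adj v w)).card

noncomputable def crs (H : SimpleGraph V) (A : Finset V) (v : V) : ℕ :=
  ((univ : Finset V).filter (fun w => ¬ same A v w ∧ H.Adj v w)).card

noncomputable def Miss2 (H : SimpleGraph V) (A : Finset V) : ℕ := ∑ v, mis H A v

noncomputable def In2 (H : SimpleGraph V) (A : Finset V) : ℕ := ∑ v, inn H A v

/-- a system of chosen critical triples (leaf, centre, base), one for each edge in a triangle -/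
structure Tri (H : SimpleGraph V) (T : Finset (V × V × V)) : Prop where
  uc : ∀ u v b, (u, v, b) ∈ T → UC H u v b
  fn : ∀ u v b b', (u, v, b) ∈ T → (u, v, b') ∈ T → b = b'
  anti : ∀ u v b b', (u, v, b) ∈ T → (v, u, b') ∉ T
  tri : ∀ u v b, (u, v, b) ∈ T → ∃ x, H.Adj u x ∧ H.Adj v x
  cover : ∀ u v, H.Adj u v → (∃ x, H.Adj u x ∧ H.Adj v x) → (∃ b, (u, v, b) ∈ T) ∨ (∃ b, (v, u, b) ∈ T)

/-- ordered pairs (centre, base) -/
noncomputable def RR (T : Finset (V × V × V)) : Finset (V × V) := T.image (fun t => (t.2.1, t.2.2))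

/-- saturated ordered pairs: adjacent without common neighbour, or (leaf, base) in some order -/
def Sat (H : SimpleGraph V) (T : Finset (V × V × V)) (x y : V) : Prop :=
  (H.Adj x y ∧ cod H x y = 0) ∨ (∃ v, (x, v, y) ∈ T) ∨ (∃ v, (y, v, x) ∈ T)

end Pool.Agent.Helper254.MS
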