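import Pool.Agent.Helper254.MS.B12
import Pool.Agent.Helper254.MS.B13
import Pool.Agent.Helper254.MS.C4
import Pool.Agent.Helper254.MS.A11
import Pool.Agent.Helper254.MS.A9
import Pool.Agent.Helper254.MS.A10
import Pool.Agent.Helper254.MS.C2

set_option autoImplicit false

open Finset Classical

namespace Pool.Agent.Helper254.MS

variable {V : Type} [Fintype V]

/-- degree inside bounded by In2 -/
theorem inn_le_in2 (H : SimpleGraph V) (A : Finset V) (v : V) : inn H A v ≤ In2 H A := by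
  unfold In2
  exact Finset.single_le_sum (f := fun v => inn H A v) (fun _ _ => Nat.zero_le _) (Finset.mem_univ v)

theorem typ_of_small (H : SimpleGraph V) (A : Finset V) (G : Good H A) (v : V)
    (h : (mis H A v : ℝ) ≤ (7 / 10 ^ 4) * (Fintype.card V : ℝ)) : typ H A v := by
  unfold typ
  have hb := G.big
  have : (0 : ℝ) ≤ (Fintype.card V : ℝ) := by positivity
  nlinarith

theorem caseII' (H : SimpleGraph V) (A : Finset V) (G : Good H A) (p q : V) (hpq : p ≠ q)
    (hs : same A p q)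
    (h : (opp A p : ℝ) - (4 / 10 ^ 4) * (Fintype.card V : ℝ) ≤ (mis H A p : ℝ) + (mis H A q : ℝ))
    (hoth : ∀ v, v ≠ p → v ≠ q → (mis H A v : ℝ) ≤ (7 / 10 ^ 4) * (Fintype.card V : ℝ))
    (hB : (crs H A p : ℝ) < (Fintype.card V : ℝ) / 200)
    (hnb : ∀ A' : Finset V, ∃ x y, same A' x y ∧ H.Adj x y) : Concl H := by
  have hb := G.big
  obtain ⟨b1, b2, b3⟩ := bounds H A G
  have hm := miss2_pair H A p q hpq
  have hm' : 2 * ((mis H A p : ℝ) + (mis H A q : ℝ)) ≤ (Miss2 H A : ℝ) + 2 := by exact_mod_cast hm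
  have e1 := opp_eq H A p
  have e1' : (opp A p : ℝ) = (mis H A p : ℝ) + (crs H A p : ℝ) := by exact_mod_cast e1
  have hq : (mis H A q : ℝ) ≤ (Fintype.card V : ℝ) / 100 := by
    have := (b3 p).1
    nlinarith
  have hn : (10 : ℝ) ^ 6 ≤ (Fintype.card V : ℝ) := le_trans (by norm_num) hb
  have hty : ∀ v, v ≠ p → (mis H A v : ℝ) ≤ (Fintype.card V : ℝ) / 100 := by
    intro v hv
    by_cases hvq : v = q
    · rw [hvq]; exact hq
    · exact typ_of_small H A G v (hoth v hv hvq)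
  refine caseII H A p G.crit hn hty (fun v => sizes H A G v) ?_ ?_ ?_ hnb
  · intro x y hxy hadj
    by_contra hcon
    push Not at hcon
    exact no_typ_edge H A G x y (hty x hcon.1) (hty y hcon.2) hxy hadj
  · have := inn_le_in2 H A p
    have h2 : (inn H A p : ℝ) ≤ (In2 H A : ℝ) := by exact_mod_cast this
    nlinarith
  · nlinarith

theorem main2 (H : SimpleGraph V) (A : Finset V) (G : Good H A)
    (hnb : ∀ A' : Finset V, ∃ x y, same A' x y ∧ H.Adj x y) : Concl H := by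
  obtain ⟨p, q, hpq, hs, hm⟩ := pq_exists H A G (hnb A)
  have hoth : ∀ v, v ≠ p → v ≠ q → (mis H A v : ℝ) ≤ (7 / 10 ^ 4) * (Fintype.card V : ℝ) :=
    fun v hp hq => others H A G p q hpq hs hm v hp hq
  have hb := G.big
  have hn : (10 : ℝ) ^ 6 ≤ (Fintype.card V : ℝ) := le_trans (by norm_num) hb
  by_cases h1 : (crs H A p : ℝ) < (Fintype.card V : ℝ) / 200
  · exact caseII' H A G p q hpq hs hm hoth h1 hnb
  by_cases h2 : (crs H A q : ℝ) < (Fintype.card V : ℝ) / 200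
  · refine caseII' H A G q p hpq.symm hs.symm ?_ (fun v a b => hoth v b a) h2 hnb
    rw [← opp_same A p q hs]; linarith
  push Not at h1 h2
  refine caseI H A p q G.crit hn hpq hs ?_ (fun v => sizes H A G v) ?_ h1 h2 (hnb A)
  · intro v hp hq
    have := hoth v hp hq
    nlinarith
  · intro x y hxy hadj
    by_contra hcon
    push Not at hcon
    exact no_typ_edge H A G x y (typ_of_small H A G x (hoth x hcon.1 hcon.2.1))
      (typ_of_small H A G y (hoth y hcon.2.2.1 hcon.2.2.2)) hxy hadj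


theorem main : ∃ N : ℕ, ∀ (V : Type) [Fintype V] (H : SimpleGraph V),
    N ≤ Fintype.card V → Crit H →
    (∀ A' : Finset V, ∃ x y, same A' x y ∧ H.Adj x y) → Concl H := by
  obtain ⟨N, hN⟩ := stage1 (1 / 10 ^ 15) (by norm_num)
  refine ⟨max N (10 ^ 20), ?_⟩
  intro V _ H hV hC hnb
  have hV1 : N ≤ Fintype.card V := le_trans (le_max_left _ _) hV
  have hV2 : 10 ^ 20 ≤ Fintype.card V := le_trans (le_max_right _ _) hV
  have hV3 : (10 : ℝ) ^ 20 ≤ (Fintype.card V : ℝ) := by exact_mod_cast hV2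
  by_cases hm : (Fintype.card V : ℝ) ^ 2 - 2 * (Fintype.card V : ℝ) ≤ 2 * (E2 H : ℝ)
  · obtain ⟨T1, hT1⟩ := hN V H hV1 hC hm
    obtain ⟨A0, hA0⟩ := mantel_stab H T1 _ hm hT1
    obtain ⟨A, hA, hcut⟩ := max_cut H A0
    refine main2 H A ⟨hC, hV3, hm, ?_, hcut⟩ hnb
    have h1 : (In2 H A : ℝ) ≤ (In2 H A0 : ℝ) := by exact_mod_cast hA
    have h2 : (Fintype.card V : ℝ) ≤ (Fintype.card V : ℝ) ^ 2 / 10 ^ 20 := by
      rw [le_div_iff₀ (by positivity)]
      nlinarith
    have h3 : (0 : ℝ) ≤ (Fintype.card V : ℝ) ^ 2 := by positivity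
    have h4 : (Fintype.card V : ℝ) + 2 * (1 / 10 ^ 15) * (Fintype.card V : ℝ) ^ 2 ≤
        (Fintype.card V : ℝ) ^ 2 / 10 ^ 14 := by
      have : (Fintype.card V : ℝ) ^ 2 / 10 ^ 14 =
        (Fintype.card V : ℝ) ^ 2 / 10 ^ 20 + 2 * (1 / 10 ^ 15) * (Fintype.card V : ℝ) ^ 2 +
         (1 / 10 ^ 14 - 1 / 10 ^ 20 - 2 / 10 ^ 15) * (Fintype.card V : ℝ) ^ 2 := by ring
      rw [this]
      have h5 : (0 : ℝ) ≤ (1 / 10 ^ 14 - 1 / 10 ^ 20 - 2 / 10 ^ 15) * (Fintype.card V : ℝ) ^ 2 := by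
        apply mul_nonneg _ h3
        norm_num
      linarith
    linarith
  · push Not at hm
    -- few edges: trivial
    set n := Fintype.card V with hn
    have h1 : 2 * E2 H + 2 * n < n ^ 2 := by
      have : 2 * (E2 H : ℝ) + 2 * (n : ℝ) < (n : ℝ) ^ 2 := by linarith
      exact_mod_cast this
    have hn1 : 1 ≤ n := le_trans (by norm_num) hV2
    obtain ⟨m, hm'⟩ : ∃ m, n = m + 1 := ⟨n - 1, by omega⟩
    have key : E2 H < 2 * ((n - 1) ^ 2 / 4 + 1) := by
      rw [hm'] at h1 ⊢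
      simp only [Nat.add_sub_cancel]
      have h2 : m ^ 2 < 4 * (m ^ 2 / 4 + 1) := by omega
      nlinarith
    exact ⟨key.le, fun h => absurd h key.ne⟩

end Pool.Agent.Helper254.MS
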